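import Pool.Agent.AD.Defs

namespace AD

open MvPolynomial

/-- the constant coefficient of the commutative image -/
private theorem constantCoeff_comp (p : ℕ) (f : P) :
    constantCoeff (comp p f) = ((aug f : ℤ) : ZMod p) := by
  have h : ((constantCoeff : MvPolynomial ℕ (ZMod p) →+* ZMod p).toIntAlgHom.comp (comp p)) =
      (Int.castRingHom (ZMod p)).toIntAlgHom.comp aug := by
    apply FreeAlgebra.hom_ext
    funext i
    change constantCoeff (comp p (FreeAlgebra.ι ℤ i)) = ((aug (FreeAlgebra.ι ℤ i) : ℤ) : ZMod p)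
    simp [comp, aug]
  exact congrArg (fun g => g f) h

private theorem mem_mm_iff (p : ℕ) (g : MvPolynomial ℕ (ZMod p)) :
    g ∈ mm (ZMod p) ↔ constantCoeff g = 0 := by
  have h := mem_pow_idealOfVars_iff' (σ := ℕ) (R := ZMod p) 1 g
  rw [pow_one] at h
  refine Iff.trans h ?_
  constructor
  · intro h1
    exact h1 0 (by simp)
  · intro h1 x hx
    have hx0 : x = 0 := by
      have : Finsupp.degree x = 0 := by omega
      exact (Finsupp.degree_eq_zero_iff x).1 this
    rw [hx0]
    exact h1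

private theorem mem_pow_mm_iff (p e : ℕ) (g : MvPolynomial ℕ (ZMod p)) :
    g ∈ (mm (ZMod p)) ^ e ↔ ∀ x : ℕ →₀ ℕ, Finsupp.degree x < e → coeff x g = 0 :=
  mem_pow_idealOfVars_iff' (σ := ℕ) (R := ZMod p) e g

private theorem mem_TC (p : ℕ) (f : P) :
    f ∈ TC p ↔ aug f = 0 ∧ comp p f ∈ (mm (ZMod p)) ^ (p ^ 2 + p + 2) :=
  Iff.rfl

/-- AD-10 (a). -/
theorem isT_TC (p : ℕ) [Fact p.Prime] : IsT (TC p) := by
  refine ⟨inf_le_left, ?_, ?_, ?_⟩
  · intro f hf g
    rw [mem_TC] at hf ⊢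
    refine ⟨by rw [map_mul, hf.1, zero_mul], ?_⟩
    rw [map_mul]
    exact Ideal.mul_mem_right _ _ hf.2
  · intro f hf g
    rw [mem_TC] at hf ⊢
    refine ⟨by rw [map_mul, hf.1, mul_zero], ?_⟩
    rw [map_mul]
    exact Ideal.mul_mem_left _ _ hf.2
  · intro φ hφ f hf
    rw [mem_TC] at hf ⊢
    constructor
    · have h : aug.comp φ = aug := by
        apply FreeAlgebra.hom_ext
        funext i
        have := hφ i
        simpa [aug] using this
      have h2 : aug (φ f) = aug f := congrArg (fun g => g f) h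
      rw [h2, hf.1]
    · set ψ : MvPolynomial ℕ (ZMod p) →ₐ[ZMod p] MvPolynomial ℕ (ZMod p) :=
        aeval (fun i => comp p (φ (AD.X i))) with hψ
      have h : (comp p).comp φ = (ψ.toRingHom.toIntAlgHom).comp (comp p) := by
        apply FreeAlgebra.hom_ext
        funext i
        change comp p (φ (FreeAlgebra.ι ℤ i)) = ψ (comp p (FreeAlgebra.ι ℤ i))
        have e1 : comp p (FreeAlgebra.ι ℤ i) = MvPolynomial.X i := by simp [comp]
        rw [e1, hψ, aeval_X]
      have h2 : comp p (φ f) = ψ (comp p f) := congrArg (fun g => g f) h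
      rw [h2]
      have h3 : Ideal.map ψ.toRingHom (mm (ZMod p)) ≤ mm (ZMod p) := by
        rw [mm, Ideal.map_span, Ideal.span_le]
        rintro _ ⟨_, ⟨i, rfl⟩, rfl⟩
        change ψ (MvPolynomial.X i) ∈ mm (ZMod p)
        rw [mem_mm_iff, hψ, aeval_X, constantCoeff_comp, hφ i]
        simp
      have h4 : Ideal.map ψ.toRingHom ((mm (ZMod p)) ^ (p ^ 2 + p + 2)) ≤
          (mm (ZMod p)) ^ (p ^ 2 + p + 2) := by
        rw [Ideal.map_pow]
        exact Ideal.pow_right_mono h3 _
      exact h4 (Ideal.mem_map_of_mem ψ.toRingHom hf.2)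

private theorem pow_eq_expand (p : ℕ) [Fact p.Prime] (k : ℕ) (w : MvPolynomial ℕ (ZMod p)) :
    w ^ (p ^ k) = expand (p ^ k) w := by
  induction k with
  | zero => simp
  | succ k ih =>
    rw [pow_succ, pow_mul, ih, ← expand_zmod, mul_comm, expand_mul]

/-- the coefficients of the power `w ^ (p ^ k)` -/
private theorem coeff_pow (p : ℕ) [Fact p.Prime] (k : ℕ) (w : MvPolynomial ℕ (ZMod p))
    (hw : w ∈ mm (ZMod p)) (m : ℕ →₀ ℕ) (hm : coeff m (w ^ (p ^ k)) ≠ 0) :
    ∃ m' : ℕ →₀ ℕ, m = (p ^ k) • m' ∧ 1 ≤ Finsupp.degree m' := by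
  have hp : p ^ k ≠ 0 := pow_ne_zero _ (Fact.out : p.Prime).ne_zero
  rw [pow_eq_expand] at hm
  have hd : ∀ i, p ^ k ∣ m i := by
    intro i
    by_contra h
    exact hm (coeff_expand_of_not_dvd _ h)
  choose c hc using hd
  have hmm : m = (p ^ k) • Finsupp.ofSupportFinite c (by
      apply m.support.finite_toSet.subset
      intro i hi
      simp only [Finset.mem_coe, Finsupp.mem_support_iff]
      rw [hc i]
      exact mul_ne_zero hp hi) := by
    ext i
    rw [Finsupp.smul_apply, smul_eq_mul, hc i]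
    rfl
  refine ⟨_, hmm, ?_⟩
  rw [Nat.one_le_iff_ne_zero]
  intro h0
  rw [Finsupp.degree_eq_zero_iff] at h0
  rw [hmm, h0, smul_zero] at hm
  have : coeff 0 (expand (p ^ k) w) = coeff 0 w := coeff_expand_zero _ hp w
  rw [this] at hm
  exact hm ((mem_mm_iff p w).1 hw)

private theorem coeff_pow_smul (p : ℕ) [Fact p.Prime] (k : ℕ) (w : MvPolynomial ℕ (ZMod p))
    (m : ℕ →₀ ℕ) : coeff ((p ^ k) • m) (w ^ (p ^ k)) = coeff m w := by
  have hp : p ^ k ≠ 0 := pow_ne_zero _ (Fact.out : p.Prime).ne_zero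
  rw [pow_eq_expand]
  exact coeff_expand_smul _ hp w m

private theorem eq_single_of_degree {m : ℕ →₀ ℕ} (h : Finsupp.degree m = 1) :
    ∃ d, m = Finsupp.single d 1 := by
  have hne : m ≠ 0 := by
    rintro rfl
    simp at h
  obtain ⟨d, hd⟩ := Finsupp.support_nonempty_iff.2 hne
  refine ⟨d, ?_⟩
  have hd1 : 1 ≤ m d := Nat.one_le_iff_ne_zero.2 (Finsupp.mem_support_iff.1 hd)
  have hle : Finsupp.single d 1 ≤ m := by
    rw [Finsupp.single_le_iff]
    exact hd1
  obtain ⟨r, hr⟩ := le_iff_exists_add.1 hle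
  have h2 : Finsupp.degree r = 0 := by
    have := congrArg Finsupp.degree hr
    rw [map_add, Finsupp.degree_single, h] at this
    omega
  rw [Finsupp.degree_eq_zero_iff] at h2
  rw [hr, h2, add_zero]

/-- a factor `w ^ (p ^ k)` contributes to a monomial `x + c ^ (p ^ k)` of degree `< 2 p ^ k`
only through the linear coefficient of the variable `c` -/
private theorem coeff_slot (p : ℕ) [Fact p.Prime] (k : ℕ) (w v : MvPolynomial ℕ (ZMod p))
    (hw : w ∈ mm (ZMod p)) (x : ℕ →₀ ℕ) (c : ℕ) (hx : Finsupp.degree x < p ^ k)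
    (hxe : ∀ d, d ≠ c → x d < p ^ k) :
    coeff (x + Finsupp.single c (p ^ k)) (v * w ^ (p ^ k)) =
      coeff x v * coeff (Finsupp.single c 1) w := by
  classical
  rw [coeff_mul, Finset.sum_eq_single (x, Finsupp.single c (p ^ k))]
  · have := coeff_pow_smul p k w (Finsupp.single c 1)
    rw [Finsupp.smul_single, smul_eq_mul, mul_one] at this
    rw [this]
  · rintro ⟨u, y⟩ huy hne
    rw [Finset.HasAntidiagonal.mem_antidiagonal] at huy
    simp only at huy ⊢
    by_contra h
    have hy := right_ne_zero_of_mul h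
    obtain ⟨m', hm', hdeg⟩ := coeff_pow p k w hw y hy
    have hdy : Finsupp.degree y = p ^ k * Finsupp.degree m' := by
      rw [hm']
      simp
    have hsum : Finsupp.degree u + Finsupp.degree y = Finsupp.degree x + p ^ k := by
      rw [← map_add, huy, map_add, Finsupp.degree_single]
    have h1 : Finsupp.degree m' = 1 := by
      by_contra hc
      have h2 : 2 ≤ Finsupp.degree m' := by omega
      have : p ^ k * 2 ≤ p ^ k * Finsupp.degree m' := Nat.mul_le_mul_left _ h2
      omega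
    obtain ⟨d, rfl⟩ := eq_single_of_degree h1
    have hy2 : y = Finsupp.single d (p ^ k) := by
      rw [hm', Finsupp.smul_single, smul_eq_mul, mul_one]
    have hdc : d = c := by
      by_contra hdc
      have h3 := congrArg (fun z : ℕ →₀ ℕ => z d) huy
      simp only [Finsupp.add_apply, hy2, Finsupp.single_eq_same] at h3
      rw [Finsupp.single_apply, if_neg (fun h => hdc h.symm)] at h3
      have := hxe d hdc
      omega
    subst hdc
    apply hne
    have hu : u = x := by
      rw [hy2] at huy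
      exact add_right_cancel huy
    rw [hu, hy2]
  · intro h
    exfalso
    apply h
    rw [Finset.HasAntidiagonal.mem_antidiagonal]

private theorem coeff_three (p : ℕ) [Fact p.Prime] (w₀ w₁ w₂ : MvPolynomial ℕ (ZMod p))
    (h₁ : w₁ ∈ mm (ZMod p)) (h₂ : w₂ ∈ mm (ZMod p)) (a b c : ℕ) (hab : a ≠ b) :
    coeff (Finsupp.single a 1 + Finsupp.single b p + Finsupp.single c (p ^ 2))
      (w₀ * w₁ ^ p * w₂ ^ (p ^ 2)) =
      coeff (Finsupp.single a 1) w₀ * coeff (Finsupp.single b 1) w₁ *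
        coeff (Finsupp.single c 1) w₂ := by
  have hp : 2 ≤ p := (Fact.out : p.Prime).two_le
  rw [coeff_slot p 2 w₂ _ h₂ _ c]
  · congr 1
    have := coeff_slot p 1 w₁ w₀ h₁ (Finsupp.single a 1) b
    rw [pow_one] at this
    apply this
    · rw [Finsupp.degree_single]
      omega
    · intro d _
      rw [Finsupp.single_apply]
      split_ifs <;> omega
  · rw [map_add, Finsupp.degree_single, Finsupp.degree_single]
    nlinarith
  · intro d _
    rw [Finsupp.add_apply, Finsupp.single_apply, Finsupp.single_apply]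
    split_ifs with h1 h2 h2
    · exact absurd (h1.trans h2.symm) hab
    · nlinarith
    · nlinarith
    · nlinarith

/-- AD-10 (b): the coefficients of `x_{σ0} x_{σ1}^p x_{σ2}^{p²}` in `w_0 w_1^p w_2^{p²}`. -/
theorem coeff_slots (p : ℕ) [Fact p.Prime] (w : Fin 3 → MvPolynomial ℕ (ZMod p))
    (hw : ∀ k, w k ∈ mm (ZMod p)) (r : MvPolynomial ℕ (ZMod p))
    (hr : r ∈ (mm (ZMod p)) ^ (p ^ 2 + p + 2)) (σ : Equiv.Perm (Fin 3)) :
    coeff (∑ k : Fin 3, Finsupp.single ((σ k : Fin 3) : ℕ) (p ^ (k : ℕ)))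
      ((∏ k : Fin 3, w k ^ (p ^ (k : ℕ))) + r) =
    ∏ k : Fin 3, coeff (Finsupp.single ((σ k : Fin 3) : ℕ) 1) (w k) := by
  have hE : (∑ k : Fin 3, Finsupp.single ((σ k : Fin 3) : ℕ) (p ^ (k : ℕ))) =
      Finsupp.single ((σ 0 : Fin 3) : ℕ) 1 + Finsupp.single ((σ 1 : Fin 3) : ℕ) p +
        Finsupp.single ((σ 2 : Fin 3) : ℕ) (p ^ 2) := by
    rw [Fin.sum_univ_three]
    simp
  have hr0 : coeff (∑ k : Fin 3, Finsupp.single ((σ k : Fin 3) : ℕ) (p ^ (k : ℕ))) r = 0 := by
    apply (mem_pow_mm_iff p _ r).1 hr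
    rw [hE, map_add, map_add, Finsupp.degree_single, Finsupp.degree_single, Finsupp.degree_single]
    omega
  rw [coeff_add, hr0, add_zero, hE, Fin.prod_univ_three, Fin.prod_univ_three]
  have hne : ((σ 0 : Fin 3) : ℕ) ≠ ((σ 1 : Fin 3) : ℕ) := by
    intro h
    have := σ.injective (Fin.ext h)
    exact absurd this (by decide)
  have := coeff_three p (w 0) (w 1) (w 2) (hw 1) (hw 2) _ _ ((σ 2 : Fin 3) : ℕ) hne
  simpa using this

end AD
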