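import Pool.Agent.AD.ComC

namespace AD

open MvPolynomial

/-- `m_s(w) = ∏ w_{s k}^{p^k}` -/
private noncomputable def adMs (p : ℕ) (s : Equiv.Perm (Fin 3))
    (w : Fin 3 → MvPolynomial ℕ (ZMod p)) : MvPolynomial ℕ (ZMod p) :=
  ∏ k : Fin 3, w (s k) ^ (p ^ (k : ℕ))

private noncomputable def adQ (p : ℕ) (τ : Equiv.Perm (Fin 3)) :
    Submodule (ZMod p) (MvPolynomial ℕ (ZMod p)) :=
  Submodule.span (ZMod p) {g | ∃ w : Fin 3 → MvPolynomial ℕ (ZMod p),
    (∀ k, w k ∈ mm (ZMod p)) ∧ g = adMs p 1 w + adMs p τ w} ⊔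
  ((mm (ZMod p)) ^ (p ^ 2 + p + 2)).restrictScalars (ZMod p)

private noncomputable def adN (p : ℕ) (τ : Equiv.Perm (Fin 3)) : Submodule ℤ P :=
  Pp ⊓ ((adQ p τ).restrictScalars ℤ).comap (comp p).toLinearMap

private theorem ad_mem_N {p : ℕ} {τ : Equiv.Perm (Fin 3)} {f : P} :
    f ∈ adN p τ ↔ f ∈ Pp ∧ comp p f ∈ adQ p τ := Iff.rfl

private theorem ad_mem_TC {p : ℕ} {f : P} :
    f ∈ TC p ↔ f ∈ Pp ∧ comp p f ∈ (mm (ZMod p)) ^ (p ^ 2 + p + 2) := Iff.rfl

private theorem ad_mem_mm {p : ℕ} {g : MvPolynomial ℕ (ZMod p)} :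
    g ∈ mm (ZMod p) ↔ constantCoeff g = 0 := by
  unfold mm
  rw [← Set.image_univ, mem_ideal_span_X_image]
  constructor
  · intro h
    by_contra hne
    have h0 : (0 : ℕ →₀ ℕ) ∈ g.support := by
      rw [mem_support_iff]; exact hne
    obtain ⟨i, _, hi⟩ := h 0 h0
    exact hi rfl
  · intro h m hm
    by_contra hcon
    push Not at hcon
    have : m = 0 := by
      ext i; exact hcon i (Set.mem_univ i)
    subst this
    rw [mem_support_iff] at hm
    exact hm h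

private theorem ad_cc_comp (p : ℕ) (g : P) : constantCoeff (comp p g) = ((aug g : ℤ) : ZMod p) := by
  have h : (((constantCoeff : MvPolynomial ℕ (ZMod p) →+* ZMod p).toIntAlgHom).comp (comp p))
      = ((Int.castRingHom (ZMod p)).toIntAlgHom).comp aug := by
    apply FreeAlgebra.hom_ext
    funext i
    change constantCoeff (comp p (FreeAlgebra.ι ℤ i)) = ((aug (FreeAlgebra.ι ℤ i) : ℤ) : ZMod p)
    simp [comp, aug]
  exact DFunLike.congr_fun h g

private theorem ad_ms_mem (p : ℕ) (s : Equiv.Perm (Fin 3)) (w : Fin 3 → MvPolynomial ℕ (ZMod p))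
    (hw : ∀ k, w k ∈ mm (ZMod p)) : adMs p s w ∈ (mm (ZMod p)) ^ (p ^ 2 + p + 1) := by
  unfold adMs
  rw [Fin.prod_univ_three]
  have h0 := Ideal.pow_mem_pow (hw (s 0)) (p ^ ((0 : Fin 3) : ℕ))
  have h1 := Ideal.pow_mem_pow (hw (s 1)) (p ^ ((1 : Fin 3) : ℕ))
  have h2 := Ideal.pow_mem_pow (hw (s 2)) (p ^ ((2 : Fin 3) : ℕ))
  have h3 := Ideal.mul_mem_mul (Ideal.mul_mem_mul h0 h1) h2
  rw [← pow_add, ← pow_add] at h3
  have e : p ^ ((0 : Fin 3) : ℕ) + p ^ ((1 : Fin 3) : ℕ) + p ^ ((2 : Fin 3) : ℕ) = p ^ 2 + p + 1 := by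
    simp; ring
  rwa [e] at h3

private theorem ad_Q_mul (p : ℕ) (τ : Equiv.Perm (Fin 3)) (g x : MvPolynomial ℕ (ZMod p))
    (hx : x ∈ adQ p τ) : g * x ∈ adQ p τ := by
  obtain ⟨a, ha, b, hb, rfl⟩ := Submodule.mem_sup.1 hx
  rw [mul_add]
  apply Submodule.add_mem
  · induction ha using Submodule.span_induction with
    | mem y hy =>
      obtain ⟨w, hw, rfl⟩ := hy
      have hg : g - C (constantCoeff g) ∈ mm (ZMod p) := by
        rw [ad_mem_mm]; simp
      have e : g * (adMs p 1 w + adMs p τ w)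
          = constantCoeff g • (adMs p 1 w + adMs p τ w)
            + (g - C (constantCoeff g)) * (adMs p 1 w + adMs p τ w) := by
        rw [smul_eq_C_mul]; ring
      rw [e]
      apply Submodule.add_mem
      · apply Submodule.smul_mem
        exact Submodule.mem_sup_left (Submodule.subset_span ⟨w, hw, rfl⟩)
      · apply Submodule.mem_sup_right
        have h1 : adMs p 1 w + adMs p τ w ∈ (mm (ZMod p)) ^ (p ^ 2 + p + 1) :=
          Ideal.add_mem _ (ad_ms_mem p 1 w hw) (ad_ms_mem p τ w hw)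
        have h2 := Ideal.mul_mem_mul hg h1
        rw [← pow_succ'] at h2
        exact h2
    | zero => simp
    | add y z _ _ hy hz =>
      rw [mul_add]
      exact Submodule.add_mem _ (hy (by
        apply Submodule.mem_sup.2; exact ⟨y, by assumption, b, hb, rfl⟩))
        (hz (by apply Submodule.mem_sup.2; exact ⟨z, by assumption, b, hb, rfl⟩))
    | smul c y _ hy =>
      rw [mul_smul_comm]
      exact Submodule.smul_mem _ _ (hy (by
        apply Submodule.mem_sup.2; exact ⟨y, by assumption, b, hb, rfl⟩))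
  · apply Submodule.mem_sup_right
    exact Ideal.mul_mem_left _ g hb

private theorem ad_comp_subst (p : ℕ) (φ : P →ₐ[ℤ] P) (f : P) :
    comp p (φ f) = aeval (fun i => comp p (φ (X i))) (comp p f) := by
  have h : (comp p).comp φ = ((aeval (fun i => comp p (φ (X i))) :
      MvPolynomial ℕ (ZMod p) →ₐ[ZMod p] MvPolynomial ℕ (ZMod p)).restrictScalars ℤ).comp (comp p) := by
    apply FreeAlgebra.hom_ext
    funext i
    simp [comp]
  exact congrArg (fun F => F f) h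

private theorem ad_psi_mm (p : ℕ) (v : ℕ → MvPolynomial ℕ (ZMod p)) (hv : ∀ i, v i ∈ mm (ZMod p)) :
    mm (ZMod p) ≤ (mm (ZMod p)).comap (aeval v : MvPolynomial ℕ (ZMod p) →ₐ[ZMod p] MvPolynomial ℕ (ZMod p)).toRingHom := by
  conv_lhs => unfold mm
  rw [Ideal.span_le]
  rintro _ ⟨i, rfl⟩
  simp [hv i]

private theorem ad_psi_pow (p : ℕ) (v : ℕ → MvPolynomial ℕ (ZMod p)) (hv : ∀ i, v i ∈ mm (ZMod p))
    (n : ℕ) {x : MvPolynomial ℕ (ZMod p)} (hx : x ∈ (mm (ZMod p)) ^ n) :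
    (aeval v : MvPolynomial ℕ (ZMod p) →ₐ[ZMod p] MvPolynomial ℕ (ZMod p)) x ∈ (mm (ZMod p)) ^ n := by
  have h1 : Ideal.map (aeval v : MvPolynomial ℕ (ZMod p) →ₐ[ZMod p] MvPolynomial ℕ (ZMod p)).toRingHom
      (mm (ZMod p)) ≤ mm (ZMod p) := Ideal.map_le_iff_le_comap.2 (ad_psi_mm p v hv)
  have h2 := Ideal.pow_right_mono h1 n
  rw [← Ideal.map_pow] at h2
  exact h2 (Ideal.mem_map_of_mem _ hx)

private theorem ad_psi_Q (p : ℕ) (τ : Equiv.Perm (Fin 3)) (v : ℕ → MvPolynomial ℕ (ZMod p))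
    (hv : ∀ i, v i ∈ mm (ZMod p)) {x : MvPolynomial ℕ (ZMod p)} (hx : x ∈ adQ p τ) :
    (aeval v : MvPolynomial ℕ (ZMod p) →ₐ[ZMod p] MvPolynomial ℕ (ZMod p)) x ∈ adQ p τ := by
  have hle : adQ p τ ≤ (adQ p τ).comap
      (aeval v : MvPolynomial ℕ (ZMod p) →ₐ[ZMod p] MvPolynomial ℕ (ZMod p)).toLinearMap := by
    conv_lhs => unfold adQ
    apply sup_le
    · rw [Submodule.span_le]
      rintro _ ⟨w, hw, rfl⟩
      refine Submodule.mem_sup_left (Submodule.subset_span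
        ⟨fun k => aeval v (w k), fun k => ad_psi_mm p v hv (hw k), ?_⟩)
      simp [adMs, map_prod]
    · intro y hy
      exact Submodule.mem_sup_right (ad_psi_pow p v hv _ hy)
  exact hle hx

private theorem ad_isT_N (p : ℕ) (τ : Equiv.Perm (Fin 3)) : IsT (adN p τ) := by
  refine ⟨inf_le_left, ?_, ?_, ?_⟩
  · intro f hf g
    rw [ad_mem_N] at hf ⊢
    refine ⟨?_, ?_⟩
    · have : aug f = 0 := hf.1
      change aug (f * g) = 0
      rw [map_mul, this, zero_mul]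
    · rw [map_mul, mul_comm]
      exact ad_Q_mul p τ _ _ hf.2
  · intro f hf g
    rw [ad_mem_N] at hf ⊢
    refine ⟨?_, ?_⟩
    · have : aug f = 0 := hf.1
      change aug (g * f) = 0
      rw [map_mul, this, mul_zero]
    · rw [map_mul]
      exact ad_Q_mul p τ _ _ hf.2
  · intro φ hφ f hf
    rw [ad_mem_N] at hf ⊢
    refine ⟨?_, ?_⟩
    · have h : aug.comp φ = aug := by
        apply FreeAlgebra.hom_ext
        funext i
        have := hφ i
        simp only [Function.comp_apply, AlgHom.comp_apply]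
        rw [this]
        simp [aug]
      have h0 : aug f = 0 := hf.1
      have h5 : aug (φ f) = aug f := DFunLike.congr_fun h f
      change aug (φ f) = 0
      rw [h5, h0]
    · rw [ad_comp_subst]
      apply ad_psi_Q p τ _ _ hf.2
      intro i
      rw [ad_mem_mm, ad_cc_comp, hφ i]
      simp

private theorem ad_TC_le (p : ℕ) (τ : Equiv.Perm (Fin 3)) : TC p ≤ adN p τ := by
  intro f hf
  rw [ad_mem_TC] at hf
  rw [ad_mem_N]
  exact ⟨hf.1, Submodule.mem_sup_right hf.2⟩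

/-- the exponent `e(σ)` -/
private noncomputable def adE (p : ℕ) (σ : Equiv.Perm (Fin 3)) : ℕ →₀ ℕ :=
  ∑ k : Fin 3, Finsupp.single ((σ k : Fin 3) : ℕ) (p ^ (k : ℕ))

private theorem ad_coeff_ms (p : ℕ) [Fact p.Prime] (s : Equiv.Perm (Fin 3))
    (w : Fin 3 → MvPolynomial ℕ (ZMod p)) (hw : ∀ k, w k ∈ mm (ZMod p)) (σ : Equiv.Perm (Fin 3)) :
    coeff (adE p σ) (adMs p s w) = ∏ k : Fin 3, coeff (Finsupp.single (((σ * s⁻¹) k : Fin 3) : ℕ) 1) (w k) := by
  have h := coeff_slots p (fun k => w (s k)) (fun k => hw (s k)) 0 (Ideal.zero_mem _) σ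
  rw [add_zero] at h
  unfold adE adMs
  rw [h]
  rw [← Equiv.prod_comp s (fun k => coeff (Finsupp.single (((σ * s⁻¹) k : Fin 3) : ℕ) 1) (w k))]
  simp

private theorem ad_coeff_r (p : ℕ) [Fact p.Prime] (r : MvPolynomial ℕ (ZMod p))
    (hr : r ∈ (mm (ZMod p)) ^ (p ^ 2 + p + 2)) (σ : Equiv.Perm (Fin 3)) :
    coeff (adE p σ) r = 0 := by
  have h := coeff_slots p (fun _ => 0) (fun _ => Ideal.zero_mem _) r hr σ
  have e1 : (∏ k : Fin 3, (0 : MvPolynomial ℕ (ZMod p)) ^ (p ^ (k : ℕ))) = 0 := by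
    rw [Fin.prod_univ_three]; simp
  rw [e1, zero_add] at h
  unfold adE
  rw [h]
  simp

private theorem ad_coeff_Q (p : ℕ) [Fact p.Prime] (τ : Equiv.Perm (Fin 3)) (hτ : τ⁻¹ = τ)
    {x : MvPolynomial ℕ (ZMod p)} (hx : x ∈ adQ p τ) (σ : Equiv.Perm (Fin 3)) :
    coeff (adE p σ) x = coeff (adE p (σ * τ)) x := by
  have hle : adQ p τ ≤ LinearMap.ker (lcoeff (ZMod p) (adE p σ) - lcoeff (ZMod p) (adE p (σ * τ))) := by
    unfold adQ
    apply sup_le
    · rw [Submodule.span_le]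
      rintro _ ⟨w, hw, rfl⟩
      rw [SetLike.mem_coe, LinearMap.mem_ker, LinearMap.sub_apply, sub_eq_zero]
      simp only [lcoeff_apply, coeff_add]
      rw [ad_coeff_ms p 1 w hw, ad_coeff_ms p τ w hw, ad_coeff_ms p 1 w hw, ad_coeff_ms p τ w hw]
      have e1 : σ * τ * τ⁻¹ = σ := by group
      rw [e1, hτ]
      simp only [inv_one, mul_one]
      rw [add_comm]
    · intro y hy
      rw [LinearMap.mem_ker, LinearMap.sub_apply, sub_eq_zero]
      simp only [lcoeff_apply]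
      rw [ad_coeff_r p y hy, ad_coeff_r p y hy]
  have := hle hx
  rw [LinearMap.mem_ker, LinearMap.sub_apply, sub_eq_zero] at this
  simpa [lcoeff_apply] using this

/-- the element `e(s)` -/
private noncomputable def adEl (p : ℕ) (s : Equiv.Perm (Fin 3)) : P :=
  (List.ofFn (fun k : Fin 3 => (X ((s k : Fin 3) : ℕ)) ^ (p ^ (k : ℕ)))).prod

private noncomputable def adX (p : ℕ) (s : Equiv.Perm (Fin 3)) : Fin 3 → MvPolynomial ℕ (ZMod p) :=
  fun k => MvPolynomial.X ((s k : Fin 3) : ℕ)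

private theorem ad_X_mem (p : ℕ) (s : Equiv.Perm (Fin 3)) (k : Fin 3) : adX p s k ∈ mm (ZMod p) :=
  Ideal.subset_span ⟨_, rfl⟩

private theorem ad_comp_El (p : ℕ) (s t : Equiv.Perm (Fin 3)) :
    comp p (adEl p (s * t)) = adMs p t (adX p s) := by
  unfold adEl adMs adX
  simp [comp, Fin.prod_univ_three, List.ofFn_succ, mul_assoc]

private theorem ad_El_mem (p : ℕ) (s : Equiv.Perm (Fin 3)) : adEl p s ∈ Pp := by
  change aug (adEl p s) = 0
  unfold adEl
  simp [aug, List.ofFn_succ]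

private theorem ad_pair_mem (p : ℕ) (s τ : Equiv.Perm (Fin 3)) :
    adEl p s + adEl p (s * τ) ∈ adN p τ := by
  rw [ad_mem_N]
  refine ⟨Submodule.add_mem _ (ad_El_mem p s) (ad_El_mem p _), ?_⟩
  apply Submodule.mem_sup_left
  apply Submodule.subset_span
  refine ⟨adX p s, ad_X_mem p s, ?_⟩
  rw [map_add]
  have h1 := ad_comp_El p s 1
  rw [mul_one] at h1
  rw [h1, ad_comp_El]

/-- AD-11: the commutative `𝔽_p`-algebras with `x_1 ⋯ x_{p²+p+2} = 0` form a variety which is not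
distributive. -/
theorem not_dist_TC (p : ℕ) [Fact p.Prime] : ¬ DistOn TI (TC p) := by
  intro hD
  let τ₁ : Equiv.Perm (Fin 3) := Equiv.swap 0 1
  let τ₂ : Equiv.Perm (Fin 3) := Equiv.swap 1 2
  let τ₃ : Equiv.Perm (Fin 3) := Equiv.swap 0 2
  have i1 : τ₁⁻¹ = τ₁ := Equiv.swap_inv _ _
  have i2 : τ₂⁻¹ = τ₂ := Equiv.swap_inv _ _
  have i3 : τ₃⁻¹ = τ₃ := Equiv.swap_inv _ _
  have e3 : τ₁ * τ₂ * τ₁ = τ₃ := by decide
  have e4 : τ₂ * τ₃ * τ₂ = τ₁ := by decide
  have hmain := hD (adN p τ₃) (ad_isT_N p τ₃) (adN p τ₁) (ad_isT_N p τ₁) (adN p τ₂) (ad_isT_N p τ₂)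
    (ad_TC_le p _) (ad_TC_le p _) (ad_TC_le p _)
  have hg : adEl p 1 + adEl p τ₃ ∈ adN p τ₃ ⊓ (adN p τ₁ ⊔ adN p τ₂) := by
    refine Submodule.mem_inf.2 ⟨?_, ?_⟩
    · have := ad_pair_mem p 1 τ₃
      rwa [one_mul] at this
    · have a1 := ad_pair_mem p 1 τ₁
      have a2 := ad_pair_mem p τ₁ τ₂
      have a3 := ad_pair_mem p (τ₁ * τ₂) τ₁
      rw [one_mul] at a1
      rw [e3] at a3
      have e : adEl p 1 + adEl p τ₃ = (adEl p 1 + adEl p τ₁) - (adEl p τ₁ + adEl p (τ₁ * τ₂))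
          + (adEl p (τ₁ * τ₂) + adEl p τ₃) := by abel
      rw [e]
      exact Submodule.add_mem _ (Submodule.sub_mem _ (Submodule.mem_sup_left a1)
        (Submodule.mem_sup_right a2)) (Submodule.mem_sup_left a3)
  rw [hmain] at hg
  obtain ⟨u, hu, v, hv, huv⟩ := Submodule.mem_sup.1 hg
  have hu' : coeff (adE p 1) (comp p u) = coeff (adE p τ₁) (comp p u) := by
    have := ad_coeff_Q p τ₁ i1 (ad_mem_N.1 (Submodule.mem_inf.1 hu).2).2 1
    rwa [one_mul] at this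
  have hv' : coeff (adE p 1) (comp p v) = coeff (adE p τ₁) (comp p v) := by
    have q2 := (ad_mem_N.1 (Submodule.mem_inf.1 hv).2).2
    have q3 := (ad_mem_N.1 (Submodule.mem_inf.1 hv).1).2
    have b1 := ad_coeff_Q p τ₂ i2 q2 1
    have b2 := ad_coeff_Q p τ₃ i3 q3 τ₂
    have b3 := ad_coeff_Q p τ₂ i2 q2 (τ₂ * τ₃)
    rw [one_mul] at b1
    rw [e4] at b3
    rw [b1, b2, b3]
  have hsum : coeff (adE p 1) (comp p (adEl p 1 + adEl p τ₃))
      = coeff (adE p τ₁) (comp p (adEl p 1 + adEl p τ₃)) := by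
    rw [← huv, map_add, coeff_add, coeff_add, hu', hv']
  have hc : ∀ σ : Equiv.Perm (Fin 3), coeff (adE p σ) (comp p (adEl p 1 + adEl p τ₃))
      = (∏ k : Fin 3, coeff (Finsupp.single ((σ k : Fin 3) : ℕ) 1) (adX p 1 k))
        + ∏ k : Fin 3, coeff (Finsupp.single (((σ * τ₃) k : Fin 3) : ℕ) 1) (adX p 1 k) := by
    intro σ
    have h1 := ad_comp_El p 1 1
    have h3 := ad_comp_El p 1 τ₃
    rw [one_mul] at h1 h3
    rw [map_add, coeff_add, h1, h3, ad_coeff_ms p 1 _ (ad_X_mem p 1), ad_coeff_ms p τ₃ _ (ad_X_mem p 1), i3]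
    simp
  rw [hc, hc] at hsum
  have hk : ∀ (i : Fin 3) (k : Fin 3), coeff (Finsupp.single ((i : Fin 3) : ℕ) 1) (adX p 1 k)
      = if i = k then (1 : ZMod p) else 0 := by
    intro i k
    unfold adX
    rw [coeff_X]
    simp only [Equiv.Perm.one_apply]
    by_cases h : i = k
    · subst h; simp
    · have h2 : ¬ (Finsupp.single ((k : Fin 3) : ℕ) 1 = Finsupp.single ((i : Fin 3) : ℕ) 1) := by
        intro hh
        have := Finsupp.single_left_injective (by norm_num) hh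
        exact h (Fin.ext this.symm)
      simp [h, h2]
  simp only [hk] at hsum
  simp [Fin.prod_univ_three, τ₁, τ₃, Equiv.swap_apply_def] at hsum

end AD
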