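import Mathlib

/-!
# Almost distributive varieties of rings: definitions

T-ideals of the free (nonunital) ring, realised inside the free unital ring `P = ℤ⟨x_0,x_1,...⟩`.
-/

namespace AD

/-- polynomials in the noncommuting variables `x_0, x_1, ...` with integer coefficients -/
abbrev P := FreeAlgebra ℤ ℕ

/-- the variable `x_i` -/
noncomputable abbrev X (i : ℕ) : P := FreeAlgebra.ι ℤ i

/-- the constant term -/
noncomputable def aug : P →ₐ[ℤ] ℤ := FreeAlgebra.lift ℤ (fun _ => 0)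

/-- the polynomials without constant term (the free nonunital ring) -/
noncomputable def Pp : Submodule ℤ P := LinearMap.ker aug.toLinearMap

/-- substitutions: the endomorphisms sending each variable to a polynomial without constant term -/
def IsSubst (φ : P →ₐ[ℤ] P) : Prop := ∀ i, aug (φ (X i)) = 0

/-- T-ideals -/
structure IsT (I : Submodule ℤ P) : Prop where
  le : I ≤ Pp
  mul_right : ∀ f ∈ I, ∀ g : P, f * g ∈ I
  mul_left : ∀ f ∈ I, ∀ g : P, g * f ∈ I
  subst : ∀ φ : P →ₐ[ℤ] P, IsSubst φ → ∀ f ∈ I, φ f ∈ I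

/-- the set of T-ideals -/
def TI : Set (Submodule ℤ P) := {I | IsT I}

/-- the elements of `S` above `d` satisfy the distributive law -/
def DistOn {L : Type*} [Lattice L] (S : Set L) (d : L) : Prop :=
  ∀ x ∈ S, ∀ y ∈ S, ∀ z ∈ S, d ≤ x → d ≤ y → d ≤ z → x ⊓ (y ⊔ z) = (x ⊓ y) ⊔ (x ⊓ z)

/-- `I` is the T-ideal of an almost distributive variety -/
def AlmDist (I : Submodule ℤ P) : Prop :=
  IsT I ∧ ¬ DistOn TI I ∧ ∀ D, IsT D → I < D → DistOn TI D

/-- a diamond above `o` -/
structure Dia {L : Type*} [Lattice L] (S : Set L) (o a b c j : L) : Prop where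
  ho : o ∈ S
  ha : a ∈ S
  hb : b ∈ S
  hc : c ∈ S
  hj : j ∈ S
  oa : o < a
  ob : o < b
  oc : o < c
  ab : a ⊓ b = o
  bc : b ⊓ c = o
  ac : a ⊓ c = o
  jab : a ⊔ b = j
  jbc : b ⊔ c = j
  jac : a ⊔ c = j

/-- the set `k A` -/
noncomputable def mulI (k : ℤ) (A : Submodule ℤ P) : Submodule ℤ P := A.map (LinearMap.lsmul ℤ P k)

/-- the torsion closure -/
def IsTor (I J : Submodule ℤ P) : Prop := ∀ f, f ∈ J ↔ ∃ m : ℕ, 1 ≤ m ∧ (m : ℤ) • f ∈ I

/-- the monomial of a word -/
noncomputable def mon (w : List ℕ) : P := (w.map X).prod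

/-- the polynomials without constant term in the variables `x_0, ..., x_{n-1}` -/
noncomputable def Pn (n : ℕ) : Submodule ℤ P :=
  Submodule.span ℤ {f | ∃ w : List ℕ, w ≠ [] ∧ (∀ a ∈ w, a < n) ∧ f = mon w}

/-- the same, words of length `< N` only -/
noncomputable def Pnl (n N : ℕ) : Submodule ℤ P :=
  Submodule.span ℤ {f | ∃ w : List ℕ, w ≠ [] ∧ (∀ a ∈ w, a < n) ∧ w.length < N ∧ f = mon w}

/-- the value of a word in base `B` with digits `a + 1` -/
def val (B : ℕ) (w : List ℕ) : ℕ := w.foldl (fun s a => B * s + (a + 1)) 0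

/-- `w` contains a `k`-th power of a nonempty word -/
def HasPow (k : ℕ) (w : List ℕ) : Prop :=
  ∃ w₁ u w₂ : List ℕ, u ≠ [] ∧ w = w₁ ++ (List.replicate k u).flatten ++ w₂

/-- `w` contains a product `u_1 ⋯ u_d` of words with prefixes of length `l` of decreasing value -/
def HasDiv (n d : ℕ) (w : List ℕ) : Prop :=
  ∃ (w₁ w₂ : List ℕ) (us : Fin d → List ℕ) (l : ℕ), w = w₁ ++ (List.ofFn us).flatten ++ w₂ ∧
    (∀ i, l ≤ (us i).length) ∧ (∀ i j : Fin d, i < j →
      val (n + 1) ((us j).take l) < val (n + 1) ((us i).take l))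

/-- the prefix of length `m` of an infinite word -/
def pre (x : ℕ → ℕ) (m : ℕ) : List ℕ := (List.range m).map x

/-- the identities `f` of the nonunital ring `R` -/
def Sat (R : Type) [NonUnitalRing R] (f : P) : Prop :=
  ∀ a : ℕ → R, FreeAlgebra.lift ℤ (fun i => ((a i : R) : Unitization ℤ R)) f = 0

/-- commutative image over `ℤ` -/
noncomputable def com : P →ₐ[ℤ] MvPolynomial ℕ ℤ := FreeAlgebra.lift ℤ MvPolynomial.X

/-- commutative image modulo `p` -/
noncomputable def comp (p : ℕ) : P →ₐ[ℤ] MvPolynomial ℕ (ZMod p) := FreeAlgebra.lift ℤ MvPolynomial.X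

/-- the ideal of polynomials without constant term -/
noncomputable def mm (A : Type) [CommRing A] : Ideal (MvPolynomial ℕ A) := Ideal.span (Set.range MvPolynomial.X)

/-- the ideal `4𝔪 + 2𝔪² + 𝔪³` of `ℤ[x_0,x_1,...]` -/
noncomputable def KU : Ideal (MvPolynomial ℕ ℤ) :=
  Ideal.span {4} * mm ℤ ⊔ Ideal.span {2} * (mm ℤ) ^ 2 ⊔ (mm ℤ) ^ 3

/-- the T-ideal of `U_2 = var(4x, 2xy, xy-yx, xyz)` -/
noncomputable def TU : Submodule ℤ P :=
  Pp ⊓ (KU.restrictScalars ℤ).comap com.toLinearMap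

/-- the T-ideal of the commutative algebras over `𝔽_p` with `x_1 ⋯ x_{p²+p+2} = 0` -/
noncomputable def TC (p : ℕ) : Submodule ℤ P :=
  Pp ⊓ (((mm (ZMod p)) ^ (p ^ 2 + p + 2)).restrictScalars ℤ).comap (comp p).toLinearMap

end AD
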