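import Pool.Agent.AD.Defs

namespace AD

theorem words_mon_append (u w : List ℕ) : mon (u ++ w) = mon u * mon w := by
  simp [mon]

theorem words_mon_mem {n : ℕ} {w : List ℕ} (h : w ≠ []) (hw : ∀ a ∈ w, a < n) :
    mon w ∈ Pn n :=
  Submodule.subset_span ⟨w, h, hw, rfl⟩

/-- AD-4 (b). -/
theorem Pn_le_Pp (n : ℕ) : Pn n ≤ Pp := by
  unfold Pn
  rw [Submodule.span_le]
  rintro f ⟨w, hw, -, rfl⟩
  change aug.toLinearMap (mon w) = 0
  change aug (mon w) = 0
  obtain ⟨a, t, rfl⟩ := List.exists_cons_of_ne_nil hw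
  simp [mon, aug, X]

/-- AD-4 (c). -/
theorem Pn_mono {m n : ℕ} (h : m ≤ n) : Pn m ≤ Pn n := by
  apply Submodule.span_mono
  rintro f ⟨w, hw, ha, rfl⟩
  exact ⟨w, hw, fun a h' => lt_of_lt_of_le (ha a h') h, rfl⟩

/-- AD-4 (d). -/
theorem Pn_mul {n : ℕ} {f g : P} (hf : f ∈ Pn n) (hg : g ∈ Pn n) : f * g ∈ Pn n := by
  have h1 : ∀ u : List ℕ, u ≠ [] → (∀ a ∈ u, a < n) → ∀ g ∈ Pn n, mon u * g ∈ Pn n := by
    intro u hu hu' g hg
    have hg' : g ∈ Submodule.span ℤ {f | ∃ w : List ℕ, w ≠ [] ∧ (∀ a ∈ w, a < n) ∧ f = mon w} := hg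
    induction hg' using Submodule.span_induction with
    | mem x hx =>
      obtain ⟨w, hw, hw', rfl⟩ := hx
      rw [← words_mon_append]
      refine words_mon_mem (by simp [hu]) ?_
      intro a ha
      rcases List.mem_append.1 ha with h | h
      · exact hu' a h
      · exact hw' a h
    | zero => rw [mul_zero]; exact zero_mem _
    | add x y hx hy hx' hy' =>
      rw [mul_add]
      exact add_mem (hx' hx) (hy' hy)
    | smul r x hx hx' =>
      have e : mon u * (r • x) = r • (mon u * x) := mul_smul_comm r (mon u) x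
      rw [e]
      exact Submodule.smul_mem _ _ (hx' hx)
  have hf' : f ∈ Submodule.span ℤ {f | ∃ w : List ℕ, w ≠ [] ∧ (∀ a ∈ w, a < n) ∧ f = mon w} := hf
  induction hf' using Submodule.span_induction with
  | mem x hx =>
    obtain ⟨w, hw, hw', rfl⟩ := hx
    exact h1 w hw hw' g hg
  | zero => rw [zero_mul]; exact zero_mem _
  | add x y hx hy hx' hy' =>
    rw [add_mul]
    exact add_mem (hx' hx) (hy' hy)
  | smul r x hx hx' =>
    have e : (r • x) * g = r • (x * g) := smul_mul_assoc r x g
    rw [e]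
    exact Submodule.smul_mem _ _ (hx' hx)

theorem words_int_mul {n : ℕ} {x : P} (r : ℤ) (hx : x ∈ Pn n) : (r : P) * x ∈ Pn n := by
  rw [← zsmul_eq_mul]
  exact zsmul_mem hx r

theorem words_aux (f : P) : ∃ n, f - algebraMap ℤ P (aug f) ∈ Pn n := by
  induction f using FreeAlgebra.induction with
  | grade0 r =>
    refine ⟨0, ?_⟩
    have : aug (algebraMap ℤ P r) = r := by
      rw [AlgHom.commutes]
      rfl
    rw [this, sub_self]
    exact zero_mem _
  | grade1 i =>
    refine ⟨i + 1, ?_⟩
    have h : aug (FreeAlgebra.ι ℤ i) = 0 := by simp [aug]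
    rw [h, map_zero, sub_zero]
    have h2 : (FreeAlgebra.ι ℤ i : P) = mon [i] := by simp [mon, X]
    rw [h2]
    exact words_mon_mem (by simp) (by simp)
  | mul f g hf hg =>
    obtain ⟨m, hm⟩ := hf
    obtain ⟨k, hk⟩ := hg
    refine ⟨max m k, ?_⟩
    have hm' := Pn_mono (le_max_left m k) hm
    have hk' := Pn_mono (le_max_right m k) hk
    have e : f * g - algebraMap ℤ P (aug (f * g)) =
        (f - algebraMap ℤ P (aug f)) * (g - algebraMap ℤ P (aug g)) +
          ((aug f : ℤ) : P) * (g - algebraMap ℤ P (aug g)) +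
          ((aug g : ℤ) : P) * (f - algebraMap ℤ P (aug f)) := by
      simp only [eq_intCast]
      rw [map_mul]
      push_cast
      have hc : ((aug g : ℤ) : P) * f = f * ((aug g : ℤ) : P) := Int.cast_commute _ _
      have hc2 : ((aug g : ℤ) : P) * ((aug f : ℤ) : P) = ((aug f : ℤ) : P) * ((aug g : ℤ) : P) :=
        Int.cast_commute _ _
      simp only [sub_mul, mul_sub]
      rw [hc, hc2]
      abel
    rw [e]
    exact add_mem (add_mem (Pn_mul hm' hk') (words_int_mul _ hk')) (words_int_mul _ hm')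
  | add f g hf hg =>
    obtain ⟨m, hm⟩ := hf
    obtain ⟨k, hk⟩ := hg
    refine ⟨max m k, ?_⟩
    have hm' := Pn_mono (le_max_left m k) hm
    have hk' := Pn_mono (le_max_right m k) hk
    have e : f + g - algebraMap ℤ P (aug (f + g)) =
        (f - algebraMap ℤ P (aug f)) + (g - algebraMap ℤ P (aug g)) := by
      rw [map_add, map_add]
      abel
    rw [e]
    exact add_mem hm' hk'

/-- AD-4 (a): every polynomial without constant term lies in some `Pn n`. -/
theorem exists_mem_Pn {f : P} (hf : f ∈ Pp) : ∃ n, f ∈ Pn n := by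
  obtain ⟨n, hn⟩ := words_aux f
  have h : aug f = 0 := hf
  rw [h, map_zero, sub_zero] at hn
  exact ⟨n, hn⟩

/-- AD-4 (e): the substitution killing the variables `x_i`, `i ≥ n`. -/
theorem exists_retract (n : ℕ) : ∃ ψ : P →ₐ[ℤ] P, IsSubst ψ ∧ (∀ i, i < n → ψ (X i) = X i) ∧
    (∀ i, n ≤ i → ψ (X i) = 0) ∧ (∀ f ∈ Pn n, ψ f = f) ∧ (∀ f ∈ Pp, ψ f ∈ Pn n) := by
  let ψ : P →ₐ[ℤ] P := FreeAlgebra.lift ℤ (fun i => if i < n then X i else 0)
  have hX : ∀ i, ψ (X i) = if i < n then X i else 0 := fun i =>
    FreeAlgebra.lift_ι_apply (R := ℤ) (fun i => if i < n then X i else 0) i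
  have hmon : ∀ w : List ℕ, ψ (mon w) = if ∀ a ∈ w, a < n then mon w else 0 := by
    intro w
    induction w with
    | nil => simp [mon]
    | cons b t ih =>
      have h1 : mon (b :: t) = X b * mon t := by simp [mon]
      rw [h1, map_mul, ih, hX]
      by_cases hb : b < n
      · by_cases ht : ∀ a ∈ t, a < n
        · rw [if_pos hb, if_pos ht, if_pos]
          intro a ha
          rcases List.mem_cons.1 ha with h | h
          · rw [h]; exact hb
          · exact ht a h
        · rw [if_pos hb, if_neg ht, if_neg, mul_zero]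
          intro h
          exact ht fun a ha => h a (List.mem_cons_of_mem _ ha)
      · rw [if_neg hb, zero_mul, if_neg]
        intro h
        exact hb (h b List.mem_cons_self)
  refine ⟨ψ, ?_, ?_, ?_, ?_, ?_⟩
  · intro i
    rw [hX]
    split_ifs with h
    · simp [aug, X]
    · simp
  · intro i hi
    rw [hX, if_pos hi]
  · intro i hi
    rw [hX, if_neg (not_lt.2 hi)]
  · intro f hf
    have h : Pn n ≤ LinearMap.eqLocus ψ.toLinearMap LinearMap.id := by
      unfold Pn
      rw [Submodule.span_le]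
      rintro g ⟨w, -, hw, rfl⟩
      change ψ (mon w) = mon w
      rw [hmon, if_pos hw]
    exact h hf
  · intro f hf
    obtain ⟨m, hm⟩ := exists_mem_Pn hf
    have h : Pn m ≤ (Pn n).comap ψ.toLinearMap := by
      rw [Pn, Submodule.span_le]
      rintro g ⟨w, hw, -, rfl⟩
      change ψ (mon w) ∈ Pn n
      rw [hmon]
      split_ifs with h
      · exact words_mon_mem hw h
      · exact zero_mem _
    exact h hm

theorem words_val_concat (B : ℕ) (w : List ℕ) (a : ℕ) :
    val B (w ++ [a]) = B * val B w + (a + 1) := by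
  simp [val]

theorem words_val_upper (n : ℕ) (v : List ℕ) (hv : ∀ a ∈ v, a < n) :
    val (n + 1) v + 1 ≤ (n + 1) ^ v.length := by
  induction v using List.reverseRecOn with
  | nil => simp [val]
  | append_singleton u a ih =>
    have h1 := ih fun b hb => hv b (by simp [hb])
    have h2 : a < n := hv a (by simp)
    rw [words_val_concat, List.length_append, List.length_singleton, pow_succ]
    calc (n + 1) * val (n + 1) u + (a + 1) + 1 ≤ (n + 1) * val (n + 1) u + (n + 1) := by omega
      _ = (val (n + 1) u + 1) * (n + 1) := by ring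
      _ ≤ (n + 1) ^ u.length * (n + 1) := Nat.mul_le_mul_right _ h1

theorem words_val_lower (n : ℕ) (w : List ℕ) (hw : w ≠ []) :
    (n + 1) ^ (w.length - 1) ≤ val (n + 1) w := by
  induction w using List.reverseRecOn with
  | nil => exact absurd rfl hw
  | append_singleton u a ih =>
    rw [words_val_concat, List.length_append, List.length_singleton, Nat.add_sub_cancel]
    by_cases hu : u = []
    · subst hu
      simp only [List.length_nil, pow_zero]
      omega
    · have h1 := ih hu
      have h2 : 0 < u.length := List.length_pos_iff.2 hu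
      calc (n + 1) ^ u.length = (n + 1) ^ (u.length - 1 + 1) := by
            congr 1; omega
        _ = (n + 1) * (n + 1) ^ (u.length - 1) := by ring
        _ ≤ (n + 1) * val (n + 1) u := Nat.mul_le_mul_left _ h1
        _ ≤ _ := Nat.le_add_right _ _

/-- AD-4 (f): shorter words have a smaller value. -/
theorem val_lt_of_length {n : ℕ} {v w : List ℕ} (hv : ∀ a ∈ v, a < n) (hw : ∀ a ∈ w, a < n)
    (h : v.length < w.length) : val (n + 1) v < val (n + 1) w := by
  have _ := hw
  have hw0 : w ≠ [] := by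
    intro h0
    rw [h0] at h
    simp at h
  have h1 := words_val_upper n v hv
  have h2 := words_val_lower n w hw0
  have h3 : (n + 1) ^ v.length ≤ (n + 1) ^ (w.length - 1) :=
    Nat.pow_le_pow_right (Nat.succ_pos n) (by omega)
  omega

end AD
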