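import Pool.Agent.AD.Tlat
import Pool.Agent.AD.Words

namespace AD

/-- an element of a finitely generated abelian group that is divisible by all `k ≥ 1` is zero -/
theorem fg_div {G : Type*} [AddCommGroup G] [Module.Finite ℤ G] (x : G)
    (h : ∀ k : ℕ, 1 ≤ k → ∃ g : G, x = (k : ℤ) • g) : x = 0 := by
  -- first: `x` is torsion
  have hx : x ∈ Submodule.torsion ℤ G := by
    rw [← Submodule.Quotient.mk_eq_zero]
    have hfree : Module.Free ℤ (G ⧸ Submodule.torsion ℤ G) :=
      Module.free_of_finite_type_torsion_free'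
    let b := Module.Free.chooseBasis ℤ (G ⧸ Submodule.torsion ℤ G)
    set y : G ⧸ Submodule.torsion ℤ G := Submodule.Quotient.mk x with hy
    have hdiv : ∀ k : ℕ, 1 ≤ k → ∃ g : G ⧸ Submodule.torsion ℤ G, y = (k : ℤ) • g := by
      intro k hk
      obtain ⟨g, hg⟩ := h k hk
      exact ⟨Submodule.Quotient.mk g, by rw [hy, hg]; rfl⟩
    apply b.repr.injective
    rw [map_zero]
    ext i
    have hc : ∀ k : ℕ, 1 ≤ k → (k : ℤ) ∣ b.repr y i := by
      intro k hk
      obtain ⟨g, hg⟩ := hdiv k hk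
      refine ⟨b.repr g i, ?_⟩
      rw [hg, map_smul]
      rfl
    have h1 := hc ((b.repr y i).natAbs + 1) (by omega)
    have h2 : b.repr y i = 0 := by
      apply Int.eq_zero_of_abs_lt_dvd h1
      rw [Int.abs_eq_natAbs]
      push_cast
      omega
    simpa using h2
  -- the torsion has bounded exponent
  obtain ⟨e, he1, he2⟩ := Submodule.annihilator_top_inter_nonZeroDivisors
    (Submodule.torsion_isTorsion (R := ℤ) (M := G))
  have he0 : e ≠ 0 := nonZeroDivisors.ne_zero he2
  have hann : ∀ z ∈ Submodule.torsion ℤ G, e • z = 0 := by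
    intro z hz
    have := (Submodule.mem_annihilator.1 he1) ⟨z, hz⟩ Submodule.mem_top
    exact congrArg Subtype.val this
  obtain ⟨g, hg⟩ := h e.natAbs (by omega)
  have hgt : g ∈ Submodule.torsion ℤ G := by
    have h1 : e • ((e.natAbs : ℤ) • g) = 0 := by rw [← hg]; exact hann x hx
    rw [smul_smul] at h1
    refine (Submodule.mem_torsion_iff g).2 ⟨⟨e * (e.natAbs : ℤ), ?_⟩, h1⟩
    apply mem_nonZeroDivisors_of_ne_zero
    simp [he0]
  have h2 := hann g hgt
  rw [hg]
  rcases Int.natAbs_eq e with h3 | h3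
  · rw [← h3]; exact h2
  · have : (e.natAbs : ℤ) = - e := by omega
    rw [this, neg_smul, h2, neg_zero]

/-- the words of length one and two -/
theorem fin_words (n m : ℕ) : Submodule.FG (Submodule.span ℤ
    ({f : P | ∃ i, i < n ∧ f = (m : ℤ) • X i} ∪
      {f : P | ∃ i j, i < n ∧ j < n ∧ f = (m : ℤ) • (X i * X j)})) := by
  apply Submodule.fg_span
  apply Set.Finite.union
  · apply Set.Finite.subset (Set.Finite.image (fun i : ℕ => (m : ℤ) • X i) (Set.finite_Iio n))
    rintro f ⟨i, hi, rfl⟩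
    exact ⟨i, hi, rfl⟩
  · apply Set.Finite.subset (Set.Finite.image (fun i : ℕ × ℕ => (m : ℤ) • (X i.1 * X i.2))
      ((Set.finite_Iio n).prod (Set.finite_Iio n)))
    rintro f ⟨i, j, hi, hj, rfl⟩
    exact ⟨(i, j), ⟨hi, hj⟩, rfl⟩

theorem aug_X (i : ℕ) : aug (X i) = 0 := by
  simp [aug, X]

theorem mon_mem_Pp {w : List ℕ} (hw : w ≠ []) : mon w ∈ Pp := by
  cases w with
  | nil => exact absurd rfl hw
  | cons a w =>
    change aug (mon (a :: w)) = 0
    simp only [mon, List.map_cons, List.prod_cons, map_mul, aug_X, zero_mul]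

theorem mul_three {I : Submodule ℤ P} (hI : IsT I) (m : ℕ)
    (h : (m : ℤ) • (X 0 * X 1 * X 2) ∈ I) {u v w : P} (hu : u ∈ Pp) (hv : v ∈ Pp) (hw : w ∈ Pp) :
    (m : ℤ) • (u * v * w) ∈ I := by
  let s : ℕ → P := fun i => if i = 0 then u else if i = 1 then v else if i = 2 then w else 0
  let φ : P →ₐ[ℤ] P := FreeAlgebra.lift ℤ s
  have hφX : ∀ i, φ (X i) = s i := fun i => by simp [φ, X]
  have hφ : IsSubst φ := by
    intro i
    rw [hφX]
    simp only [s]
    split_ifs
    · exact hu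
    · exact hv
    · exact hw
    · exact map_zero _
  have := hI.subst φ hφ _ h
  rw [map_zsmul, map_mul, map_mul, hφX, hφX, hφX] at this
  simpa [s] using this

/-- AD-8. -/
theorem div_free {I : Submodule ℤ P} (hI : IsT I) (m : ℕ) (hm : 1 ≤ m)
    (h : (m : ℤ) • (X 0 * X 1 * X 2) ∈ I) (f : P) (hf : f ∈ Pp)
    (hk : ∀ k : ℕ, 1 ≤ k → f ∈ I ⊔ mulI k Pp) : f ∈ I := by
  obtain ⟨n, hn⟩ := exists_mem_Pn hf
  obtain ⟨ψ, hψ, -, -, hψ1, hψ2⟩ := exists_retract n
  set W : Submodule ℤ P := Submodule.span ℤ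
    ({f : P | ∃ i, i < n ∧ f = (m : ℤ) • X i} ∪
      {f : P | ∃ i j, i < n ∧ j < n ∧ f = (m : ℤ) • (X i * X j)}) with hW
  -- `m Pn n ≤ I ⊔ W`
  have hmW : ∀ r ∈ Pn n, (m : ℤ) • r ∈ I ⊔ W := by
    intro r hr
    unfold Pn at hr
    induction hr using Submodule.span_induction with
    | mem x hx =>
      obtain ⟨w, hw, hwn, rfl⟩ := hx
      match w, hw, hwn with
      | [a], _, hwn =>
        apply Submodule.mem_sup_right
        apply Submodule.subset_span
        left
        exact ⟨a, hwn a (by simp), by simp [mon]⟩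
      | [a, b], _, hwn =>
        apply Submodule.mem_sup_right
        apply Submodule.subset_span
        right
        exact ⟨a, b, hwn a (by simp), hwn b (by simp), by simp [mon]⟩
      | a :: b :: c :: w, _, _ =>
        apply Submodule.mem_sup_left
        have e : mon (a :: b :: c :: w) = X a * X b * mon (c :: w) := by
          simp only [mon, List.map_cons, List.prod_cons, mul_assoc]
        rw [e]
        exact mul_three hI m h (aug_X a) (aug_X b) (mon_mem_Pp (by simp))
    | zero => rw [smul_zero]; exact zero_mem _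
    | add x y _ _ hx hy => rw [smul_add]; exact add_mem hx hy
    | smul a x _ hx => rw [smul_comm]; exact Submodule.smul_mem _ _ hx
  -- divisibility in the quotient
  let G : Submodule ℤ (P ⧸ I) := W.map I.mkQ
  have hdiv : ∀ k : ℕ, 1 ≤ k → ∃ g ∈ G, I.mkQ f = (k : ℤ) • g := by
    intro k hk1
    have h1 := hk (k * m) (Nat.mul_pos hk1 hm)
    obtain ⟨i, hi, y, hy, hiy⟩ := Submodule.mem_sup.1 h1
    obtain ⟨r, hr, rfl⟩ := hy
    have h2 : f = ψ i + (k : ℤ) • ((m : ℤ) • ψ r) := by
      have h3 : ψ f = f := hψ1 f hn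
      rw [← h3, ← hiy, map_add, LinearMap.lsmul_apply, map_zsmul, smul_smul]
      push_cast
      rfl
    obtain ⟨a, ha, b, hb, hab⟩ := Submodule.mem_sup.1 (hmW (ψ r) (hψ2 r hr))
    refine ⟨I.mkQ b, Submodule.mem_map_of_mem hb, ?_⟩
    rw [h2, ← hab, map_add, map_zsmul, map_add]
    have e1 : I.mkQ (ψ i) = 0 := by
      rw [Submodule.mkQ_apply, Submodule.Quotient.mk_eq_zero]
      exact hI.subst ψ hψ i hi
    have e2 : I.mkQ a = 0 := by
      rw [Submodule.mkQ_apply, Submodule.Quotient.mk_eq_zero]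
      exact ha
    rw [e1, e2, zero_add, zero_add]
  have hGfg : G.FG := (fin_words n m).map _
  have : Module.Finite ℤ G := Module.Finite.iff_fg.2 hGfg
  obtain ⟨g1, hg1, hg1'⟩ := hdiv 1 le_rfl
  have hfG : I.mkQ f ∈ G := by
    rw [hg1']
    exact Submodule.smul_mem _ _ hg1
  have h0 : (⟨I.mkQ f, hfG⟩ : G) = 0 := by
    apply fg_div
    intro k hk1
    obtain ⟨g, hg, hg'⟩ := hdiv k hk1
    exact ⟨⟨g, hg⟩, Subtype.ext hg'⟩
  have h1 : I.mkQ f = 0 := congrArg Subtype.val h0
  rwa [Submodule.mkQ_apply, Submodule.Quotient.mk_eq_zero] at h1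

end AD
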