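import Pool.Agent.AD.Defs

namespace AD

variable {L : Type*} [Lattice L] [IsModularLattice L] {S : Set L} {o a b c j : L}

omit [IsModularLattice L] in
theorem Dia.swapAB (h : Dia S o a b c j) : Dia S o b a c j where
  ho := h.ho
  ha := h.hb
  hb := h.ha
  hc := h.hc
  hj := h.hj
  oa := h.ob
  ob := h.oa
  oc := h.oc
  ab := by rw [inf_comm]; exact h.ab
  bc := h.ac
  ac := h.bc
  jab := by rw [sup_comm]; exact h.jab
  jbc := h.jac
  jac := h.jbc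

omit [IsModularLattice L] in
theorem Dia.swapAC (h : Dia S o a b c j) : Dia S o c b a j where
  ho := h.ho
  ha := h.hc
  hb := h.hb
  hc := h.ha
  hj := h.hj
  oa := h.oc
  ob := h.ob
  oc := h.oa
  ab := by rw [inf_comm]; exact h.bc
  bc := by rw [inf_comm]; exact h.ab
  ac := by rw [inf_comm]; exact h.ac
  jab := by rw [sup_comm]; exact h.jbc
  jbc := by rw [sup_comm]; exact h.jab
  jac := by rw [sup_comm]; exact h.jac

theorem Dia.atomA (hs : ∀ x ∈ S, ∀ y ∈ S, x ⊔ y ∈ S)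
    (hd : ∀ d ∈ S, o < d → DistOn S d) (h : Dia S o a b c j) :
    ∀ x ∈ S, o < x → x ≤ a → x = a := by
  intro x hx hox hxa
  have hD := hd x hx hox a h.ha (b ⊔ x) (hs _ h.hb _ hx) (c ⊔ x) (hs _ h.hc _ hx) hxa
    le_sup_right le_sup_right
  have haj : a ≤ j := by rw [← h.jab]; exact le_sup_left
  have h1 : a ≤ (b ⊔ x) ⊔ (c ⊔ x) := by
    refine haj.trans ?_
    rw [← h.jbc]
    exact sup_le_sup le_sup_left le_sup_left
  rw [inf_eq_left.2 h1, ← inf_sup_assoc_of_le b hxa, ← inf_sup_assoc_of_le c hxa, h.ab, h.ac,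
    sup_eq_right.2 hox.le, sup_idem] at hD
  exact hD.symm

/-- AD-2 (a): the elements of the diamond are atoms. -/
theorem Dia.atom (hi : ∀ x ∈ S, ∀ y ∈ S, x ⊓ y ∈ S) (hs : ∀ x ∈ S, ∀ y ∈ S, x ⊔ y ∈ S)
    (hd : ∀ d ∈ S, o < d → DistOn S d) (h : Dia S o a b c j) :
    (∀ x ∈ S, o < x → x ≤ a → x = a) ∧ (∀ x ∈ S, o < x → x ≤ b → x = b) ∧
      (∀ x ∈ S, o < x → x ≤ c → x = c) := by
  have _ := hi
  exact ⟨Dia.atomA hs hd h, Dia.atomA hs hd h.swapAB, Dia.atomA hs hd h.swapAC⟩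

theorem Dia.essAux (h : Dia S o a b c j) (x : L) (hxj : x ⊓ j = o) :
    (a ⊔ x) ⊓ (b ⊔ x) = x := by
  have haj : a ≤ j := by rw [← h.jab]; exact le_sup_left
  have hbj : b ≤ j := by rw [← h.jab]; exact le_sup_right
  have h1 : a ⊓ (b ⊔ x) ≤ b := by
    have h2 : (b ⊔ x) ⊓ j = b ⊔ x ⊓ j := sup_inf_assoc_of_le x hbj
    rw [hxj, sup_eq_left.2 h.ob.le] at h2
    calc a ⊓ (b ⊔ x) ≤ (b ⊔ x) ⊓ j := le_inf inf_le_right (inf_le_left.trans haj)
      _ = b := h2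
  have h3 : a ⊓ (b ⊔ x) ≤ o := by
    rw [← h.ab]
    exact le_inf inf_le_left h1
  have hox : o ≤ x := by rw [← hxj]; exact inf_le_left
  have h4 : (x ⊔ a) ⊓ (b ⊔ x) = x ⊔ a ⊓ (b ⊔ x) := sup_inf_assoc_of_le a le_sup_right
  rw [sup_comm a x, h4]
  exact sup_eq_left.2 (h3.trans hox)

/-- AD-2 (b): the top of the diamond is essential. -/
theorem Dia.ess (hi : ∀ x ∈ S, ∀ y ∈ S, x ⊓ y ∈ S) (hs : ∀ x ∈ S, ∀ y ∈ S, x ⊔ y ∈ S)
    (hd : ∀ d ∈ S, o < d → DistOn S d) (h : Dia S o a b c j) :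
    ∀ x ∈ S, o ≤ x → x ⊓ j = o → x = o := by
  have _ := hi
  intro x hx hox hxj
  by_contra hne
  have hlt : o < x := lt_of_le_of_ne hox (Ne.symm hne)
  have hD := hd x hx hlt (a ⊔ x) (hs _ h.ha _ hx) (b ⊔ x) (hs _ h.hb _ hx) (c ⊔ x)
    (hs _ h.hc _ hx) le_sup_right le_sup_right le_sup_right
  have haj : a ≤ j := by rw [← h.jab]; exact le_sup_left
  have h1 : a ⊔ x ≤ (b ⊔ x) ⊔ (c ⊔ x) := by
    refine sup_le (haj.trans ?_) (le_sup_right.trans le_sup_left)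
    rw [← h.jbc]
    exact sup_le_sup le_sup_left le_sup_left
  have h2 : Dia S o a c b j := h.swapAB.swapAC.swapAB
  rw [inf_eq_left.2 h1, Dia.essAux h x hxj, Dia.essAux h2 x hxj, sup_idem] at hD
  have hax : a ≤ x := by rw [← hD]; exact le_sup_left
  have : a ≤ o := by rw [← hxj]; exact le_inf hax haj
  exact absurd h.oa (not_lt_of_ge this)

theorem Dia.chainAux (hi : ∀ x ∈ S, ∀ y ∈ S, x ⊓ y ∈ S) (hs : ∀ x ∈ S, ∀ y ∈ S, x ⊔ y ∈ S)
    (hd : ∀ d ∈ S, o < d → DistOn S d) (h : Dia S o a b c j) (e : L) (he : e ∈ S) (hej : e ≤ j)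
    (hae : ¬ a ≤ e) (y : L) (hy : y ∈ S) (hoy : o < y) (hye : y ≤ e) : y = e := by
  obtain ⟨hA, hB, -⟩ := Dia.atom hi hs hd h
  have hoe : o ≤ e := hoy.le.trans hye
  have hoae : o ≤ a ⊓ e := le_inf h.oa.le hoe
  have h1 : a ⊓ e = o := by
    by_contra hne
    have := hA _ (hi _ h.ha _ he) (lt_of_le_of_ne hoae (Ne.symm hne)) inf_le_left
    exact hae (inf_eq_left.1 this)
  have h2 : a ⊓ y = o := by
    apply le_antisymm
    · rw [← h1]
      exact inf_le_inf_left a hye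
    · exact le_inf h.oa.le hoy.le
  have haj : a ≤ j := by rw [← h.jab]; exact le_sup_left
  have hmj : y ⊔ a ≤ j := sup_le (hye.trans hej) haj
  have hm : y ⊔ a ∈ S := hs _ hy _ h.ha
  have homb : o ≤ (y ⊔ a) ⊓ b := le_inf (h.oa.le.trans le_sup_right) h.ob.le
  have h3 : (y ⊔ a) ⊓ b = b := by
    by_contra hne
    have h4 : (y ⊔ a) ⊓ b = o := by
      by_contra hne2
      exact hne (hB _ (hi _ hm _ h.hb) (lt_of_le_of_ne homb (Ne.symm hne2)) inf_le_right)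
    have h5 : (a ⊔ b) ⊓ (y ⊔ a) = a ⊔ b ⊓ (y ⊔ a) := sup_inf_assoc_of_le b le_sup_right
    rw [h.jab, inf_eq_right.2 hmj, inf_comm b, h4, sup_eq_left.2 h.oa.le] at h5
    have h6 : y ≤ a := by rw [← h5]; exact le_sup_left
    rw [inf_eq_right.2 h6] at h2
    exact absurd hoy (by rw [h2]; exact lt_irrefl _)
  have h7 : b ≤ y ⊔ a := inf_eq_right.1 h3
  have h8 : j ≤ y ⊔ a := by rw [← h.jab]; exact sup_le le_sup_right h7
  have h9 : (y ⊔ a) ⊓ e = y ⊔ a ⊓ e := sup_inf_assoc_of_le a hye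
  rw [h1, inf_eq_right.2 (hej.trans h8), sup_eq_left.2 hoy.le] at h9
  exact h9.symm

/-- AD-2 (c): descending chains meeting the top of the diamond. -/
theorem Dia.chain (hi : ∀ x ∈ S, ∀ y ∈ S, x ⊓ y ∈ S) (hs : ∀ x ∈ S, ∀ y ∈ S, x ⊔ y ∈ S)
    (hd : ∀ d ∈ S, o < d → DistOn S d) (h : Dia S o a b c j) (D : ℕ → L) (hD : ∀ k, D k ∈ S)
    (hanti : Antitone D) (hoD : ∀ k, o ≤ D k) (hne : ∀ k, D k ⊓ j ≠ o) :
    ∃ e ∈ S, o < e ∧ ∀ k, e ≤ D k := by
  have haj : a ≤ j := by rw [← h.jab]; exact le_sup_left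
  by_cases hall : ∀ k, D k ⊓ j = j
  · refine ⟨a, h.ha, h.oa, fun k => haj.trans (inf_eq_right.1 (hall k))⟩
  push Not at hall
  obtain ⟨K, hK⟩ := hall
  have hoj : o ≤ j := h.oa.le.trans haj
  have hpos : ∀ k, o < D k ⊓ j := fun k => lt_of_le_of_ne (le_inf (hoD k) hoj) (Ne.symm (hne k))
  have heS : D K ⊓ j ∈ S := hi _ (hD K) _ h.hj
  refine ⟨D K ⊓ j, heS, hpos K, fun k => ?_⟩
  rcases le_total k K with hk | hk
  · exact inf_le_left.trans (hanti hk)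
  · have hle : D k ⊓ j ≤ D K ⊓ j := inf_le_inf_right j (hanti hk)
    have hor : ¬ a ≤ D K ⊓ j ∨ ¬ b ≤ D K ⊓ j := by
      by_contra hcon
      push Not at hcon
      apply hK
      refine le_antisymm inf_le_right ?_
      calc j = a ⊔ b := h.jab.symm
        _ ≤ D K ⊓ j := sup_le hcon.1 hcon.2
    have heq : D k ⊓ j = D K ⊓ j := by
      rcases hor with h1 | h1
      · exact Dia.chainAux hi hs hd h _ heS inf_le_right h1 _ (hi _ (hD k) _ h.hj) (hpos k) hle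
      · exact Dia.chainAux hi hs hd h.swapAB _ heS inf_le_right h1 _ (hi _ (hD k) _ h.hj)
          (hpos k) hle
    rw [← heq]
    exact inf_le_left

end AD
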