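import Pool.Agent.AD.Defs

namespace AD

/-- AD-3 (a). -/
theorem isT_inf {A B : Submodule ℤ P} (hA : IsT A) (hB : IsT B) : IsT (A ⊓ B) := by
  refine ⟨inf_le_left.trans hA.le, ?_, ?_, ?_⟩
  · rintro f ⟨h1, h2⟩ g
    exact ⟨hA.mul_right f h1 g, hB.mul_right f h2 g⟩
  · rintro f ⟨h1, h2⟩ g
    exact ⟨hA.mul_left f h1 g, hB.mul_left f h2 g⟩
  · rintro φ hφ f ⟨h1, h2⟩
    exact ⟨hA.subst φ hφ f h1, hB.subst φ hφ f h2⟩

/-- AD-3 (b). -/
theorem isT_sup {A B : Submodule ℤ P} (hA : IsT A) (hB : IsT B) : IsT (A ⊔ B) := by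
  refine ⟨sup_le hA.le hB.le, ?_, ?_, ?_⟩
  · intro f hf g
    obtain ⟨y, hy, z, hz, rfl⟩ := Submodule.mem_sup.1 hf
    rw [add_mul]
    exact Submodule.add_mem_sup (hA.mul_right y hy g) (hB.mul_right z hz g)
  · intro f hf g
    obtain ⟨y, hy, z, hz, rfl⟩ := Submodule.mem_sup.1 hf
    rw [mul_add]
    exact Submodule.add_mem_sup (hA.mul_left y hy g) (hB.mul_left z hz g)
  · intro φ hφ f hf
    obtain ⟨y, hy, z, hz, rfl⟩ := Submodule.mem_sup.1 hf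
    rw [map_add]
    exact Submodule.add_mem_sup (hA.subst φ hφ y hy) (hB.subst φ hφ z hz)

private theorem mem_Pp_iff' (f : P) : f ∈ Pp ↔ aug f = 0 := Iff.rfl

private theorem aug_comp_subst {φ : P →ₐ[ℤ] P} (hφ : IsSubst φ) (f : P) : aug (φ f) = aug f := by
  have h : aug.comp φ = aug := by
    refine FreeAlgebra.hom_ext ?_
    funext i
    have h1 := hφ i
    show aug (φ (FreeAlgebra.ι ℤ i)) = aug (FreeAlgebra.ι ℤ i)
    have h2 : aug (FreeAlgebra.ι ℤ i) = 0 := by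
      unfold aug
      exact FreeAlgebra.lift_ι_apply _ _
    rw [h2]
    exact h1
  exact DFunLike.congr_fun h f

/-- AD-3 (c). -/
theorem isT_Pp : IsT Pp := by
  refine ⟨le_rfl, ?_, ?_, ?_⟩
  · intro f hf g
    rw [mem_Pp_iff'] at hf ⊢
    rw [map_mul, hf, zero_mul]
  · intro f hf g
    rw [mem_Pp_iff'] at hf ⊢
    rw [map_mul, hf, mul_zero]
  · intro φ hφ f hf
    rw [mem_Pp_iff'] at hf ⊢
    rw [aug_comp_subst hφ, hf]

private theorem mem_mulI' {A : Submodule ℤ P} {k : ℤ} {f : P} :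
    f ∈ mulI k A ↔ ∃ g ∈ A, k • g = f := by
  unfold mulI
  rw [Submodule.mem_map]
  rfl

/-- AD-3 (d). -/
theorem isT_mulI {A : Submodule ℤ P} (hA : IsT A) (k : ℤ) : IsT (mulI k A) := by
  refine ⟨?_, ?_, ?_, ?_⟩
  · intro f hf
    obtain ⟨g, hg, rfl⟩ := mem_mulI'.1 hf
    exact Pp.smul_mem k (hA.le hg)
  · intro f hf g
    obtain ⟨h, hh, rfl⟩ := mem_mulI'.1 hf
    exact mem_mulI'.2 ⟨h * g, hA.mul_right h hh g, by rw [smul_mul_assoc]⟩
  · intro f hf g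
    obtain ⟨h, hh, rfl⟩ := mem_mulI'.1 hf
    exact mem_mulI'.2 ⟨g * h, hA.mul_left h hh g, by rw [mul_smul_comm]⟩
  · intro φ hφ f hf
    obtain ⟨h, hh, rfl⟩ := mem_mulI'.1 hf
    exact mem_mulI'.2 ⟨φ h, hA.subst φ hφ h hh, by rw [map_smul]⟩

/-- AD-3 (e): the torsion closure of a T-ideal is a T-ideal. -/
theorem exists_tor {I : Submodule ℤ P} (hI : IsT I) : ∃ J, IsT J ∧ IsTor I J := by
  let J : Submodule ℤ P :=
    { carrier := {f | ∃ m : ℕ, 1 ≤ m ∧ (m : ℤ) • f ∈ I}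
      zero_mem' := ⟨1, le_rfl, by rw [smul_zero]; exact I.zero_mem⟩
      add_mem' := by
        rintro f g ⟨m, hm, hf⟩ ⟨n, hn, hg⟩
        refine ⟨m * n, Nat.mul_pos hm hn, ?_⟩
        have h : ((m * n : ℕ) : ℤ) • (f + g) = (n : ℤ) • ((m : ℤ) • f) + (m : ℤ) • ((n : ℤ) • g) := by
          rw [smul_smul, smul_smul, smul_add]
          push_cast
          rw [mul_comm (m : ℤ) (n : ℤ)]
        rw [h]
        exact I.add_mem (I.smul_mem _ hf) (I.smul_mem _ hg)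
      smul_mem' := by
        rintro c f ⟨m, hm, hf⟩
        refine ⟨m, hm, ?_⟩
        rw [smul_comm]
        exact I.smul_mem c hf }
  have hJ : ∀ f, f ∈ J ↔ ∃ m : ℕ, 1 ≤ m ∧ (m : ℤ) • f ∈ I := fun f => Iff.rfl
  refine ⟨J, ⟨?_, ?_, ?_, ?_⟩, hJ⟩
  · intro f hf
    obtain ⟨m, hm, h⟩ := (hJ f).1 hf
    have h1 := hI.le h
    rw [mem_Pp_iff'] at h1 ⊢
    rw [map_smul, smul_eq_mul] at h1
    rcases mul_eq_zero.1 h1 with h2 | h2
    · have : m = 0 := by exact_mod_cast h2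
      omega
    · exact h2
  · intro f hf g
    obtain ⟨m, hm, h⟩ := (hJ f).1 hf
    exact (hJ _).2 ⟨m, hm, by rw [← smul_mul_assoc]; exact hI.mul_right _ h g⟩
  · intro f hf g
    obtain ⟨m, hm, h⟩ := (hJ f).1 hf
    exact (hJ _).2 ⟨m, hm, by rw [← mul_smul_comm]; exact hI.mul_left _ h g⟩
  · intro φ hφ f hf
    obtain ⟨m, hm, h⟩ := (hJ f).1 hf
    exact (hJ _).2 ⟨m, hm, by rw [← map_smul]; exact hI.subst φ hφ _ h⟩

end AD
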