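import Pool.Agent.AD.NilU2
import Pool.Agent.AD.Tlat

namespace AD

/-- AD-7 (a): homogeneous components in one variable. -/
theorem components {Q : Type*} [AddCommGroup Q] (htf : ∀ (m : ℕ) (q : Q), 1 ≤ m → m • q = 0 → q = 0)
    (N : ℕ) (q : ℕ → Q) (h : ∀ t : ℕ, ∑ k ∈ Finset.range N, (t ^ k) • q k = 0) :
    ∀ k < N, q k = 0 := by
  intro k hk
  let V : Matrix (Fin N) (Fin N) ℤ := Matrix.vandermonde (fun i : Fin N => ((i : ℕ) : ℤ))
  have hV : V.det ≠ 0 := by
    rw [Matrix.det_vandermonde_ne_zero_iff]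
    intro a b hab
    have h1 : ((a : ℕ) : ℤ) = ((b : ℕ) : ℤ) := hab
    exact Fin.ext (by exact_mod_cast h1)
  have hrow : ∀ t : Fin N, ∑ j : Fin N, V t j • q (j : ℕ) = 0 := by
    intro t
    have h1 := h (t : ℕ)
    rw [← Fin.sum_univ_eq_sum_range (fun k => (((t : ℕ)) ^ k) • q k)] at h1
    rw [← h1]
    refine Finset.sum_congr rfl fun j _ => ?_
    have h2 : V t j = (((t : ℕ) ^ (j : ℕ) : ℕ) : ℤ) := by
      simp [V, Matrix.vandermonde_apply]
    rw [h2, natCast_zsmul]
  have h3 : V.det • q k = 0 := by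
    have h4 : V.det • q k = ∑ j : Fin N, (V.adjugate * V) ⟨k, hk⟩ j • q (j : ℕ) := by
      rw [Matrix.adjugate_mul, Finset.sum_eq_single (⟨k, hk⟩ : Fin N)]
      · simp
      · intro j _ hj
        simp [Matrix.one_apply_ne' hj]
      · intro hj
        exact absurd (Finset.mem_univ _) hj
    have h5 : ∑ j : Fin N, (V.adjugate * V) ⟨k, hk⟩ j • q (j : ℕ) =
        ∑ t : Fin N, V.adjugate ⟨k, hk⟩ t • ∑ j : Fin N, V t j • q (j : ℕ) := by
      simp_rw [Matrix.mul_apply, Finset.sum_smul, Finset.smul_sum, mul_smul]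
      rw [Finset.sum_comm]
    rw [h4, h5]
    refine Finset.sum_eq_zero fun t _ => ?_
    rw [hrow t, smul_zero]
  refine htf V.det.natAbs (q k) (Nat.one_le_iff_ne_zero.mpr (Int.natAbs_ne_zero.mpr hV)) ?_
  rcases Int.natAbs_eq V.det with h6 | h6
  · rw [h6, natCast_zsmul] at h3
    exact h3
  · rw [h6, neg_smul, natCast_zsmul, neg_eq_zero] at h3
    exact h3

/-- evaluation of the variables in `T` at the variable of `ℤ[X]`, the others at `0` -/
noncomputable def evT (T : Finset ℕ) : MvPolynomial ℕ ℤ →ₐ[ℤ] Polynomial ℤ :=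
  MvPolynomial.aeval (fun k => if k ∈ T then Polynomial.X else 0)

theorem evT_monomial (T : Finset ℕ) (s : ℕ →₀ ℕ) (a : ℤ) (n : ℕ) :
    (evT T (MvPolynomial.monomial s a)).coeff n =
      if s.support ⊆ T ∧ s.degree = n then a else 0 := by
  unfold evT
  rw [MvPolynomial.aeval_monomial]
  by_cases hs : s.support ⊆ T
  · have h1 : (s.prod fun i k => (if i ∈ T then (Polynomial.X : Polynomial ℤ) else 0) ^ k) =
        Polynomial.X ^ s.degree := by
      rw [Finsupp.prod, Finsupp.degree_apply, ← Finset.prod_pow_eq_pow_sum]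
      refine Finset.prod_congr rfl fun i hi => ?_
      rw [if_pos (hs hi)]
    rw [h1]
    have h2 : (algebraMap ℤ (Polynomial ℤ)) a = Polynomial.C a := rfl
    rw [h2, Polynomial.coeff_C_mul, Polynomial.coeff_X_pow]
    by_cases hn : s.degree = n
    · rw [if_pos hn.symm, if_pos ⟨hs, hn⟩, mul_one]
    · rw [if_neg (fun h => hn h.symm), if_neg (fun h => hn h.2), mul_zero]
  · have h1 : (s.prod fun i k => (if i ∈ T then (Polynomial.X : Polynomial ℤ) else 0) ^ k) = 0 := by
      obtain ⟨i, hi, hiT⟩ := Finset.not_subset.mp hs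
      rw [Finsupp.prod]
      refine Finset.prod_eq_zero hi ?_
      rw [if_neg hiT, zero_pow (Finsupp.mem_support_iff.mp hi)]
    rw [h1, mul_zero, Polynomial.coeff_zero, if_neg (fun h => hs h.1)]

theorem coeff_single_of_evT (i n : ℕ) (g : MvPolynomial ℕ ℤ) :
    (evT {i} g).coeff n = MvPolynomial.coeff (Finsupp.single i n) g := by
  induction g using MvPolynomial.induction_on' with
  | monomial s a =>
    rw [evT_monomial, MvPolynomial.coeff_monomial]
    have h : (s.support ⊆ {i} ∧ s.degree = n) ↔ s = Finsupp.single i n := by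
      constructor
      · rintro ⟨h1, h2⟩
        rw [Finsupp.support_subset_singleton] at h1
        rw [h1, Finsupp.degree_single] at h2
        rw [h1, h2]
      · intro h
        rw [h]
        exact ⟨Finsupp.support_single_subset, Finsupp.degree_single _ _⟩
    by_cases hs : s = Finsupp.single i n
    · rw [if_pos (h.mpr hs), if_pos hs]
    · rw [if_neg (fun h' => hs (h.mp h')), if_neg hs]
  | add p q hp hq =>
    rw [map_add, Polynomial.coeff_add, MvPolynomial.coeff_add, hp, hq]

theorem coeff_pair_of_evT {i j : ℕ} (hij : i ≠ j) (g : MvPolynomial ℕ ℤ) :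
    (evT {i, j} g).coeff 2 = MvPolynomial.coeff (Finsupp.single i 2) g +
      MvPolynomial.coeff (Finsupp.single j 2) g +
      MvPolynomial.coeff (Finsupp.single i 1 + Finsupp.single j 1) g := by
  induction g using MvPolynomial.induction_on' with
  | monomial s a =>
    rw [evT_monomial, MvPolynomial.coeff_monomial, MvPolynomial.coeff_monomial,
      MvPolynomial.coeff_monomial]
    have n1 : (Finsupp.single i 2 : ℕ →₀ ℕ) ≠ Finsupp.single j 2 := by
      intro h
      have := DFunLike.congr_fun h i
      simp [Finsupp.single_apply, hij.symm] at this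
    have n2 : (Finsupp.single i 2 : ℕ →₀ ℕ) ≠ Finsupp.single i 1 + Finsupp.single j 1 := by
      intro h
      have := DFunLike.congr_fun h i
      simp [Finsupp.single_apply, hij.symm] at this
    have n3 : (Finsupp.single j 2 : ℕ →₀ ℕ) ≠ Finsupp.single i 1 + Finsupp.single j 1 := by
      intro h
      have := DFunLike.congr_fun h j
      simp [Finsupp.single_apply, hij] at this
    by_cases h1 : s = Finsupp.single i 2
    · subst h1
      rw [if_pos, if_pos rfl, if_neg n1, if_neg n2, add_zero, add_zero]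
      exact ⟨Finsupp.support_single_subset.trans (by simp), Finsupp.degree_single _ _⟩
    by_cases h2 : s = Finsupp.single j 2
    · subst h2
      rw [if_pos, if_neg n1.symm, if_pos rfl, if_neg n3, zero_add, add_zero]
      exact ⟨Finsupp.support_single_subset.trans (by simp), Finsupp.degree_single _ _⟩
    by_cases h3 : s = Finsupp.single i 1 + Finsupp.single j 1
    · subst h3
      rw [if_pos, if_neg n2.symm, if_neg n3.symm, if_pos rfl, zero_add, zero_add]
      refine ⟨?_, by simp⟩
      refine Finsupp.support_add.trans ?_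
      refine Finset.union_subset (Finsupp.support_single_subset.trans (by simp))
        (Finsupp.support_single_subset.trans (by simp))
    rw [if_neg h1, if_neg h2, if_neg h3, if_neg]
    · simp
    rintro ⟨h4, h5⟩
    have h6 : s = Finsupp.single i (s i) + Finsupp.single j (s j) := by
      ext k
      by_cases hk1 : k = i
      · subst hk1
        simp [Finsupp.single_apply, hij.symm]
      by_cases hk2 : k = j
      · subst hk2
        simp [Finsupp.single_apply, hij]
      have h7 : s k = 0 := by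
        by_contra h8
        have h9 := h4 (Finsupp.mem_support_iff.mpr h8)
        simp [hk1, hk2] at h9
      simp [Finsupp.single_apply, h7, Ne.symm hk1, Ne.symm hk2]
    have h7 : s i + s j = 2 := by
      rw [h6, map_add, Finsupp.degree_single, Finsupp.degree_single] at h5
      exact h5
    have h8 : s i = 0 ∨ s i = 1 ∨ s i = 2 := by omega
    rcases h8 with h8 | h8 | h8
    · have h9 : s j = 2 := by omega
      rw [h8, h9, Finsupp.single_zero, zero_add] at h6
      exact h2 h6
    · have h9 : s j = 1 := by omega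
      rw [h8, h9] at h6
      exact h3 h6
    · have h9 : s j = 0 := by omega
      rw [h8, h9, Finsupp.single_zero, add_zero] at h6
      exact h1 h6
  | add p q hp hq =>
    rw [map_add, Polynomial.coeff_add, MvPolynomial.coeff_add, MvPolynomial.coeff_add,
      MvPolynomial.coeff_add, hp, hq]
    ring

/-- the substitution of the variables in `T` by `x_0`, of the others by `0` -/
noncomputable def phT (T : Finset ℕ) : P →ₐ[ℤ] P :=
  FreeAlgebra.lift ℤ (fun k => if k ∈ T then X 0 else 0)

theorem aug_X (i : ℕ) : aug (X i) = 0 := by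
  simp [aug, X]

theorem phT_isSubst (T : Finset ℕ) : IsSubst (phT T) := by
  intro i
  unfold phT
  rw [FreeAlgebra.lift_ι_apply]
  split_ifs
  · exact aug_X 0
  · exact map_zero _

theorem phT_eq (T : Finset ℕ) (f : P) :
    phT T f = ∑ k ∈ Finset.range ((evT T (com f)).natDegree + 1),
      (evT T (com f)).coeff k • (X 0) ^ k := by
  have h1 : phT T = ((Polynomial.aeval (X 0)).comp (evT T)).comp com := by
    apply FreeAlgebra.hom_ext
    funext i
    simp only [Function.comp_apply, AlgHom.comp_apply]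
    unfold phT com evT
    rw [FreeAlgebra.lift_ι_apply, FreeAlgebra.lift_ι_apply, MvPolynomial.aeval_X]
    split_ifs
    · simp
    · simp
  rw [h1, AlgHom.comp_apply, AlgHom.comp_apply, Polynomial.aeval_eq_sum_range]
  refine Finset.sum_congr rfl fun i _ => ?_
  rw [Algebra.smul_def, zsmul_eq_mul, eq_intCast (algebraMap ℤ P)]

/-- the substitution `x_i ↦ u` -/
noncomputable def subAll (u : P) : P →ₐ[ℤ] P := FreeAlgebra.lift ℤ (fun _ => u)

theorem subAll_isSubst {u : P} (hu : aug u = 0) : IsSubst (subAll u) := by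
  intro i
  unfold subAll
  rw [FreeAlgebra.lift_ι_apply]
  exact hu

theorem subAll_X (u : P) (i : ℕ) : subAll u (X i) = u := by
  unfold subAll
  rw [FreeAlgebra.lift_ι_apply]

/-- AD-7 (b). -/
theorem exists_mul_xyz {I : Submodule ℤ P} (hI : AlmDist I) :
    ∃ m : ℕ, 1 ≤ m ∧ (m : ℤ) • (X 0 * X 1 * X 2) ∈ I := by
  obtain ⟨hIT, hId, hImax⟩ := hI
  obtain ⟨J, hJT, hIJ⟩ := exists_tor hIT
  have hIleJ : I ≤ J := fun f hf => (hIJ f).mpr ⟨1, le_refl _, by simpa using hf⟩
  -- `J` is closed under division
  have htor : ∀ (m : ℕ) (f : P), 1 ≤ m → (m : ℤ) • f ∈ J → f ∈ J := by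
    intro m f hm hf
    obtain ⟨m', hm', hf'⟩ := (hIJ _).mp hf
    refine (hIJ f).mpr ⟨m' * m, Nat.one_le_iff_ne_zero.mpr (by positivity), ?_⟩
    rw [smul_smul] at hf'
    push_cast
    exact hf'
  have htorz : ∀ (c : ℤ) (f : P), c ≠ 0 → c • f ∈ J → f ∈ J := by
    intro c f hc hf
    refine htor c.natAbs f (Nat.one_le_iff_ne_zero.mpr (Int.natAbs_ne_zero.mpr hc)) ?_
    rcases Int.natAbs_eq c with h | h
    · rw [← h]
      exact hf
    · have h2 : ((c.natAbs : ℕ) : ℤ) = -c := by omega
      rw [h2, neg_smul]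
      exact J.neg_mem hf
  -- homogeneous components of `phT T f`
  have hcomp : ∀ (T : Finset ℕ) (f : P), f ∈ J → ∀ k, (evT T (com f)).coeff k ≠ 0 →
      (X 0) ^ k ∈ J := by
    intro T f hf k hk
    set c := (evT T (com f)).coeff with hc
    set N := (evT T (com f)).natDegree + 1 with hN
    have hkN : k < N := Nat.lt_succ_of_le (Polynomial.le_natDegree_of_ne_zero hk)
    have h1 : phT T f ∈ J := hJT.subst _ (phT_isSubst T) f hf
    have h2 : ∀ t : ℕ, ∑ j ∈ Finset.range N, (t ^ j) • (J.mkQ (c j • (X 0) ^ j)) = 0 := by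
      intro t
      have h3 : subAll ((t : ℤ) • X 0) (phT T f) ∈ J :=
        hJT.subst _ (subAll_isSubst (by rw [map_smul, aug_X, smul_zero])) _ h1
      rw [phT_eq, map_sum] at h3
      have h4 : ∑ j ∈ Finset.range N, (t ^ j) • (J.mkQ (c j • (X 0) ^ j)) =
          J.mkQ (∑ j ∈ Finset.range N, subAll ((t : ℤ) • X 0) (c j • (X 0) ^ j)) := by
        rw [map_sum]
        refine Finset.sum_congr rfl fun j _ => ?_
        rw [map_smul (subAll _), map_pow, subAll_X, smul_pow, smul_comm, map_smul J.mkQ ((t : ℤ) ^ j)]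
        rw [← Nat.cast_pow, natCast_zsmul]
      rw [h4]
      exact (Submodule.Quotient.mk_eq_zero J).mpr h3
    have h3 := components (Q := P ⧸ J) (by
      intro m q hm hq
      obtain ⟨g, rfl⟩ := J.mkQ_surjective q
      rw [← natCast_zsmul, ← map_smul] at hq
      have h5 : (m : ℤ) • g ∈ J := (Submodule.Quotient.mk_eq_zero J).mp hq
      exact (Submodule.Quotient.mk_eq_zero J).mpr (htor m g hm h5)) N _ h2 k hkN
    have h4 : c k • (X 0) ^ k ∈ J := (Submodule.Quotient.mk_eq_zero J).mp h3
    exact htorz _ _ hk h4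
  -- `X_0 ^ 2 ∈ J`
  have hsq : (X 0) ^ 2 ∈ J := by
    by_contra hno
    have hno1 : (X 0) ^ 1 ∉ J := by
      intro h
      apply hno
      rw [pow_one] at h
      rw [pow_two]
      exact hJT.mul_right _ h _
    have hc1 : ∀ (T : Finset ℕ) (f : P), f ∈ J → (evT T (com f)).coeff 1 = 0 := by
      intro T f hf
      by_contra h
      exact hno1 (hcomp T f hf 1 h)
    have hc2 : ∀ (T : Finset ℕ) (f : P), f ∈ J → (evT T (com f)).coeff 2 = 0 := by
      intro T f hf
      by_contra h
      exact hno (hcomp T f hf 2 h)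
    have hJU : J ≤ TU := by
      intro f hf
      rw [mem_TU_iff]
      refine ⟨hJT.le hf, ?_, ?_⟩
      · intro i
        rw [← coeff_single_of_evT, hc1 _ _ hf]
        exact dvd_zero _
      · intro i j
        by_cases hij : i = j
        · subst hij
          rw [← Finsupp.single_add, ← coeff_single_of_evT, hc2 _ _ hf]
          exact dvd_zero _
        · have h1 := coeff_pair_of_evT hij (com f)
          rw [← coeff_single_of_evT, ← coeff_single_of_evT, hc2 _ _ hf, hc2 _ _ hf, hc2 _ _ hf,
            zero_add, zero_add] at h1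
          rw [← h1]
          exact dvd_zero _
    have hIU : I = TU := by
      rcases (hIleJ.trans hJU).eq_or_lt with h | h
      · exact h
      · exact absurd (hImax TU isT_TU h) not_dist_TU
    have hcomX : com (X 0) = MvPolynomial.X 0 := by
      unfold com
      rw [FreeAlgebra.lift_ι_apply]
    have h4 : (4 : ℤ) • X 0 ∈ TU := by
      rw [mem_TU_iff]
      refine ⟨?_, ?_, ?_⟩
      · show aug ((4 : ℤ) • X 0) = 0
        rw [map_smul, aug_X, smul_zero]
      · intro i
        rw [map_smul, MvPolynomial.coeff_smul, smul_eq_mul]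
        exact dvd_mul_right _ _
      · intro i j
        rw [map_smul, MvPolynomial.coeff_smul, smul_eq_mul]
        exact (by norm_num : (2 : ℤ) ∣ 4).mul_right _
    have h5 : X 0 ∈ J := htor 4 _ (by norm_num) (hIleJ (by rw [hIU]; exact_mod_cast h4))
    exact hno1 (by rw [pow_one]; exact h5)
  -- squares of all polynomials without constant term
  have hu2 : ∀ u : P, aug u = 0 → u * u ∈ J := by
    intro u hu
    have h1 := hJT.subst _ (subAll_isSubst hu) _ hsq
    rw [map_pow, subAll_X, pow_two] at h1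
    exact h1
  have huv : ∀ u v : P, aug u = 0 → aug v = 0 → u * v + v * u ∈ J := by
    intro u v hu hv
    have h1 := hu2 (u + v) (by rw [map_add, hu, hv, add_zero])
    have h2 : u * v + v * u = (u + v) * (u + v) - u * u - v * v := by noncomm_ring
    rw [h2]
    exact J.sub_mem (J.sub_mem h1 (hu2 u hu)) (hu2 v hv)
  have hmul : ∀ u v : P, aug u = 0 → aug (u * v) = 0 := by
    intro u v hu
    rw [map_mul, hu, zero_mul]
  have e1 := huv (X 0) (X 1 * X 2) (aug_X 0) (hmul _ _ (aug_X 1))
  have e2 := huv (X 1) (X 2 * X 0) (aug_X 1) (hmul _ _ (aug_X 2))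
  have e3 := huv (X 2) (X 0 * X 1) (aug_X 2) (hmul _ _ (aug_X 0))
  have e4 : (2 : ℤ) • (X 0 * X 1 * X 2) ∈ J := by
    have h1 : (2 : ℤ) • (X 0 * X 1 * X 2) =
        (X 0 * (X 1 * X 2) + X 1 * X 2 * X 0) - (X 1 * (X 2 * X 0) + X 2 * X 0 * X 1) +
          (X 2 * (X 0 * X 1) + X 0 * X 1 * X 2) := by
      noncomm_ring
    rw [h1]
    exact J.add_mem (J.sub_mem e1 e2) e3
  exact (hIJ _).mp (htorz 2 _ (by norm_num) e4)

end AD
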