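import Pool.Agent.AD.ComC2

namespace AD

private lemma ov_mm_pow_mem (p e : ℕ) :
    comp p (X 0 ^ e) ∈ (mm (ZMod p)) ^ e := by
  rw [map_pow]
  apply Ideal.pow_mem_pow
  have : comp p (X 0) = MvPolynomial.X 0 := by
    simp [comp, X]
  rw [this]
  exact Ideal.subset_span ⟨0, rfl⟩

private lemma ov_aug_X (i : ℕ) : aug (X i) = 0 := by
  simp [aug, X]

private lemma ov_mem_TC (p : ℕ) : X 0 ^ (p ^ 2 + p + 2) ∈ TC p := by
  refine ⟨?_, ?_⟩
  · change aug (X 0 ^ (p ^ 2 + p + 2)) = 0
    rw [map_pow, ov_aug_X, zero_pow (by omega)]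
  · change comp p (X 0 ^ (p ^ 2 + p + 2)) ∈ (mm (ZMod p)) ^ (p ^ 2 + p + 2)
    exact ov_mm_pow_mem p _

private lemma ov_exists_ne (p : ℕ) [Fact p.Prime] (F : MvPolynomial ℕ (ZMod p)) (hF : F ≠ 0) :
    ∃ b : ℕ → Polynomial (ZMod p),
      MvPolynomial.aeval (fun i => Polynomial.X * b i) F ≠ 0 := by
  by_contra hcon
  push Not at hcon
  apply hF
  have hinj : Function.Injective (MvPolynomial.map (σ := ℕ) (Polynomial.C : ZMod p →+* _)) :=
    MvPolynomial.map_injective _ Polynomial.C_injective
  apply hinj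
  rw [map_zero]
  have hinf : ∀ _i : ℕ, (Set.range (fun b : Polynomial (ZMod p) => Polynomial.X * b)).Infinite := by
    intro _
    apply Set.infinite_range_of_injective
    intro a b hab
    exact mul_left_cancel₀ Polynomial.X_ne_zero hab
  apply MvPolynomial.funext_set (s := fun _ : ℕ =>
    Set.range (fun b : Polynomial (ZMod p) => Polynomial.X * b)) hinf
  intro x hx
  choose b hb using fun i => hx i (Set.mem_univ i)
  have hx' : x = fun i => Polynomial.X * b i := funext fun i => (hb i).symm
  rw [hx', MvPolynomial.eval_map]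
  have := hcon b
  rw [MvPolynomial.aeval_def] at this
  rw [map_zero]
  exact this

/-- AD-12: a one-variable identity. -/
theorem one_var {I : Submodule ℤ P} (hI : AlmDist I) (p : ℕ) [Fact p.Prime] :
    ∃ g : Polynomial ℤ, g.coeff 0 = 0 ∧ g.map (Int.castRingHom (ZMod p)) ≠ 0 ∧
      Polynomial.aeval (X 0) g ∈ I := by
  obtain ⟨hT, hn, hd⟩ := hI
  by_cases hle : I ≤ TC p
  · have hEq : I = TC p := by
      rcases hle.lt_or_eq with h | h
      · exact absurd (hd _ (isT_TC p) h) (not_dist_TC p)
      · exact h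
    refine ⟨Polynomial.X ^ (p ^ 2 + p + 2), ?_, ?_, ?_⟩
    · rw [Polynomial.coeff_X_pow, if_neg (by omega)]
    · rw [Polynomial.map_pow, Polynomial.map_X]
      exact pow_ne_zero _ Polynomial.X_ne_zero
    · rw [map_pow, Polynomial.aeval_X, hEq]
      exact ov_mem_TC p
  · obtain ⟨f, hfI, hfT⟩ := Set.not_subset.1 hle
    have hfP : f ∈ Pp := hT.le hfI
    have hF : comp p f ≠ 0 := by
      intro h0
      apply hfT
      refine ⟨hfP, ?_⟩
      change comp p f ∈ (mm (ZMod p)) ^ (p ^ 2 + p + 2)
      rw [h0]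
      exact Submodule.zero_mem _
    obtain ⟨b, hb⟩ := ov_exists_ne p _ hF
    have hsurj : ∀ i, ∃ c : Polynomial ℤ, c.map (Int.castRingHom (ZMod p)) = b i := fun i =>
      Polynomial.map_surjective _ (ZMod.ringHom_surjective _) (b i)
    choose c hc using hsurj
    set L : P →ₐ[ℤ] Polynomial ℤ := FreeAlgebra.lift ℤ (fun i => Polynomial.X * c i) with hL
    set φ : P →ₐ[ℤ] P := (Polynomial.aeval (X 0)).comp L with hφ
    have hLX : ∀ i, L (X i) = Polynomial.X * c i := by
      intro i
      simp [hL, X]
    refine ⟨L f, ?_, ?_, ?_⟩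
    · have h1 : (Polynomial.aeval (0 : ℤ)).comp L = aug := by
        apply FreeAlgebra.hom_ext
        funext i
        change Polynomial.aeval (0 : ℤ) (L (X i)) = aug (X i)
        rw [hLX, map_mul, Polynomial.aeval_X, zero_mul, ov_aug_X]
      have h2 : Polynomial.aeval (0 : ℤ) (L f) = 0 := by
        have h3 : (Polynomial.aeval (0 : ℤ)).comp L f = 0 := by
          rw [h1]
          exact hfP
        exact h3
      rw [Polynomial.coeff_zero_eq_eval_zero]
      rw [Polynomial.coe_aeval_eq_eval] at h2
      exact h2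
    · intro h0
      apply hb
      have h1 : ((MvPolynomial.aeval (fun i => Polynomial.X * b i) :
          MvPolynomial ℕ (ZMod p) →ₐ[ZMod p] Polynomial (ZMod p)).toRingHom.comp
            (comp p).toRingHom).toIntAlgHom =
          (((Polynomial.mapRingHom (Int.castRingHom (ZMod p))).comp L.toRingHom)).toIntAlgHom := by
        apply FreeAlgebra.hom_ext
        funext i
        change MvPolynomial.aeval (fun i => Polynomial.X * b i) (comp p (X i)) =
          Polynomial.map (Int.castRingHom (ZMod p)) (L (X i))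
        rw [hLX, Polynomial.map_mul, Polynomial.map_X, hc]
        have : comp p (X i) = MvPolynomial.X i := by
          simp [comp, X]
        rw [this, MvPolynomial.aeval_X]
      have h2 := DFunLike.congr_fun h1 f
      change MvPolynomial.aeval (fun i => Polynomial.X * b i) (comp p f) =
          Polynomial.map (Int.castRingHom (ZMod p)) (L f) at h2
      rw [h2, h0]
    · have h1 : Polynomial.aeval (X 0) (L f) = φ f := rfl
      rw [h1]
      apply hT.subst φ _ f hfI
      intro i
      change aug (Polynomial.aeval (X 0) (L (X i))) = 0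
      rw [hLX, map_mul, Polynomial.aeval_X, map_mul, ov_aug_X, zero_mul]

end AD
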