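import Pool.Agent.AD.Words

namespace AD

/-- a substitution into `Pn n` maps monomials of nonempty words into `Pn n` -/
theorem kill_mon_mem {n : ℕ} {φ : P →ₐ[ℤ] P} (hφ : ∀ i, φ (X i) ∈ Pn n) :
    ∀ w : List ℕ, w ≠ [] → φ (mon w) ∈ Pn n
  | [], h => absurd rfl h
  | [a], _ => by
    have h1 : mon [a] = X a := by simp [mon]
    rw [h1]; exact hφ a
  | a :: b :: w, _ => by
    have h1 : mon (a :: b :: w) = X a * mon (b :: w) := by
      simp only [mon, List.map_cons, List.prod_cons]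
    rw [h1, map_mul]
    exact Pn_mul (hφ a) (kill_mon_mem hφ (b :: w) (List.cons_ne_nil _ _))

/-- a substitution into `Pn n` maps `Pp` into `Pn n` -/
theorem kill_Pp_mem {n : ℕ} {φ : P →ₐ[ℤ] P} (hφ : ∀ i, φ (X i) ∈ Pn n) {f : P} (hf : f ∈ Pp) :
    φ f ∈ Pn n := by
  obtain ⟨m, hm⟩ := exists_mem_Pn hf
  refine Submodule.span_induction (p := fun x _ => φ x ∈ Pn n) ?_ ?_ ?_ ?_ hm
  · rintro x ⟨w, hw, -, rfl⟩
    exact kill_mon_mem hφ w hw
  · rw [map_zero]; exact (Pn n).zero_mem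
  · intro x y _ _ hx hy
    rw [map_add]; exact (Pn n).add_mem hx hy
  · intro c x _ hx
    rw [map_smul]; exact (Pn n).smul_mem c hx

/-- the constant term is invariant under substitutions -/
theorem kill_aug_subst {ψ : P →ₐ[ℤ] P} (hψ : IsSubst ψ) (f : P) : aug (ψ f) = aug f := by
  have h : aug.comp ψ = aug := by
    apply FreeAlgebra.hom_ext
    funext i
    have h1 : aug (ψ (X i)) = 0 := hψ i
    have h2 : aug (X i) = 0 := by simp [aug, X]
    simp only [Function.comp_apply, AlgHom.comp_apply]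
    exact h1.trans h2.symm
  have := congrArg (fun g : P →ₐ[ℤ] ℤ => g f) h
  simpa using this

theorem kill_mem_Pp_iff {f : P} : f ∈ Pp ↔ aug f = 0 := Iff.rfl

/-- AD-3b: the identities of the relatively free ring of rank `n`. -/
theorem exists_kill {I : Submodule ℤ P} (hI : IsT I) (n : ℕ) :
    ∃ K, IsT K ∧ ∀ f, f ∈ K ↔ f ∈ Pp ∧ ∀ φ : P →ₐ[ℤ] P, (∀ i, φ (X i) ∈ Pn n) → φ f ∈ I := by
  refine ⟨{ carrier := {f | f ∈ Pp ∧ ∀ φ : P →ₐ[ℤ] P, (∀ i, φ (X i) ∈ Pn n) → φ f ∈ I}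
            add_mem' := ?_
            zero_mem' := ?_
            smul_mem' := ?_ }, ⟨?_, ?_, ?_, ?_⟩, fun f => Iff.rfl⟩
  · rintro f g ⟨hf, hf'⟩ ⟨hg, hg'⟩
    refine ⟨Pp.add_mem hf hg, fun φ hφ => ?_⟩
    rw [map_add]
    exact I.add_mem (hf' φ hφ) (hg' φ hφ)
  · exact ⟨Pp.zero_mem, fun φ _ => by rw [map_zero]; exact I.zero_mem⟩
  · rintro c f ⟨hf, hf'⟩
    refine ⟨Pp.smul_mem c hf, fun φ hφ => ?_⟩
    rw [map_smul]
    exact I.smul_mem c (hf' φ hφ)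
  · intro f hf
    exact hf.1
  · rintro f ⟨hf, hf'⟩ g
    refine ⟨?_, fun φ hφ => ?_⟩
    · rw [kill_mem_Pp_iff] at hf ⊢
      rw [map_mul, hf, zero_mul]
    · rw [map_mul]
      exact hI.mul_right _ (hf' φ hφ) _
  · rintro f ⟨hf, hf'⟩ g
    refine ⟨?_, fun φ hφ => ?_⟩
    · rw [kill_mem_Pp_iff] at hf ⊢
      rw [map_mul, hf, mul_zero]
    · rw [map_mul]
      exact hI.mul_left _ (hf' φ hφ) _
  · rintro ψ hψ f ⟨hf, hf'⟩
    refine ⟨?_, fun φ hφ => ?_⟩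
    · rw [kill_mem_Pp_iff] at hf ⊢
      rw [kill_aug_subst hψ, hf]
    · have := hf' (φ.comp ψ) (fun i => ?_)
      · simpa using this
      · rw [AlgHom.comp_apply]
        refine kill_Pp_mem hφ ?_
        rw [kill_mem_Pp_iff]
        exact hψ i

end AD
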