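import Pool.Agent.AD.Lat
import Pool.Agent.AD.Ess
import Pool.Agent.AD.Tlat
import Pool.Agent.AD.Kill

namespace AD

/-- AD-19: an almost distributive variety is generated by a relatively free ring of finite rank. -/
theorem gen {I : Submodule ℤ P} (hI : AlmDist I) : ∃ n : ℕ, ∀ f ∈ Pp,
    (∀ φ : P →ₐ[ℤ] P, (∀ i, φ (X i) ∈ Pn n) → φ f ∈ I) → f ∈ I := by
  obtain ⟨hT, hn, hd⟩ := hI
  have hi : ∀ x ∈ TI, ∀ y ∈ TI, x ⊓ y ∈ TI := fun x hx y hy => isT_inf hx hy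
  have hs : ∀ x ∈ TI, ∀ y ∈ TI, x ⊔ y ∈ TI := fun x hx y hy => isT_sup hx hy
  have hd' : ∀ d ∈ TI, I < d → DistOn TI d := fun d hd1 hd2 => hd d hd1 hd2
  obtain ⟨a, b, c, j, hdia⟩ := diamond TI hi hs I hT hn hd'
  choose K hKT hK using fun n => exists_kill hT n
  have hPn : ∀ n, Pn n ≤ Pp := Pn_le_Pp
  have hIK : ∀ n, I ≤ K n := by
    intro n f hf
    rw [hK]
    refine ⟨hT.le hf, fun φ hφ => hT.subst φ (fun i => ?_) f hf⟩
    exact hPn n (hφ i)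
  have hanti : Antitone K := by
    intro m n hmn f hf
    rw [hK] at hf ⊢
    exact ⟨hf.1, fun φ hφ => hf.2 φ fun i => Pn_mono hmn (hφ i)⟩
  have hex : ∃ n, K n ⊓ j = I := by
    by_contra hcon
    push Not at hcon
    obtain ⟨e, heT, hIe, he⟩ := hdia.chain hi hs hd' K hKT hanti hIK hcon
    obtain ⟨f, hfe, hfI⟩ := Set.exists_of_ssubset hIe
    have hfP : f ∈ Pp := IsT.le heT hfe
    obtain ⟨n, hfn⟩ := exists_mem_Pn hfP
    obtain ⟨ψ, -, -, -, hψ1, hψ2⟩ := exists_retract n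
    have h1 := ((hK n f).1 (he n hfe)).2 ψ (fun i => hψ2 _ (by
      show aug (X i) = 0
      simp [aug]))
    rw [hψ1 f hfn] at h1
    exact hfI h1
  obtain ⟨n, hn'⟩ := hex
  have hKn : K n = I := hdia.ess hi hs hd' (K n) (hKT n) (hIK n) hn'
  refine ⟨n, fun f hf h => ?_⟩
  rw [← hKn, hK]
  exact ⟨hf, h⟩

end AD
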