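import Pool.Agent.AD.Model
import Pool.Agent.AD.Fg
import Pool.Agent.AD.Gen

namespace AD

theorem finring_Pnl_le (n N : ℕ) : Pnl n N ≤ Pn n := by
  apply Submodule.span_mono
  rintro f ⟨w, h1, h2, -, h3⟩
  exact ⟨w, h1, h2, h3⟩

theorem finring_Pnl_fg (n N : ℕ) : (Pnl n N).FG := by
  apply Submodule.fg_span
  apply Set.Finite.subset ((List.finite_length_lt (Fin n) N).image
    (fun l : List (Fin n) => mon (l.map (fun i : Fin n => (i : ℕ)))))
  rintro f ⟨w, -, h2, h3, rfl⟩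
  refine ⟨w.pmap (fun a ha => (⟨a, ha⟩ : Fin n)) h2, ?_, ?_⟩
  · simpa using h3
  · have e : (w.pmap (fun a ha => (⟨a, ha⟩ : Fin n)) h2).map (fun i : Fin n => (i : ℕ)) = w := by
      rw [List.map_pmap]
      simp
    show mon ((w.pmap (fun a ha => (⟨a, ha⟩ : Fin n)) h2).map (fun i : Fin n => (i : ℕ))) = mon w
    rw [e]

/-- AD-21: a finite ring generating the variety. -/
theorem exists_finite {I : Submodule ℤ P} (hI : AlmDist I) :
    ∃ (p k : ℕ) (R : Type) (_ : NonUnitalRing R), p.Prime ∧ Finite R ∧ Nat.card R = p ^ k ∧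
      ∀ f ∈ Pp, Sat R f ↔ f ∈ I := by
  obtain ⟨n, hn⟩ := gen hI
  obtain ⟨p, a, hp, hpa, hN⟩ := fg hI
  obtain ⟨N, hN⟩ := hN n
  obtain ⟨R, inst, π, hπ, hker, hsat⟩ := model hI.1 (Pn n) (Pn_le_Pp n)
    (fun a ha b hb => Pn_mul ha hb)
  have hexp : ∀ x : R, (p ^ a) • x = 0 := by
    intro x
    obtain ⟨w, rfl⟩ := hπ x
    rw [← map_nsmul, hker]
    apply hpa
    refine ⟨(w : P), Pn_le_Pp n w.2, ?_⟩
    simp [LinearMap.lsmul_apply]
  have hmodfin : Module.Finite ℤ R := by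
    have : Module.Finite ℤ (Pnl n N) := Module.Finite.iff_fg.2 (finring_Pnl_fg n N)
    apply Module.Finite.of_surjective
      (π.toIntLinearMap ∘ₗ Submodule.inclusion (finring_Pnl_le n N))
    intro x
    obtain ⟨w, rfl⟩ := hπ x
    obtain ⟨i, hi, v, hv, hiv⟩ := Submodule.mem_sup.1 (hN w.2)
    refine ⟨⟨v, hv⟩, ?_⟩
    simp only [LinearMap.comp_apply, AddMonoidHom.coe_toIntLinearMap]
    have h0 : π (w - Submodule.inclusion (finring_Pnl_le n N) ⟨v, hv⟩) = 0 := by
      rw [hker]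
      have : ((w - Submodule.inclusion (finring_Pnl_le n N) ⟨v, hv⟩ : Pn n) : P) = i := by
        simp only [Submodule.coe_sub, Submodule.coe_inclusion]
        rw [← hiv]
        simp
      rw [this]
      exact hi
    rw [map_sub, sub_eq_zero] at h0
    exact h0.symm
  have hfin : Finite R := by
    apply Module.finite_of_fg_torsion
    intro x
    refine ⟨⟨((p ^ a : ℕ) : ℤ), ?_⟩, ?_⟩
    · rw [mem_nonZeroDivisors_iff_ne_zero]
      exact_mod_cast pow_ne_zero a hp.ne_zero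
    · show ((p ^ a : ℕ) : ℤ) • x = 0
      rw [natCast_zsmul]
      exact hexp x
  have := Fact.mk hp
  have hpg : IsPGroup p (Multiplicative R) := by
    intro g
    refine ⟨a, ?_⟩
    have := hexp (Multiplicative.toAdd g)
    rw [← ofAdd_toAdd g, ← ofAdd_nsmul, this, ofAdd_zero]
  obtain ⟨k, hk⟩ := IsPGroup.iff_card.1 hpg
  refine ⟨p, k, R, inst, hp, hfin, hk, ?_⟩
  intro f hf
  rw [hsat f hf]
  constructor
  · exact hn f hf
  · intro hfI φ hφ
    apply hI.1.subst φ _ f hfI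
    intro i
    have := Pn_le_Pp n (hφ i)
    exact this

end AD
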