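import Pool.Agent.AD.Defs

namespace AD

/-- AD-1. -/
theorem diamond {L : Type*} [Lattice L] [IsModularLattice L] (S : Set L)
    (hi : ∀ x ∈ S, ∀ y ∈ S, x ⊓ y ∈ S) (hs : ∀ x ∈ S, ∀ y ∈ S, x ⊔ y ∈ S) (o : L) (ho : o ∈ S)
    (hn : ¬ DistOn S o) (hd : ∀ d ∈ S, o < d → DistOn S d) :
    ∃ a b c j, Dia S o a b c j := by
  unfold DistOn at hn
  push Not at hn
  obtain ⟨x, hx, b, hb, c, hc, ox, ob, oc, hne⟩ := hn
  -- the modular law: for w ≤ u, u ⊓ (v ⊔ w) = (u ⊓ v) ⊔ w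
  have ml : ∀ u v w : L, w ≤ u → u ⊓ (v ⊔ w) = (u ⊓ v) ⊔ w := fun u v w h => by
    rw [inf_comm u (v ⊔ w), sup_comm v w, sup_inf_assoc_of_le v h, inf_comm v u, sup_comm]
  -- Step 1: (x ⊓ b) ⊔ (x ⊓ c) = o
  have hle : (x ⊓ b) ⊔ (x ⊓ c) ≤ x ⊓ (b ⊔ c) :=
    sup_le (inf_le_inf_left _ le_sup_left) (inf_le_inf_left _ le_sup_right)
  have hXS : (x ⊓ b) ⊔ (x ⊓ c) ∈ S := hs _ (hi _ hx _ hb) _ (hi _ hx _ hc)
  have hoX : o ≤ (x ⊓ b) ⊔ (x ⊓ c) := le_sup_of_le_left (le_inf ox ob)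
  have hXx : (x ⊓ b) ⊔ (x ⊓ c) ≤ x := sup_le inf_le_left inf_le_left
  have hX : o = (x ⊓ b) ⊔ (x ⊓ c) := by
    by_contra hcon
    have hlt : o < (x ⊓ b) ⊔ (x ⊓ c) := lt_of_le_of_ne hoX hcon
    have hD := hd _ hXS hlt x hx _ (hs _ hb _ hXS) _ (hs _ hc _ hXS) hXx le_sup_right le_sup_right
    rw [ml _ _ _ hXx, ml _ _ _ hXx, sup_eq_right.2 (le_sup_left : x ⊓ b ≤ (x ⊓ b) ⊔ (x ⊓ c)),
      sup_eq_right.2 (le_sup_right : x ⊓ c ≤ (x ⊓ b) ⊔ (x ⊓ c)), sup_idem] at hD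
    apply hne
    refine le_antisymm ?_ hle
    calc x ⊓ (b ⊔ c) ≤ x ⊓ ((b ⊔ ((x ⊓ b) ⊔ (x ⊓ c))) ⊔ (c ⊔ ((x ⊓ b) ⊔ (x ⊓ c)))) :=
          inf_le_inf_left _ (sup_le_sup le_sup_left le_sup_left)
      _ = _ := hD
  have hxb : x ⊓ b = o := le_antisymm (by rw [hX]; exact le_sup_left) (le_inf ox ob)
  have hxc : x ⊓ c = o := le_antisymm (by rw [hX]; exact le_sup_right) (le_inf ox oc)
  -- a
  obtain ⟨a, rfl⟩ : ∃ a, a = x ⊓ (b ⊔ c) := ⟨_, rfl⟩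
  have ha : x ⊓ (b ⊔ c) ∈ S := hi _ hx _ (hs _ hb _ hc)
  generalize hae : x ⊓ (b ⊔ c) = a at *
  have abc : a ≤ b ⊔ c := by rw [← hae]; exact inf_le_right
  have ax : a ≤ x := by rw [← hae]; exact inf_le_left
  have hoa : o ≤ a := by rw [← hae]; exact le_inf ox (le_sup_of_le_left ob)
  have oa : o < a := lt_of_le_of_ne hoa (fun h => hne (by rw [← h, hxb, hxc, sup_idem]))
  have hab : a ⊓ b = o := le_antisymm (by rw [← hxb]; exact inf_le_inf_right _ ax) (le_inf hoa ob)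
  have hac : a ⊓ c = o := le_antisymm (by rw [← hxc]; exact inf_le_inf_right _ ax) (le_inf hoa oc)
  -- Step 2: b ⊓ c = o
  have hbc : b ⊓ c = o := by
    by_contra hcon
    have hlt : o < b ⊓ c := lt_of_le_of_ne (le_inf ob oc) (fun h => hcon h.symm)
    have hdS : b ⊓ c ∈ S := hi _ hb _ hc
    have hD := hd _ hdS hlt _ (hs _ ha _ hdS) _ hb _ hc le_sup_right inf_le_left inf_le_right
    have e1 : (a ⊔ b ⊓ c) ⊓ (b ⊔ c) = a ⊔ b ⊓ c :=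
      inf_eq_left.2 (sup_le abc (inf_le_left.trans le_sup_left))
    have e2 : (a ⊔ b ⊓ c) ⊓ b = b ⊓ c := by
      rw [inf_comm, ml b a (b ⊓ c) inf_le_left, inf_comm b a, hab]
      exact sup_eq_right.2 hlt.le
    have e3 : (a ⊔ b ⊓ c) ⊓ c = b ⊓ c := by
      rw [inf_comm, ml c a (b ⊓ c) inf_le_right, inf_comm c a, hac]
      exact sup_eq_right.2 hlt.le
    rw [e1, e2, e3, sup_idem] at hD
    have h1 : a ≤ b := le_sup_left.trans (hD.le.trans inf_le_left)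
    have h2 : a = o := by rw [← hab]; exact (inf_eq_left.2 h1).symm
    exact absurd h2 oa.ne'
  -- the diamond
  have hjb : a ⊔ b ⊓ (a ⊔ c) = (a ⊔ b) ⊓ (a ⊔ c) := (sup_inf_assoc_of_le b le_sup_left).symm
  have hjc : a ⊔ c ⊓ (a ⊔ b) = (a ⊔ b) ⊓ (a ⊔ c) := by
    rw [inf_comm (a ⊔ b)]
    exact (sup_inf_assoc_of_le c le_sup_left).symm
  have hjbc : b ⊓ (a ⊔ c) ⊔ c ⊓ (a ⊔ b) = (a ⊔ b) ⊓ (a ⊔ c) := by
    have e1 : b ⊓ (a ⊔ c) ⊔ c ⊓ (a ⊔ b) = (a ⊔ c) ⊓ (b ⊔ c ⊓ (a ⊔ b)) := by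
      rw [ml _ _ _ (inf_le_left.trans le_sup_right : c ⊓ (a ⊔ b) ≤ a ⊔ c), inf_comm b]
    have e2 : b ⊔ c ⊓ (a ⊔ b) = a ⊔ b := by
      rw [← sup_inf_assoc_of_le c (le_sup_right : b ≤ a ⊔ b)]
      exact inf_eq_right.2 (sup_le abc le_sup_left)
    rw [e1, e2, inf_comm]
  have ob' : o ≤ b ⊓ (a ⊔ c) := le_inf ob (le_sup_of_le_left hoa)
  have oc' : o ≤ c ⊓ (a ⊔ b) := le_inf oc (le_sup_of_le_left hoa)
  have hab' : a ⊓ (b ⊓ (a ⊔ c)) = o :=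
    le_antisymm (by rw [← hab]; exact inf_le_inf_left _ inf_le_left) (le_inf hoa ob')
  have hac' : a ⊓ (c ⊓ (a ⊔ b)) = o :=
    le_antisymm (by rw [← hac]; exact inf_le_inf_left _ inf_le_left) (le_inf hoa oc')
  have hbc' : (b ⊓ (a ⊔ c)) ⊓ (c ⊓ (a ⊔ b)) = o :=
    le_antisymm (by rw [← hbc]; exact inf_le_inf inf_le_left inf_le_left) (le_inf ob' oc')
  have haj : a ≤ (a ⊔ b) ⊓ (a ⊔ c) := le_inf le_sup_left le_sup_left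
  have nb : o ≠ b ⊓ (a ⊔ c) := by
    intro h
    rw [← h, sup_eq_left.2 hoa] at hjb
    rw [← h] at hjbc
    rw [← hjb] at hjc hjbc
    have h1 : c ⊓ (a ⊔ b) ≤ a := le_sup_right.trans hjc.le
    have h2 : c ⊓ (a ⊔ b) = o := by rw [← hac']; exact (inf_eq_right.2 h1).symm
    rw [h2, sup_idem] at hjbc
    exact oa.ne hjbc
  have nc : o ≠ c ⊓ (a ⊔ b) := by
    intro h
    rw [← h, sup_eq_left.2 hoa] at hjc
    rw [← h] at hjbc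
    rw [← hjc] at hjb hjbc
    have h1 : b ⊓ (a ⊔ c) ≤ a := le_sup_right.trans hjb.le
    have h2 : b ⊓ (a ⊔ c) = o := by rw [← hab']; exact (inf_eq_right.2 h1).symm
    rw [h2, sup_idem] at hjbc
    exact oa.ne hjbc
  exact ⟨a, b ⊓ (a ⊔ c), c ⊓ (a ⊔ b), (a ⊔ b) ⊓ (a ⊔ c), ho, ha, hi _ hb _ (hs _ ha _ hc),
    hi _ hc _ (hs _ ha _ hb), hi _ (hs _ ha _ hb) _ (hs _ ha _ hc), oa, lt_of_le_of_ne ob' nb,
    lt_of_le_of_ne oc' nc, hab', hbc', hac', hjb, hjbc, hjc⟩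

end AD
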