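import Pool.Agent.AD.Defs

namespace AD

private theorem pow_sum_ofFn {A : Type*} [Ring A] (D : ℕ) (v : Fin D → A) (m : ℕ) :
    (∑ i, v i) ^ m = ∑ h : Fin m → Fin D, (List.ofFn (fun j => v (h j))).prod := by
  induction m with
  | zero => simp
  | succ m ih =>
    rw [pow_succ', ih, Finset.sum_mul_sum, ← Fintype.sum_prod_type'
      (f := fun (i : Fin D) (h : Fin m → Fin D) => v i * (List.ofFn (fun j => v (h j))).prod)]
    refine Fintype.sum_equiv (Fin.consEquiv fun _ => Fin D) _ _ fun x => ?_
    simp [List.ofFn_succ, Fin.consEquiv]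

private theorem prod_ofFn_ite {A : Type*} [Ring A] (D : ℕ) (u : Fin D → A) (T : Finset (Fin D))
    (m : ℕ) (h : Fin m → Fin D) :
    (List.ofFn (fun j => if h j ∈ T then u (h j) else 0)).prod =
      if Finset.univ.image h ⊆ T then (List.ofFn (fun j => u (h j))).prod else 0 := by
  by_cases hT : Finset.univ.image h ⊆ T
  · rw [if_pos hT]
    refine congrArg List.prod (congrArg List.ofFn (funext fun j => ?_))
    exact if_pos (hT (Finset.mem_image_of_mem h (Finset.mem_univ j)))
  · rw [if_neg hT]
    have h1 : ∃ j, h j ∉ T := by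
      by_contra hc
      push Not at hc
      refine hT fun x hx => ?_
      obtain ⟨j, _, rfl⟩ := Finset.mem_image.1 hx
      exact hc j
    obtain ⟨j, hj⟩ := h1
    refine List.prod_eq_zero ?_
    rw [List.mem_ofFn]
    exact ⟨j, if_neg hj⟩

private theorem sum_above (D : ℕ) (S : Finset (Fin D)) :
    ∑ T : Finset (Fin D), (if S ⊆ T then (-1 : ℤ) ^ (D - T.card) else 0) =
      if S = Finset.univ then 1 else 0 := by
  have h1 : ∑ T : Finset (Fin D), (if S ⊆ T then (-1 : ℤ) ^ (D - T.card) else 0) =
      ∑ T : Finset (Fin D), (if T ⊆ Sᶜ then (-1 : ℤ) ^ T.card else 0) := by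
    refine Fintype.sum_bijective compl compl_bijective _ _ fun T => ?_
    rw [Finset.card_compl, Fintype.card_fin]
    by_cases hS : S ⊆ T
    · rw [if_pos hS, if_pos (Finset.compl_subset_compl.2 hS)]
    · rw [if_neg hS, if_neg (fun h => hS (Finset.compl_subset_compl.1 h))]
  rw [h1, ← Finset.sum_filter]
  have h3 : (Finset.univ.filter fun T : Finset (Fin D) => T ⊆ Sᶜ) = Sᶜ.powerset := by
    ext T
    simp
  rw [h3, Finset.sum_powerset_neg_one_pow_card]
  by_cases hS : S = Finset.univ
  · simp [hS]
  · rw [if_neg hS, if_neg]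
    intro h
    exact hS (by simpa using h)

/-- AD-15 (a): the full linearisation of a power in a noncommutative ring. -/
theorem sum_pow_subsets {A : Type*} [Ring A] (D m : ℕ) (u : Fin D → A) (hm : m ≤ D) :
    ∑ T : Finset (Fin D), (-1 : ℤ) ^ (D - T.card) • (∑ i ∈ T, u i) ^ m =
      if m = D then ∑ σ : Equiv.Perm (Fin D), (List.ofFn (fun i => u (σ i))).prod else 0 := by
  have h1 : ∀ T : Finset (Fin D), (-1 : ℤ) ^ (D - T.card) • (∑ i ∈ T, u i) ^ m =
      ∑ h : Fin m → Fin D, (if Finset.univ.image h ⊆ T then (-1 : ℤ) ^ (D - T.card) else 0) •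
        (List.ofFn (fun j => u (h j))).prod := by
    intro T
    have h2 : ∑ i ∈ T, u i = ∑ i, (if i ∈ T then u i else 0) := by
      rw [← Finset.sum_filter]
      simp
    rw [h2, pow_sum_ofFn, Finset.smul_sum]
    refine Finset.sum_congr rfl fun h _ => ?_
    rw [prod_ofFn_ite]
    by_cases hT : Finset.univ.image h ⊆ T
    · rw [if_pos hT, if_pos hT]
    · rw [if_neg hT, if_neg hT, smul_zero, zero_smul]
  rw [Finset.sum_congr rfl fun T _ => h1 T, Finset.sum_comm]
  have h3 : ∀ h : Fin m → Fin D, ∑ T : Finset (Fin D),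
      (if Finset.univ.image h ⊆ T then (-1 : ℤ) ^ (D - T.card) else 0) •
        (List.ofFn (fun j => u (h j))).prod =
      if Function.Surjective h then (List.ofFn (fun j => u (h j))).prod else 0 := by
    intro h
    rw [← Finset.sum_smul, sum_above]
    by_cases hs : Function.Surjective h
    · rw [if_pos hs, if_pos (Finset.image_univ_of_surjective hs), one_smul]
    · rw [if_neg hs, if_neg, zero_smul]
      intro hc
      refine hs fun x => ?_
      have : x ∈ Finset.univ.image h := by
        rw [hc]
        exact Finset.mem_univ x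
      obtain ⟨j, _, hj⟩ := Finset.mem_image.1 this
      exact ⟨j, hj⟩
  rw [Finset.sum_congr rfl fun h _ => h3 h]
  by_cases hmD : m = D
  · subst hmD
    rw [if_pos rfl, ← Finset.sum_filter]
    symm
    refine Finset.sum_bij (fun σ _ => (σ : Fin m → Fin m)) ?_ ?_ ?_ ?_
    · intro σ _
      exact Finset.mem_filter.2 ⟨Finset.mem_univ _, σ.surjective⟩
    · intro σ _ τ _ h
      exact Equiv.coe_fn_injective h
    · intro h hh
      have hs := (Finset.mem_filter.1 hh).2
      exact ⟨Equiv.ofBijective h ⟨Finite.injective_iff_surjective.2 hs, hs⟩, Finset.mem_univ _,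
        rfl⟩
    · intro σ _
      rfl
  · rw [if_neg hmD]
    refine Finset.sum_eq_zero fun h _ => if_neg fun hs => ?_
    have := Fintype.card_le_of_surjective h hs
    simp at this
    omega

end AD
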