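import Pool.Agent.AD.Lin
import Pool.Agent.AD.Tlat

namespace AD

private theorem lin2_mem_Pp {u : P} : u ∈ Pp ↔ aug u = 0 := Iff.rfl

private theorem lin2_pow_mem {u : P} (hu : u ∈ Pp) {m : ℕ} (hm : 1 ≤ m) : u ^ m ∈ Pp := by
  rw [lin2_mem_Pp] at *
  rw [map_pow, hu, zero_pow (by omega)]

private theorem lin2_eval_mem {I : Submodule ℤ P} (hI : IsT I) (g : Polynomial ℤ)
    (hg : Polynomial.aeval (X 0) g ∈ I) {u : P} (hu : u ∈ Pp) : Polynomial.aeval u g ∈ I := by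
  set φ : P →ₐ[ℤ] P := FreeAlgebra.lift ℤ (fun i => if i = 0 then u else X i) with hφ
  have hs : IsSubst φ := by
    intro i
    have h1 : φ (X i) = if i = 0 then u else X i := by
      simp [hφ, X]
    rw [h1]
    split_ifs
    · exact lin2_mem_Pp.1 hu
    · simp [aug, X]
  have h2 := hI.subst φ hs _ hg
  have h3 : φ (Polynomial.aeval (X 0) g) = Polynomial.aeval u g := by
    rw [← Polynomial.aeval_algHom_apply]
    congr 1
    have : φ (X 0) = u := by simp [hφ, X]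
    rw [this]
  rwa [h3] at h2

/-- AD-16: consequences modulo `p` of a one-variable identity. -/
theorem lin {I : Submodule ℤ P} (hI : IsT I) (p : ℕ) [Fact p.Prime] (g : Polynomial ℤ)
    (hg0 : g.coeff 0 = 0) (hgp : g.map (Int.castRingHom (ZMod p)) ≠ 0)
    (hg : Polynomial.aeval (X 0) g ∈ I) :
    ∃ (D : ℕ) (b : ℕ → ℤ), 1 ≤ D ∧
      (∀ u ∈ Pp, u ^ D + ∑ m ∈ Finset.Ico 1 D, b m • u ^ m ∈ I ⊔ mulI p Pp) ∧
      (∀ u : Fin D → P, (∀ i, u i ∈ Pp) →
        ∑ σ : Equiv.Perm (Fin D), (List.ofFn (fun i => u (σ i))).prod ∈ I ⊔ mulI p Pp) := by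
  classical
  set gp := g.map (Int.castRingHom (ZMod p)) with hgpdef
  set D := gp.natDegree with hD
  have hp : p.Prime := Fact.out
  have hcD : gp.coeff D ≠ 0 := by
    rw [hD]; exact Polynomial.leadingCoeff_ne_zero.2 hgp
  have hD1 : 1 ≤ D := by
    by_contra hlt
    have h0 : D = 0 := by omega
    rw [h0] at hcD
    apply hcD
    rw [hgpdef, Polynomial.coeff_map, hg0, map_zero]
  have hDle : D ≤ g.natDegree := by
    rw [hD, hgpdef]; exact Polynomial.natDegree_map_le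
  -- inverse of the leading coefficient
  have hcD' : ((g.coeff D : ℤ) : ZMod p) ≠ 0 := by
    rw [hgpdef, Polynomial.coeff_map] at hcD
    simpa using hcD
  obtain ⟨c', hc'⟩ : ∃ c' : ℤ, ((c' * g.coeff D : ℤ) : ZMod p) = 1 := by
    obtain ⟨c', hc'⟩ := ZMod.intCast_surjective (((g.coeff D : ℤ) : ZMod p)⁻¹)
    refine ⟨c', ?_⟩
    push_cast
    rw [hc']
    exact inv_mul_cancel₀ hcD'
  obtain ⟨t, ht⟩ : ∃ t : ℤ, c' * g.coeff D = 1 + p * t := by
    have h1 : ((c' * g.coeff D - 1 : ℤ) : ZMod p) = 0 := by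
      rw [Int.cast_sub, hc', Int.cast_one, sub_self]
    rw [ZMod.intCast_zmod_eq_zero_iff_dvd] at h1
    obtain ⟨t, ht⟩ := h1
    exact ⟨t, by linarith⟩
  have hdiv : ∀ m, D < m → ∃ s : ℤ, c' * g.coeff m = p * s := by
    intro m hm
    have h1 : gp.coeff m = 0 := Polynomial.coeff_eq_zero_of_natDegree_lt hm
    rw [hgpdef, Polynomial.coeff_map] at h1
    have h2 : ((g.coeff m : ℤ) : ZMod p) = 0 := by simpa using h1
    rw [ZMod.intCast_zmod_eq_zero_iff_dvd] at h2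
    obtain ⟨s, hs⟩ := h2
    exact ⟨c' * s, by rw [hs]; ring⟩
  have hmul : ∀ (s : ℤ) (v : P), v ∈ Pp → ((p : ℤ) * s) • v ∈ I ⊔ mulI p Pp := by
    intro s v hv
    apply Submodule.mem_sup_right
    refine Submodule.mem_map.2 ⟨s • v, Pp.smul_mem s hv, ?_⟩
    rw [LinearMap.lsmul_apply, smul_smul]
  have key : ∀ u ∈ Pp, u ^ D + ∑ m ∈ Finset.Ico 1 D, (c' * g.coeff m) • u ^ m
      ∈ I ⊔ mulI p Pp := by
    intro u hu
    have h1 : c' • Polynomial.aeval u g ∈ I ⊔ mulI p Pp :=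
      Submodule.mem_sup_left (I.smul_mem _ (lin2_eval_mem hI g hg hu))
    have h2 : c' • Polynomial.aeval u g =
        ∑ m ∈ Finset.range (g.natDegree + 1), (c' * g.coeff m) • u ^ m := by
      rw [Polynomial.aeval_eq_sum_range, Finset.smul_sum]
      exact Finset.sum_congr rfl fun m _ => (mul_smul c' (g.coeff m) (u ^ m)).symm
    have h3 : ∑ m ∈ Finset.range (g.natDegree + 1), (c' * g.coeff m) • u ^ m =
        (∑ m ∈ Finset.Ico 1 D, (c' * g.coeff m) • u ^ m) + (c' * g.coeff D) • u ^ D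
          + ∑ m ∈ Finset.Ico (D + 1) (g.natDegree + 1), (c' * g.coeff m) • u ^ m := by
      rw [Finset.range_eq_Ico, ← Finset.sum_Ico_consecutive _ (Nat.zero_le (D + 1)) (by omega),
        Finset.sum_Ico_succ_top (Nat.zero_le D),
        ← Finset.sum_Ico_consecutive _ (Nat.zero_le 1) hD1]
      simp [hg0]
    have h4 : ∑ m ∈ Finset.Ico (D + 1) (g.natDegree + 1), (c' * g.coeff m) • u ^ m
        ∈ I ⊔ mulI p Pp := by
      refine Submodule.sum_mem _ fun m hm => ?_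
      rw [Finset.mem_Ico] at hm
      obtain ⟨s, hs⟩ := hdiv m (by omega)
      rw [hs]
      exact hmul s _ (lin2_pow_mem hu (by omega))
    have h5 : u ^ D + ∑ m ∈ Finset.Ico 1 D, (c' * g.coeff m) • u ^ m =
        c' • Polynomial.aeval u g
          - ∑ m ∈ Finset.Ico (D + 1) (g.natDegree + 1), (c' * g.coeff m) • u ^ m
          - ((p : ℤ) * t) • u ^ D := by
      rw [h2, h3, ht, add_smul, one_smul]
      abel
    rw [h5]
    exact Submodule.sub_mem _ (Submodule.sub_mem _ h1 h4) (hmul t _ (lin2_pow_mem hu hD1))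
  refine ⟨D, fun m => c' * g.coeff m, hD1, key, ?_⟩
  intro u hu
  have hM : ∀ T : Finset (Fin D), (-1 : ℤ) ^ (D - T.card) •
      ((∑ i ∈ T, u i) ^ D + ∑ m ∈ Finset.Ico 1 D, (c' * g.coeff m) • (∑ i ∈ T, u i) ^ m)
        ∈ I ⊔ mulI p Pp := by
    intro T
    refine Submodule.smul_mem _ _ (key _ ?_)
    exact Submodule.sum_mem _ fun i _ => hu i
  have hS := Submodule.sum_mem (I ⊔ mulI p Pp) (t := (Finset.univ : Finset (Finset (Fin D))))
    (fun T _ => hM T)
  have hEq : ∑ T : Finset (Fin D), (-1 : ℤ) ^ (D - T.card) •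
      ((∑ i ∈ T, u i) ^ D + ∑ m ∈ Finset.Ico 1 D, (c' * g.coeff m) • (∑ i ∈ T, u i) ^ m) =
      ∑ σ : Equiv.Perm (Fin D), (List.ofFn (fun i => u (σ i))).prod := by
    have h1 : ∑ T : Finset (Fin D), (-1 : ℤ) ^ (D - T.card) •
      ((∑ i ∈ T, u i) ^ D + ∑ m ∈ Finset.Ico 1 D, (c' * g.coeff m) • (∑ i ∈ T, u i) ^ m) =
      (∑ T : Finset (Fin D), (-1 : ℤ) ^ (D - T.card) • (∑ i ∈ T, u i) ^ D) +
      ∑ m ∈ Finset.Ico 1 D, (c' * g.coeff m) •
        ∑ T : Finset (Fin D), (-1 : ℤ) ^ (D - T.card) • (∑ i ∈ T, u i) ^ m := by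
      simp only [smul_add, Finset.sum_add_distrib, Finset.smul_sum]
      congr 1
      rw [Finset.sum_comm]
      refine Finset.sum_congr rfl fun m _ => Finset.sum_congr rfl fun T _ => ?_
      rw [smul_comm]
    rw [h1, sum_pow_subsets D D u le_rfl, if_pos rfl]
    have h2 : ∑ m ∈ Finset.Ico 1 D, (c' * g.coeff m) •
        ∑ T : Finset (Fin D), (-1 : ℤ) ^ (D - T.card) • (∑ i ∈ T, u i) ^ m = 0 := by
      refine Finset.sum_eq_zero fun m hm => ?_
      rw [Finset.mem_Ico] at hm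
      rw [sum_pow_subsets D m u hm.2.le, if_neg (by omega), smul_zero]
    rw [h2, add_zero]
  rwa [hEq] at hS

end AD
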