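import Pool.Agent.AD.Trans

namespace AD

private lemma tr2_mod_anti {S T : Set P} (h : S ⊆ T) : Mod T ⊆ Mod S :=
  fun _ hR f hf => hR f (h hf)

private lemma tr2_sat_add {R : Type} [NonUnitalRing R] {f g : P} (hf : Sat R f) (hg : Sat R g) :
    Sat R (f + g) := by
  intro a
  rw [map_add, hf a, hg a, add_zero]

/-- AD-23 (a). -/
theorem Mod_inter {A B : Submodule ℤ P} : Mod (A : Set P) ∩ Mod (B : Set P) =
    Mod ((A ⊔ B : Submodule ℤ P) : Set P) := by
  apply Set.Subset.antisymm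
  · rintro R ⟨hA, hB⟩ f hf
    obtain ⟨a, ha, b, hb, rfl⟩ := Submodule.mem_sup.1 hf
    exact @tr2_sat_add R.1 R.2 a b (hA a ha) (hB b hb)
  · intro R hR
    exact ⟨fun f hf => hR f (Submodule.mem_sup_left hf), fun f hf => hR f (Submodule.mem_sup_right hf)⟩

private lemma tr2_Th_union (K K' : Set RingObj) : Th (K ∪ K') = Th K ∩ Th K' := by
  ext f
  constructor
  · rintro ⟨h1, h2⟩
    exact ⟨⟨h1, fun R hR => h2 R (Or.inl hR)⟩, ⟨h1, fun R hR => h2 R (Or.inr hR)⟩⟩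
  · rintro ⟨⟨h1, h2⟩, ⟨_, h3⟩⟩
    exact ⟨h1, fun R hR => hR.elim (h2 R) (h3 R)⟩

/-- AD-23 (b). -/
theorem Mod_join {A B : Submodule ℤ P} (hA : IsT A) (hB : IsT B) :
    join (Mod (A : Set P)) (Mod (B : Set P)) = Mod ((A ⊓ B : Submodule ℤ P) : Set P) := by
  unfold join
  rw [tr2_Th_union, Th_Mod hA, Th_Mod hB, Submodule.coe_inf]

/-- AD-23 (c): the two distributive laws. -/
theorem distOn_iff {L : Type*} [Lattice L] (S : Set L)
    (hi : ∀ x ∈ S, ∀ y ∈ S, x ⊓ y ∈ S) (hs : ∀ x ∈ S, ∀ y ∈ S, x ⊔ y ∈ S) (d : L) :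
    DistOn S d ↔ ∀ x ∈ S, ∀ y ∈ S, ∀ z ∈ S, d ≤ x → d ≤ y → d ≤ z →
      x ⊔ (y ⊓ z) = (x ⊔ y) ⊓ (x ⊔ z) := by
  constructor
  · intro h x hx y hy z hz dx dy dz
    rw [h (x ⊔ y) (hs x hx y hy) x hx z hz (dx.trans le_sup_left) dx dz,
      inf_comm (x ⊔ y) x, inf_sup_self, inf_comm (x ⊔ y) z, h z hz x hx y hy dz dx dy,
      ← sup_assoc, inf_comm z x, sup_inf_self, inf_comm z y]
  · intro h x hx y hy z hz dx dy dz
    rw [h (x ⊓ y) (hi x hx y hy) x hx z hz (le_inf dx dy) dx dz,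
      sup_comm (x ⊓ y) x, sup_inf_self, sup_comm (x ⊓ y) z, h z hz x hx y hy dz dx dy,
      ← inf_assoc, sup_comm z x, inf_sup_self, sup_comm z y]

private lemma tr2_Mod_Th {A : Set RingObj} (hA : IsVariety A) : Mod (Th A) = A := by
  obtain ⟨S, hS, rfl⟩ := hA
  apply Set.Subset.antisymm
  · exact tr2_mod_anti (fun f hf => ⟨hS hf, fun R hR => hR f hf⟩)
  · intro R hR f hf
    exact hf.2 R hR

private lemma tr2_exists {A : Set RingObj} (hA : IsVariety A) :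
    ∃ x : Submodule ℤ P, IsT x ∧ (x : Set P) = Th A ∧ A = Mod (x : Set P) := by
  obtain ⟨x, hx, hx2⟩ := exists_Th A
  exact ⟨x, hx, hx2, by rw [hx2, tr2_Mod_Th hA]⟩

private lemma tr2_isVariety {I : Submodule ℤ P} (hI : IsT I) : IsVariety (Mod (I : Set P)) :=
  ⟨I, fun _ hf => hI.le hf, rfl⟩

private lemma tr2_Mod_inj {A B : Submodule ℤ P} (hA : IsT A) (hB : IsT B)
    (h : Mod (A : Set P) = Mod (B : Set P)) : A = B := by
  apply SetLike.coe_injective
  rw [← Th_Mod hA, ← Th_Mod hB, h]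

/-- AD-23 (d). -/
theorem distributive_iff {I : Submodule ℤ P} (hI : IsT I) :
    Distributive (Mod (I : Set P)) ↔ DistOn TI I := by
  rw [distOn_iff TI (fun x hx y hy => isT_inf hx hy) (fun x hx y hy => isT_sup hx hy) I]
  constructor
  · intro h x hx y hy z hz dx dy dz
    have hx' : IsT x := hx
    have hy' : IsT y := hy
    have hz' : IsT z := hz
    have := h (Mod (x : Set P)) (Mod (y : Set P)) (Mod (z : Set P)) (tr2_isVariety hx')
      (tr2_isVariety hy') (tr2_isVariety hz') (tr2_mod_anti dx) (tr2_mod_anti dy)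
      (tr2_mod_anti dz)
    rw [Mod_join hy' hz', Mod_inter, Mod_inter, Mod_inter,
      Mod_join (isT_sup hx' hy') (isT_sup hx' hz')] at this
    exact tr2_Mod_inj (isT_sup hx' (isT_inf hy' hz'))
      (isT_inf (isT_sup hx' hy') (isT_sup hx' hz')) this
  · intro h A B C hA hB hC hAV hBV hCV
    obtain ⟨x, hx, hx2, rfl⟩ := tr2_exists hA
    obtain ⟨y, hy, hy2, rfl⟩ := tr2_exists hB
    obtain ⟨z, hz, hz2, rfl⟩ := tr2_exists hC
    have key : ∀ w : Submodule ℤ P, IsT w → Mod (w : Set P) ⊆ Mod (I : Set P) → I ≤ w := by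
      intro w hw hsub f hf
      have : f ∈ Th (Mod (w : Set P)) := ⟨hI.le hf, fun R hR => hsub hR f hf⟩
      rw [Th_Mod hw] at this
      exact this
    rw [Mod_join hy hz, Mod_inter, Mod_inter, Mod_inter, Mod_join (isT_sup hx hy) (isT_sup hx hz),
      h x hx y hy z hz (key x hx hAV) (key y hy hBV) (key z hz hCV)]

/-- AD-23 (e). -/
theorem almDist_of {V : Set RingObj} (hV : AlmostDistributive V) :
    ∃ I : Submodule ℤ P, AlmDist I ∧ V = Mod (I : Set P) := by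
  obtain ⟨hvar, hnd, hlow⟩ := hV
  obtain ⟨I, hI, hI2, rfl⟩ := tr2_exists hvar
  refine ⟨I, ⟨hI, fun h => hnd ((distributive_iff hI).2 h), ?_⟩, rfl⟩
  intro D hD hlt
  rw [← distributive_iff hD]
  apply hlow _ (tr2_isVariety hD)
  refine ⟨tr2_mod_anti hlt.le, fun hsub => ?_⟩
  have heq : Mod (I : Set P) = Mod (D : Set P) :=
    Set.Subset.antisymm hsub (tr2_mod_anti hlt.le)
  exact hlt.ne (tr2_Mod_inj hI hD heq)

end AD
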