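import Pool.Agent.AD.FinRing
import Pool.Agent.AD.Trans2

namespace AD

/-- AD-24. -/
theorem main (V : Set RingObj) (hV : AlmostDistributive V) :
    ∃ (p k : ℕ) (R : Type) (iR : NonUnitalRing R), p.Prime ∧ Finite R ∧ Nat.card R = p ^ k ∧
      V = Mod (Th {⟨R, iR⟩}) := by
  obtain ⟨I, hI, rfl⟩ := almDist_of hV
  obtain ⟨p, k, R, iR, hp, hf, hc, hs⟩ := exists_finite hI
  refine ⟨p, k, R, iR, hp, hf, hc, ?_⟩
  have h : (I : Set P) = Th {⟨R, iR⟩} := by
    ext f
    constructor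
    · intro hfI
      have hfP : f ∈ Pp := hI.1.le hfI
      refine ⟨hfP, ?_⟩
      intro R' hR'
      rw [Set.mem_singleton_iff] at hR'
      subst hR'
      exact (hs f hfP).2 hfI
    · intro hfT
      exact (hs f hfT.1).1 (hfT.2 ⟨R, iR⟩ rfl)
  rw [← h]

end AD
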