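import Pool.Agent.AD.Defs

namespace AD

private def mdS (W : Submodule ℤ P) (hmul : ∀ a ∈ W, ∀ b ∈ W, a * b ∈ W) :
    NonUnitalSubring P where
  carrier := W
  add_mem' := fun ha hb => W.add_mem ha hb
  zero_mem' := W.zero_mem
  neg_mem' := fun ha => W.neg_mem ha
  mul_mem' := fun {a b} ha hb => hmul a ha b hb

private def mdC {I : Submodule ℤ P} (hI : IsT I) (S : NonUnitalSubring P) : RingCon S where
  r a b := (a : P) - (b : P) ∈ I
  iseqv := ⟨fun a => by rw [sub_self]; exact I.zero_mem,
    fun {a b} h => by rw [← neg_sub]; exact I.neg_mem h,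
    fun {a b c} h h' => by
      have := I.add_mem h h'
      rwa [sub_add_sub_cancel] at this⟩
  add' := fun {a b c d} h h' => by
    have := I.add_mem h h'
    have e : ((a + c : S) : P) - ((b + d : S) : P) = ((a : P) - b) + ((c : P) - d) := by
      push_cast; abel
    rw [e]; exact this
  mul' := fun {a b c d} h h' => by
    have e : ((a * c : S) : P) - ((b * d : S) : P) =
        ((a : P) - b) * (c : P) + (b : P) * ((c : P) - d) := by
      push_cast; noncomm_ring
    rw [e]
    exact I.add_mem (hI.mul_right _ h _) (hI.mul_left _ h' _)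

/-- AD-20: the ring `(W + I)/I` for a subring `W` of `P⁺`. -/
theorem model {I : Submodule ℤ P} (hI : IsT I) (W : Submodule ℤ P) (hW : W ≤ Pp)
    (hmul : ∀ a ∈ W, ∀ b ∈ W, a * b ∈ W) :
    ∃ (R : Type) (_ : NonUnitalRing R) (π : W →+ R), Function.Surjective π ∧
      (∀ w : W, π w = 0 ↔ (w : P) ∈ I) ∧
      ∀ f ∈ Pp, Sat R f ↔ ∀ φ : P →ₐ[ℤ] P, (∀ i, φ (X i) ∈ W) → φ f ∈ I := by
  let S := mdS W hmul
  let c := mdC hI S
  let q : S → c.Quotient := fun s => (s : c.Quotient)
  have hq : ∀ s : S, q s = 0 ↔ (s : P) ∈ I := by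
    intro s
    have h1 : q s = 0 ↔ q s = q 0 := Iff.rfl
    rw [h1]
    show ((s : c.Quotient) = ((0 : S) : c.Quotient)) ↔ _
    rw [RingCon.eq]
    show (s : P) - ((0 : S) : P) ∈ I ↔ _
    simp
  have qs : Function.Surjective q := by
    intro x
    induction x using Quotient.inductionOn with
    | _ s => exact ⟨s, rfl⟩
  let π : W →+ c.Quotient :=
    { toFun := fun w => q ⟨w.1, w.2⟩
      map_zero' := rfl
      map_add' := fun a b => rfl }
  have πq : ∀ (w : P) (h : w ∈ W), π ⟨w, h⟩ = q ⟨w, h⟩ := fun _ _ => rfl
  refine ⟨c.Quotient, inferInstance, π, ?_, ?_, ?_⟩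
  · intro x
    obtain ⟨s, rfl⟩ := qs x
    exact ⟨⟨s.1, s.2⟩, rfl⟩
  · intro w
    exact hq ⟨w.1, w.2⟩
  · -- the evaluation of `f` at `q (w i)`
    have key : ∀ (w : ℕ → S) (f : P), ∃ u : S,
        (u : P) = FreeAlgebra.lift ℤ (fun i => (w i : P)) f - algebraMap ℤ P (aug f) ∧
        FreeAlgebra.lift ℤ (fun i => ((q (w i) : c.Quotient) : Unitization ℤ c.Quotient)) f =
          Unitization.inl (aug f) + ((q u : c.Quotient) : Unitization ℤ c.Quotient) := by
      intro w f
      induction f using FreeAlgebra.induction with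
      | grade0 r =>
        refine ⟨0, ?_, ?_⟩
        · simp
        · have h0 : q 0 = 0 := rfl
          rw [h0]
          simp only [AlgHom.commutes]
          rw [Unitization.algebraMap_eq_inl]
          simp
      | grade1 i =>
        refine ⟨w i, ?_, ?_⟩
        · simp [aug]
        · simp [aug]
      | mul f g hf hg =>
        obtain ⟨u, hu, hu'⟩ := hf
        obtain ⟨v, hv, hv'⟩ := hg
        refine ⟨u * v + aug f • v + aug g • u, ?_, ?_⟩
        · have hu2 : FreeAlgebra.lift ℤ (fun i => (w i : P)) f =
              (u : P) + algebraMap ℤ P (aug f) := by rw [hu]; abel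
          have hv2 : FreeAlgebra.lift ℤ (fun i => (w i : P)) g =
              (v : P) + algebraMap ℤ P (aug g) := by rw [hv]; abel
          rw [map_mul, map_mul, hu2, hv2, map_mul]
          push_cast
          rw [eq_intCast, eq_intCast, zsmul_eq_mul, zsmul_eq_mul, add_mul, mul_add, mul_add,
            (Int.cast_commute (aug g) (u : P)).eq]
          abel
        · have e : q (u * v + aug f • v + aug g • u) = q u * q v + aug f • q v + aug g • q u := by
            rfl
          rw [map_mul, hu', hv', e, map_mul]
          rw [add_mul, mul_add, mul_add, ← Unitization.inl_mul, Unitization.inl_mul_inr,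
            Unitization.inr_mul_inl, ← Unitization.inr_mul, Unitization.inr_add,
            Unitization.inr_add]
          abel
      | add f g hf hg =>
        obtain ⟨u, hu, hu'⟩ := hf
        obtain ⟨v, hv, hv'⟩ := hg
        refine ⟨u + v, ?_, ?_⟩
        · push_cast
          rw [hu, hv, map_add, map_add, map_add]
          abel
        · have e : q (u + v) = q u + q v := rfl
          rw [map_add, hu', hv', e, map_add]
          ext <;> simp
    intro f hf
    have hf0 : aug f = 0 := hf
    constructor
    · intro h φ hφ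
      obtain ⟨u, hu, hu'⟩ := key (fun i => ⟨φ (X i), hφ i⟩) f
      have h1 := h (fun i => q ⟨φ (X i), hφ i⟩)
      rw [h1, hf0] at hu'
      have h2 : q u = 0 := by
        have := congrArg (fun x => x.snd) hu'
        simpa using this.symm
      have h3 : FreeAlgebra.lift ℤ (fun i => φ (X i)) = φ := by
        ext i
        simp
      rw [hf0, map_zero, sub_zero, h3] at hu
      rw [← hu]
      exact (hq u).1 h2
    · intro h a
      choose w hw using fun i => qs (a i)
      obtain ⟨u, hu, hu'⟩ := key w f
      have h1 := h (FreeAlgebra.lift ℤ (fun i => (w i : P))) (fun i => by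
        rw [FreeAlgebra.lift_ι_apply]; exact (w i).2)
      rw [hf0, map_zero, sub_zero] at hu
      rw [← hu] at h1
      have h2 : q u = 0 := (hq u).2 h1
      rw [hf0, h2] at hu'
      have h3 : (fun i => ((a i : c.Quotient) : Unitization ℤ c.Quotient)) =
          fun i => ((q (w i) : c.Quotient) : Unitization ℤ c.Quotient) := by
        funext i; rw [hw]
      rw [h3, hu']
      simp

end AD
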