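import Pool.Agent.AD.Defs

namespace AD

open MvPolynomial

theorem nilU_mem_mm_pow (n : ℕ) (g : MvPolynomial ℕ ℤ) :
    g ∈ (mm ℤ) ^ n ↔ ∀ d : ℕ →₀ ℕ, d.degree < n → MvPolynomial.coeff d g = 0 :=
  MvPolynomial.mem_pow_idealOfVars_iff' n g

theorem nilU_mem_mm (g : MvPolynomial ℕ ℤ) : g ∈ mm ℤ ↔ MvPolynomial.coeff 0 g = 0 := by
  have h := nilU_mem_mm_pow 1 g
  rw [pow_one] at h
  rw [h]
  constructor
  · intro h1
    exact h1 0 (by simp)
  · intro h1 d hd
    have : d = 0 := by
      have : d.degree = 0 := by omega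
      exact (Finsupp.degree_eq_zero_iff d).1 this
    rw [this, h1]

theorem nilU_degree_succ (d : ℕ →₀ ℕ) (n : ℕ) (h : d.degree = n + 1) :
    ∃ (i : ℕ) (e : ℕ →₀ ℕ), d = Finsupp.single i 1 + e ∧ e.degree = n := by
  have hne : d ≠ 0 := by
    rintro rfl
    simp at h
  obtain ⟨i, hi⟩ := Finsupp.ne_iff.1 hne
  have hi' : 1 ≤ d i := Nat.one_le_iff_ne_zero.2 hi
  have hle : Finsupp.single i 1 ≤ d := by
    rw [Finsupp.single_le_iff]
    exact hi'
  refine ⟨i, d - Finsupp.single i 1, (add_tsub_cancel_of_le hle).symm, ?_⟩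
  have h2 : (Finsupp.single i 1 + (d - Finsupp.single i 1)).degree = n + 1 := by
    rw [add_tsub_cancel_of_le hle, h]
  rw [map_add] at h2
  simp at h2
  omega

theorem nilU_mem_KU (g : MvPolynomial ℕ ℤ) : g ∈ KU ↔ MvPolynomial.coeff 0 g = 0 ∧
    (∀ i, (4 : ℤ) ∣ MvPolynomial.coeff (Finsupp.single i 1) g) ∧
    (∀ i j, (2 : ℤ) ∣ MvPolynomial.coeff (Finsupp.single i 1 + Finsupp.single j 1) g) := by
  have c4 : ∀ (d : ℕ →₀ ℕ) (z : MvPolynomial ℕ ℤ),
      MvPolynomial.coeff d (4 * z) = 4 * MvPolynomial.coeff d z := by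
    intro d z
    have : (4 : MvPolynomial ℕ ℤ) = MvPolynomial.C 4 := by simp
    rw [this, MvPolynomial.coeff_C_mul]
  have c2 : ∀ (d : ℕ →₀ ℕ) (z : MvPolynomial ℕ ℤ),
      MvPolynomial.coeff d (2 * z) = 2 * MvPolynomial.coeff d z := by
    intro d z
    have : (2 : MvPolynomial ℕ ℤ) = MvPolynomial.C 2 := by simp
    rw [this, MvPolynomial.coeff_C_mul]
  constructor
  · intro hg
    unfold KU at hg
    obtain ⟨ab, hab, c, hc, rfl⟩ := Submodule.mem_sup.1 hg
    obtain ⟨a, ha, b, hb, rfl⟩ := Submodule.mem_sup.1 hab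
    obtain ⟨z, hz, rfl⟩ := Ideal.mem_span_singleton_mul.1 ha
    obtain ⟨y, hy, rfl⟩ := Ideal.mem_span_singleton_mul.1 hb
    rw [nilU_mem_mm] at hz
    rw [nilU_mem_mm_pow] at hy hc
    refine ⟨?_, fun i => ?_, fun i j => ?_⟩
    · rw [MvPolynomial.coeff_add, MvPolynomial.coeff_add, c4, c2, hz, hy 0 (by simp),
        hc 0 (by simp)]
      simp
    · rw [MvPolynomial.coeff_add, MvPolynomial.coeff_add, c4, c2, hy _ (by simp),
        hc _ (by simp)]
      simp
    · rw [MvPolynomial.coeff_add, MvPolynomial.coeff_add, c4, c2,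
        hc _ (by rw [map_add]; simp)]
      omega
  · rintro ⟨h0, h1, h2⟩
    have hmon : ∀ d : ℕ →₀ ℕ, MvPolynomial.monomial d (MvPolynomial.coeff d g) ∈ KU := by
      intro d
      have hX : ∀ i, (MvPolynomial.X i : MvPolynomial ℕ ℤ) ∈ mm ℤ := fun i =>
        Ideal.subset_span ⟨i, rfl⟩
      rcases Nat.lt_or_ge d.degree 3 with hd | hd
      · interval_cases hdeg : d.degree
        · have : d = 0 := (Finsupp.degree_eq_zero_iff d).1 hdeg
          rw [this, h0]
          simp
        · obtain ⟨i, e, rfl, he⟩ := nilU_degree_succ d 0 hdeg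
          have : e = 0 := (Finsupp.degree_eq_zero_iff e).1 he
          subst this
          rw [add_zero]
          obtain ⟨c, hc⟩ := h1 i
          rw [hc]
          apply Ideal.mem_sup_left
          apply Ideal.mem_sup_left
          refine Ideal.mem_span_singleton_mul.2 ⟨MvPolynomial.monomial (Finsupp.single i 1) c, ?_, ?_⟩
          · rw [nilU_mem_mm, MvPolynomial.coeff_monomial, if_neg]
            simp
          · ext d
            rw [c4, MvPolynomial.coeff_monomial, MvPolynomial.coeff_monomial]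
            split_ifs <;> simp
        · obtain ⟨i, e, rfl, he⟩ := nilU_degree_succ d 1 hdeg
          obtain ⟨j, e', rfl, he'⟩ := nilU_degree_succ e 0 he
          have : e' = 0 := (Finsupp.degree_eq_zero_iff e').1 he'
          subst this
          rw [add_zero]
          obtain ⟨c, hc⟩ := h2 i j
          rw [hc]
          apply Ideal.mem_sup_left
          apply Ideal.mem_sup_right
          refine Ideal.mem_span_singleton_mul.2
            ⟨MvPolynomial.monomial (Finsupp.single i 1 + Finsupp.single j 1) c, ?_, ?_⟩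
          · rw [nilU_mem_mm_pow]
            intro d hd
            rw [MvPolynomial.coeff_monomial, if_neg]
            rintro rfl
            rw [map_add] at hd
            simp at hd
          · ext d
            rw [c2, MvPolynomial.coeff_monomial, MvPolynomial.coeff_monomial]
            split_ifs <;> simp
      · apply Ideal.mem_sup_right
        rw [nilU_mem_mm_pow]
        intro e he
        rw [MvPolynomial.coeff_monomial, if_neg]
        rintro rfl
        omega
    rw [← MvPolynomial.support_sum_monomial_coeff g]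
    exact Ideal.sum_mem _ fun d _ => hmon d

theorem nilU_aug (f : P) : MvPolynomial.coeff 0 (com f) = aug f := by
  have h : (MvPolynomial.aeval (fun _ => (0 : ℤ)) : MvPolynomial ℕ ℤ →ₐ[ℤ] ℤ).comp com = aug := by
    apply FreeAlgebra.hom_ext
    funext i
    simp [com, aug, FreeAlgebra.lift_ι_apply]
  have h2 : ∀ g : MvPolynomial ℕ ℤ, (MvPolynomial.aeval (fun _ => (0 : ℤ)) : MvPolynomial ℕ ℤ →ₐ[ℤ] ℤ) g
      = MvPolynomial.coeff 0 g := by
    intro g
    rw [← MvPolynomial.constantCoeff_eq]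
    induction g using MvPolynomial.induction_on with
    | C a => simp
    | add p q hp hq => rw [map_add, map_add, hp, hq]
    | mul_X p i hp => simp
  rw [← h2, ← h]
  rfl

theorem nilU_mem_TU (f : P) : f ∈ TU ↔ f ∈ Pp ∧ com f ∈ KU := by
  unfold TU
  rw [Submodule.mem_inf]
  rfl

theorem nilU_mem_Pp (f : P) : f ∈ Pp ↔ aug f = 0 := by
  unfold Pp
  rw [LinearMap.mem_ker]
  rfl

/-- AD-5 (a): membership in `TU` in terms of coefficients. -/
theorem mem_TU_iff (f : P) : f ∈ TU ↔ f ∈ Pp ∧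
    (∀ i, (4 : ℤ) ∣ MvPolynomial.coeff (Finsupp.single i 1) (com f)) ∧
    (∀ i j, (2 : ℤ) ∣ MvPolynomial.coeff (Finsupp.single i 1 + Finsupp.single j 1) (com f)) := by
  rw [nilU_mem_TU, nilU_mem_KU]
  constructor
  · rintro ⟨h1, _, h2⟩
    exact ⟨h1, h2⟩
  · rintro ⟨h1, h2⟩
    refine ⟨h1, ?_, h2⟩
    rw [nilU_aug]
    exact (nilU_mem_Pp f).1 h1

/-- AD-5 (b). -/
theorem isT_TU : IsT TU := by
  constructor
  · exact inf_le_left
  · intro f hf g
    rw [nilU_mem_TU] at hf ⊢
    refine ⟨?_, ?_⟩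
    · rw [nilU_mem_Pp, map_mul, (nilU_mem_Pp f).1 hf.1, zero_mul]
    · rw [map_mul]
      exact Ideal.mul_mem_right _ _ hf.2
  · intro f hf g
    rw [nilU_mem_TU] at hf ⊢
    refine ⟨?_, ?_⟩
    · rw [nilU_mem_Pp, map_mul, (nilU_mem_Pp f).1 hf.1, mul_zero]
    · rw [map_mul]
      exact Ideal.mul_mem_left _ _ hf.2
  · intro φ hφ f hf
    rw [nilU_mem_TU] at hf ⊢
    have h1 : aug.comp φ = aug := by
      apply FreeAlgebra.hom_ext
      funext i
      have := hφ i
      simp [aug, FreeAlgebra.lift_ι_apply] at this ⊢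
      exact this
    have h2 : com.comp φ = (MvPolynomial.aeval (fun i => com (φ (X i)))).comp com := by
      apply FreeAlgebra.hom_ext
      funext i
      simp [com, FreeAlgebra.lift_ι_apply]
    refine ⟨?_, ?_⟩
    · rw [nilU_mem_Pp]
      have : aug (φ f) = (aug.comp φ) f := rfl
      rw [this, h1]
      exact (nilU_mem_Pp f).1 hf.1
    · have : com (φ f) = (com.comp φ) f := rfl
      rw [this, h2]
      change (MvPolynomial.aeval (fun i => com (φ (X i)))) (com f) ∈ KU
      set ψ : MvPolynomial ℕ ℤ →ₐ[ℤ] MvPolynomial ℕ ℤ :=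
        MvPolynomial.aeval (fun i => com (φ (X i))) with hψ
      have hm : (mm ℤ).map (ψ : MvPolynomial ℕ ℤ →+* MvPolynomial ℕ ℤ) ≤ mm ℤ := by
        unfold mm
        rw [Ideal.map_span, Ideal.span_le]
        rintro _ ⟨_, ⟨i, rfl⟩, rfl⟩
        have e : (ψ : MvPolynomial ℕ ℤ →+* MvPolynomial ℕ ℤ) (MvPolynomial.X i) = com (φ (X i)) := by
          simp [hψ]
        rw [e]
        change com (φ (X i)) ∈ mm ℤ
        rw [nilU_mem_mm, nilU_aug]
        exact hφ i
      have hK : KU.map (ψ : MvPolynomial ℕ ℤ →+* MvPolynomial ℕ ℤ) ≤ KU := by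
        unfold KU
        rw [Ideal.map_sup, Ideal.map_sup, Ideal.map_mul, Ideal.map_mul, Ideal.map_pow,
          Ideal.map_pow, Ideal.map_span, Ideal.map_span, Set.image_singleton, Set.image_singleton]
        have e4 : (ψ : MvPolynomial ℕ ℤ →+* MvPolynomial ℕ ℤ) 4 = 4 := map_ofNat _ 4
        have e2 : (ψ : MvPolynomial ℕ ℤ →+* MvPolynomial ℕ ℤ) 2 = 2 := map_ofNat _ 2
        rw [e4, e2]
        exact sup_le_sup (sup_le_sup (Ideal.mul_mono_right hm)
          (Ideal.mul_mono_right (Ideal.pow_right_mono hm 2))) (Ideal.pow_right_mono hm 3)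
      exact hK (Ideal.mem_map_of_mem _ hf.2)

end AD
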