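import Pool.Agent.AD.NilU

namespace AD

open MvPolynomial

private theorem nu_mem_KU {k : MvPolynomial ℕ ℤ} : k ∈ KU ↔
    ∃ a ∈ mm ℤ, ∃ b ∈ (mm ℤ) ^ 2, ∃ c ∈ (mm ℤ) ^ 3, 4 * a + 2 * b + c = k := by
  unfold KU
  simp only [Submodule.mem_sup, Ideal.mem_span_singleton_mul]
  constructor
  · rintro ⟨y, ⟨p, ⟨a, ha, rfl⟩, q, ⟨b, hb, rfl⟩, rfl⟩, c, hc, rfl⟩
    exact ⟨a, ha, b, hb, c, hc, rfl⟩
  · rintro ⟨a, ha, b, hb, c, hc, rfl⟩
    exact ⟨_, ⟨_, ⟨a, ha, rfl⟩, _, ⟨b, hb, rfl⟩, rfl⟩, c, hc, rfl⟩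

private theorem nu_four {a : MvPolynomial ℕ ℤ} (ha : a ∈ mm ℤ) : 4 * a ∈ KU :=
  nu_mem_KU.2 ⟨a, ha, 0, Ideal.zero_mem _, 0, Ideal.zero_mem _, by ring⟩

private theorem nu_two {b : MvPolynomial ℕ ℤ} (hb : b ∈ (mm ℤ) ^ 2) : 2 * b ∈ KU :=
  nu_mem_KU.2 ⟨0, Ideal.zero_mem _, b, hb, 0, Ideal.zero_mem _, by ring⟩

private theorem nu_three {c : MvPolynomial ℕ ℤ} (hc : c ∈ (mm ℤ) ^ 3) : c ∈ KU :=
  nu_mem_KU.2 ⟨0, Ideal.zero_mem _, 0, Ideal.zero_mem _, c, hc, by ring⟩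

private theorem nu_com (g : P) : com g - C (aug g) ∈ mm ℤ := by
  induction g using FreeAlgebra.induction with
  | grade0 r =>
      have h1 : com (algebraMap ℤ P r) = C r := by
        rw [AlgHom.commutes]; rfl
      have h2 : aug (algebraMap ℤ P r) = r := by
        rw [AlgHom.commutes]; rfl
      rw [h1, h2, sub_self]
      exact Ideal.zero_mem _
  | grade1 i =>
      have h1 : com (FreeAlgebra.ι ℤ i) = MvPolynomial.X i := by
        unfold com; rw [FreeAlgebra.lift_ι_apply]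
      have h2 : aug (FreeAlgebra.ι ℤ i) = 0 := by
        unfold aug; rw [FreeAlgebra.lift_ι_apply]
      rw [h1, h2, C_0, sub_zero]
      exact Ideal.subset_span ⟨i, rfl⟩
  | mul a b ha hb =>
      have : com (a * b) - C (aug (a * b)) = (com a - C (aug a)) * com b +
          C (aug a) * (com b - C (aug b)) := by
        rw [map_mul, map_mul, C_mul]; ring
      rw [this]
      exact Ideal.add_mem _ (Ideal.mul_mem_right _ _ ha) (Ideal.mul_mem_left _ _ hb)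
  | add a b ha hb =>
      have : com (a + b) - C (aug (a + b)) = (com a - C (aug a)) + (com b - C (aug b)) := by
        rw [map_add, map_add, C_add]; ring
      rw [this]
      exact Ideal.add_mem _ ha hb

private theorem nu_mem_Pp {f : P} : f ∈ Pp ↔ aug f = 0 := Iff.rfl

/-- the defining property, for a commutative polynomial -/
private def NuE (α β : ℤ) (g : MvPolynomial ℕ ℤ) : Prop :=
  ∃ u ∈ mm ℤ, g - (2 * (α : MvPolynomial ℕ ℤ) * u + (β : MvPolynomial ℕ ℤ) * u ^ 2) ∈ KU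

private theorem nu_add {α β : ℤ} {g h : MvPolynomial ℕ ℤ} (hg : NuE α β g) (hh : NuE α β h) :
    NuE α β (g + h) := by
  obtain ⟨u, hu, h1⟩ := hg
  obtain ⟨v, hv, h2⟩ := hh
  refine ⟨u + v, Ideal.add_mem _ hu hv, ?_⟩
  have h3 : u * v ∈ (mm ℤ) ^ 2 := by
    rw [pow_two]; exact Ideal.mul_mem_mul hu hv
  have h4 := Ideal.mul_mem_left _ (β : MvPolynomial ℕ ℤ) (nu_two h3)
  have e : g + h - (2 * (α : MvPolynomial ℕ ℤ) * (u + v) + (β : MvPolynomial ℕ ℤ) * (u + v) ^ 2) =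
      (g - (2 * (α : MvPolynomial ℕ ℤ) * u + (β : MvPolynomial ℕ ℤ) * u ^ 2)) +
      (h - (2 * (α : MvPolynomial ℕ ℤ) * v + (β : MvPolynomial ℕ ℤ) * v ^ 2)) -
      (β : MvPolynomial ℕ ℤ) * (2 * (u * v)) := by ring
  rw [e]
  exact Ideal.sub_mem _ (Ideal.add_mem _ h1 h2) h4

private theorem nu_smul {α β : ℤ} {g : MvPolynomial ℕ ℤ} (hg : NuE α β g) (c : ℤ) :
    NuE α β ((c : MvPolynomial ℕ ℤ) * g) := by
  obtain ⟨u, hu, h1⟩ := hg
  refine ⟨(c : MvPolynomial ℕ ℤ) * u, Ideal.mul_mem_left _ _ hu, ?_⟩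
  obtain ⟨t, ht⟩ := Int.even_mul_pred_self c
  have ht' : (c : MvPolynomial ℕ ℤ) * ((c : MvPolynomial ℕ ℤ) - 1) = t + t := by
    exact_mod_cast congrArg (Int.cast : ℤ → MvPolynomial ℕ ℤ) ht
  have h3 : u ^ 2 ∈ (mm ℤ) ^ 2 := Ideal.pow_mem_pow hu 2
  have h4 := Ideal.mul_mem_left _ ((β : MvPolynomial ℕ ℤ) * t) (nu_two h3)
  have h5 := Ideal.mul_mem_left _ (c : MvPolynomial ℕ ℤ) h1
  have e : (c : MvPolynomial ℕ ℤ) * g - (2 * (α : MvPolynomial ℕ ℤ) * (c * u) +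
      (β : MvPolynomial ℕ ℤ) * (c * u) ^ 2) =
      c * (g - (2 * (α : MvPolynomial ℕ ℤ) * u + (β : MvPolynomial ℕ ℤ) * u ^ 2)) -
      (β : MvPolynomial ℕ ℤ) * t * (2 * u ^ 2) := by
    have : (β : MvPolynomial ℕ ℤ) * t * (2 * u ^ 2) = (β : MvPolynomial ℕ ℤ) * (t + t) * u ^ 2 := by
      ring
    rw [this, ← ht']
    ring
  rw [e]
  exact Ideal.sub_mem _ h5 h4

private theorem nu_KU {α β : ℤ} {g k : MvPolynomial ℕ ℤ} (hg : NuE α β g) (hk : k ∈ KU) :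
    NuE α β (g + k) := by
  obtain ⟨u, hu, h1⟩ := hg
  refine ⟨u, hu, ?_⟩
  rw [show g + k - (2 * (α : MvPolynomial ℕ ℤ) * u + (β : MvPolynomial ℕ ℤ) * u ^ 2) =
    (g - (2 * (α : MvPolynomial ℕ ℤ) * u + (β : MvPolynomial ℕ ℤ) * u ^ 2)) + k by ring]
  exact Ideal.add_mem _ h1 hk

private theorem nu_mul {α β : ℤ} {g v : MvPolynomial ℕ ℤ} (hg : NuE α β g) (hv : v ∈ mm ℤ) :
    g * v ∈ KU := by
  obtain ⟨u, hu, h1⟩ := hg
  have h3 : u * v ∈ (mm ℤ) ^ 2 := by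
    rw [pow_two]; exact Ideal.mul_mem_mul hu hv
  have h4 : u ^ 2 * v ∈ (mm ℤ) ^ 3 := by
    rw [pow_succ]; exact Ideal.mul_mem_mul (Ideal.pow_mem_pow hu 2) hv
  have e : g * v = (g - (2 * (α : MvPolynomial ℕ ℤ) * u + (β : MvPolynomial ℕ ℤ) * u ^ 2)) * v +
      (α : MvPolynomial ℕ ℤ) * (2 * (u * v)) + (β : MvPolynomial ℕ ℤ) * (u ^ 2 * v) := by ring
  rw [e]
  exact Ideal.add_mem _ (Ideal.add_mem _ (Ideal.mul_mem_right _ _ h1)
    (Ideal.mul_mem_left _ _ (nu_two h3))) (Ideal.mul_mem_left _ _ (nu_three h4))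

private noncomputable def NuA (α β : ℤ) : Submodule ℤ P where
  carrier := {f | f ∈ Pp ∧ NuE α β (com f)}
  zero_mem' := ⟨Submodule.zero_mem _, 0, Ideal.zero_mem _, by
    simp only [map_zero, mul_zero, ne_eq, OfNat.ofNat_ne_zero, not_false_eq_true, zero_pow,
      add_zero, sub_self]
    exact Ideal.zero_mem _⟩
  add_mem' := by
    rintro f g ⟨h1, h2⟩ ⟨h3, h4⟩
    refine ⟨Submodule.add_mem _ h1 h3, ?_⟩
    rw [map_add]
    exact nu_add h2 h4
  smul_mem' := by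
    rintro c f ⟨h1, h2⟩
    refine ⟨Submodule.smul_mem _ _ h1, ?_⟩
    have : com (c • f) = (c : MvPolynomial ℕ ℤ) * com f := by
      rw [map_zsmul, zsmul_eq_mul]
    rw [this]
    exact nu_smul h2 c

private theorem nu_mem_A {α β : ℤ} {f : P} : f ∈ NuA α β ↔ f ∈ Pp ∧ NuE α β (com f) := Iff.rfl

private theorem nu_isT (α β : ℤ) : IsT (NuA α β) where
  le := fun f hf => hf.1
  mul_right := by
    rintro f ⟨h1, h2⟩ g
    refine ⟨?_, ?_⟩
    · rw [nu_mem_Pp, map_mul, nu_mem_Pp.1 h1, zero_mul]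
    · have e : com (f * g) = (aug g : MvPolynomial ℕ ℤ) * com f + com f * (com g - C (aug g)) := by
        have : (C (aug g) : MvPolynomial ℕ ℤ) = ((aug g : ℤ) : MvPolynomial ℕ ℤ) := by
          simp
        rw [map_mul, this]; ring
      rw [e]
      exact nu_KU (nu_smul h2 _) (nu_mul h2 (nu_com g))
  mul_left := by
    rintro f ⟨h1, h2⟩ g
    refine ⟨?_, ?_⟩
    · rw [nu_mem_Pp, map_mul, nu_mem_Pp.1 h1, mul_zero]
    · have e : com (g * f) = (aug g : MvPolynomial ℕ ℤ) * com f + com f * (com g - C (aug g)) := by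
        have : (C (aug g) : MvPolynomial ℕ ℤ) = ((aug g : ℤ) : MvPolynomial ℕ ℤ) := by
          simp
        rw [map_mul, this]; ring
      rw [e]
      exact nu_KU (nu_smul h2 _) (nu_mul h2 (nu_com g))
  subst := by
    rintro φ hφ f ⟨h1, u, hu, h2⟩
    have ha : aug.comp φ = aug := by
      apply FreeAlgebra.hom_ext
      funext i
      have h3 : aug (X i) = 0 := by unfold aug X; rw [FreeAlgebra.lift_ι_apply]
      have h4 : aug (φ (X i)) = 0 := hφ i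
      show aug (φ (X i)) = aug (X i)
      rw [h3, h4]
    obtain ⟨ψ, hψ⟩ : ∃ ψ : MvPolynomial ℕ ℤ →ₐ[ℤ] MvPolynomial ℕ ℤ,
        ψ = aeval (fun i => com (φ (X i))) := ⟨_, rfl⟩
    have hc : com.comp φ = ψ.comp com := by
      apply FreeAlgebra.hom_ext
      funext i
      have h3 : com (X i) = MvPolynomial.X i := by unfold com X; rw [FreeAlgebra.lift_ι_apply]
      show com (φ (X i)) = ψ (com (X i))
      rw [h3, hψ, aeval_X]
    have hm : mm ℤ ≤ (mm ℤ).comap ψ := by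
      unfold mm
      rw [Ideal.span_le]
      rintro _ ⟨i, rfl⟩
      show ψ (MvPolynomial.X i) ∈ mm ℤ
      rw [hψ, aeval_X]
      have := nu_com (φ (X i))
      rwa [hφ i, C_0, sub_zero] at this
    have hmp : ∀ n : ℕ, ∀ a ∈ (mm ℤ) ^ n, ψ a ∈ (mm ℤ) ^ n := by
      intro n a ha'
      have h3 : (mm ℤ) ^ n ≤ ((mm ℤ) ^ n).comap ψ :=
        (Ideal.pow_right_mono hm n).trans (Ideal.le_comap_pow _ n)
      exact h3 ha'
    have hK : ∀ k ∈ KU, ψ k ∈ KU := by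
      intro k hk
      obtain ⟨a, ha', b, hb, c, hc', rfl⟩ := nu_mem_KU.1 hk
      refine nu_mem_KU.2 ⟨ψ a, hm ha', ψ b, hmp 2 b hb, ψ c, hmp 3 c hc', ?_⟩
      rw [map_add, map_add, map_mul, map_mul, map_ofNat ψ 4, map_ofNat ψ 2]
    refine ⟨?_, ψ u, hm hu, ?_⟩
    · rw [nu_mem_Pp]
      have := DFunLike.congr_fun ha f
      rw [AlgHom.comp_apply] at this
      rw [this]
      exact h1
    · have h3 := DFunLike.congr_fun hc f
      rw [AlgHom.comp_apply, AlgHom.comp_apply] at h3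
      rw [h3]
      have h4 := hK _ h2
      rw [map_sub, map_add, map_mul, map_mul, map_mul, map_ofNat ψ 2, map_pow, map_intCast,
        map_intCast] at h4
      exact h4

private theorem nu_TU_le (α β : ℤ) : TU ≤ NuA α β := by
  intro f hf
  refine ⟨hf.1, 0, Ideal.zero_mem _, ?_⟩
  have h : com f ∈ KU := hf.2
  simpa using h

private theorem nu_deg1 (i : ℕ) : (Finsupp.single i 1).degree = 1 := by simp

private theorem nu_deg2 (i j : ℕ) : (Finsupp.single i 1 + Finsupp.single j 1).degree = 2 := by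
  rw [map_add, nu_deg1, nu_deg1]

private theorem nu_coef_KU {k : MvPolynomial ℕ ℤ} (hk : k ∈ KU) :
    (∀ i, (4 : ℤ) ∣ coeff (Finsupp.single i 1) k) ∧
    ∀ i j, (2 : ℤ) ∣ coeff (Finsupp.single i 1 + Finsupp.single j 1) k := by
  obtain ⟨a, ha, b, hb, c, hc, rfl⟩ := nu_mem_KU.1 hk
  have h4 : (4 : MvPolynomial ℕ ℤ) = C 4 := by simp
  have h2 : (2 : MvPolynomial ℕ ℤ) = C 2 := by simp
  have hb' := (mem_pow_idealOfVars_iff' 2 b).1 hb
  have hc' := (mem_pow_idealOfVars_iff' 3 c).1 hc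
  constructor
  · intro i
    rw [coeff_add, coeff_add, h4, h2, coeff_C_mul, coeff_C_mul,
      hb' _ (by rw [nu_deg1]; norm_num), hc' _ (by rw [nu_deg1]; norm_num)]
    simp
  · intro i j
    rw [coeff_add, coeff_add, h4, h2, coeff_C_mul, coeff_C_mul,
      hc' _ (by rw [nu_deg2]; norm_num), add_zero]
    exact dvd_add (Dvd.dvd.mul_right (by norm_num) _) (dvd_mul_right _ _)

private theorem nu_sq1 {v : MvPolynomial ℕ ℤ} (hv : v ∈ mm ℤ) (i : ℕ) :
    coeff (Finsupp.single i 1) (v ^ 2) = 0 :=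
  (mem_pow_idealOfVars_iff' 2 (v ^ 2)).1 (Ideal.pow_mem_pow hv 2) _ (by rw [nu_deg1]; norm_num)

private theorem nu_sq2 {v : MvPolynomial ℕ ℤ} (hv : v ∈ mm ℤ) (i : ℕ) :
    coeff (Finsupp.single i 1 + Finsupp.single i 1) (v ^ 2) = (coeff (Finsupp.single i 1) v) ^ 2 := by
  classical
  have h0 : coeff 0 v = 0 := by
    have hv' : v ∈ (mm ℤ) ^ 1 := by rwa [pow_one]
    exact (mem_pow_idealOfVars_iff' 1 v).1 hv' 0 (by simp)
  rw [← Finsupp.single_add, pow_two, coeff_mul, Finsupp.antidiagonal_single]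
  simp only [Finset.sum_map]
  rw [show (1 + 1 : ℕ) = 2 from rfl, Finset.Nat.sum_antidiagonal_eq_sum_range_succ_mk]
  have h3 : Finsupp.single i 2 - Finsupp.single i 1 = (Finsupp.single i 1 : ℕ →₀ ℕ) := by
    rw [← Finsupp.single_tsub]
  simp [Finset.sum_range_succ, h0, h3]
  ring

private theorem nu_inf {β : ℤ} (hβ : β = 0 ∨ β = 1) {f : P} (hx : f ∈ NuA 1 0) (hy : f ∈ NuA β 1) :
    f ∈ TU := by
  obtain ⟨hP, u, hu, h1⟩ := hx
  obtain ⟨-, v, hv, h2⟩ := hy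
  obtain ⟨a1, a2⟩ := nu_coef_KU h1
  obtain ⟨b1, b2⟩ := nu_coef_KU h2
  have hC2 : (2 : MvPolynomial ℕ ℤ) = C 2 := by simp
  rw [mem_TU_iff]
  refine ⟨hP, ?_, ?_⟩
  · intro i
    have c1 := a2 i i
    have c2 := b2 i i
    have c3 := b1 i
    simp only [Int.cast_one, mul_one, Int.cast_zero, zero_mul, add_zero, one_mul] at c1 c2 c3
    rw [hC2, coeff_sub, coeff_C_mul] at c1
    rcases hβ with rfl | rfl
    · simp only [Int.cast_zero, mul_zero, zero_mul, zero_add] at c2 c3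
      rw [coeff_sub, nu_sq1 hv] at c3
      simpa using c3
    · simp only [Int.cast_one, mul_one] at c2 c3
      rw [hC2, coeff_sub, coeff_add, coeff_C_mul, nu_sq2 hv] at c2
      rw [hC2, coeff_sub, coeff_add, coeff_C_mul, nu_sq1 hv] at c3
      have d1 : (2 : ℤ) ∣ (coeff (Finsupp.single i 1) v) ^ 2 := by omega
      have d2 : (2 : ℤ) ∣ coeff (Finsupp.single i 1) v := Int.prime_two.dvd_of_dvd_pow d1
      omega
  · intro i j
    have c1 := a2 i j
    simp only [Int.cast_one, mul_one, Int.cast_zero, zero_mul, add_zero] at c1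
    rw [hC2, coeff_sub, coeff_C_mul] at c1
    omega

/-- AD-6: the variety `U_2` is not distributive. -/
theorem not_dist_TU : ¬ DistOn TI TU := by
  intro h
  have h1 := h (NuA 1 0) (nu_isT 1 0) (NuA 0 1) (nu_isT 0 1) (NuA 1 1) (nu_isT 1 1)
    (nu_TU_le _ _) (nu_TU_le _ _) (nu_TU_le _ _)
  have hX : ∀ i, com (X i) = MvPolynomial.X i := by
    intro i; unfold com X; rw [FreeAlgebra.lift_ι_apply]
  have hA : ∀ i, aug (X i) = 0 := by
    intro i; unfold aug X; rw [FreeAlgebra.lift_ι_apply]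
  have hXm : (MvPolynomial.X 0 : MvPolynomial ℕ ℤ) ∈ mm ℤ := Ideal.subset_span ⟨0, rfl⟩
  have h22 : com (2 : P) = 2 := by
    rw [show (2 : P) = 1 + 1 by norm_num, map_add, map_one]
    norm_num
  have hmem : (2 : P) * X 0 ∈ NuA 1 0 ⊓ (NuA 0 1 ⊔ NuA 1 1) := by
    refine ⟨⟨?_, MvPolynomial.X 0, hXm, ?_⟩, ?_⟩
    · rw [nu_mem_Pp, map_mul, hA, mul_zero]
    · rw [map_mul, hX, h22]
      simp
    · refine Submodule.mem_sup.2 ⟨-(X 0 * X 0), ⟨?_, MvPolynomial.X 0, hXm, ?_⟩,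
        2 * X 0 + X 0 * X 0, ⟨?_, MvPolynomial.X 0, hXm, ?_⟩, by abel⟩
      · rw [nu_mem_Pp, map_neg, map_mul, hA, mul_zero, neg_zero]
      · rw [map_neg, map_mul, hX]
        have : -((MvPolynomial.X 0 : MvPolynomial ℕ ℤ) * MvPolynomial.X 0) -
            (2 * ((0 : ℤ) : MvPolynomial ℕ ℤ) * MvPolynomial.X 0 +
            ((1 : ℤ) : MvPolynomial ℕ ℤ) * MvPolynomial.X 0 ^ 2) =
            -(2 * (MvPolynomial.X 0 : MvPolynomial ℕ ℤ) ^ 2) := by
          simp; ring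
        rw [this]
        exact (Ideal.neg_mem_iff _).2 (nu_two (Ideal.pow_mem_pow hXm 2))
      · rw [nu_mem_Pp, map_add, map_mul, map_mul, hA, mul_zero, mul_zero, add_zero]
      · rw [map_add, map_mul, map_mul, hX, h22]
        have : 2 * (MvPolynomial.X 0 : MvPolynomial ℕ ℤ) + MvPolynomial.X 0 * MvPolynomial.X 0 -
            (2 * ((1 : ℤ) : MvPolynomial ℕ ℤ) * MvPolynomial.X 0 +
            ((1 : ℤ) : MvPolynomial ℕ ℤ) * MvPolynomial.X 0 ^ 2) = 0 := by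
          simp only [Int.cast_one]; ring
        rw [this]
        exact Ideal.zero_mem _
  rw [h1] at hmem
  have hT : (2 : P) * X 0 ∈ TU := by
    have hle : (NuA 1 0 ⊓ NuA 0 1) ⊔ (NuA 1 0 ⊓ NuA 1 1) ≤ TU := by
      refine sup_le ?_ ?_
      · rintro f ⟨k1, k2⟩
        exact nu_inf (Or.inl rfl) k1 k2
      · rintro f ⟨k1, k2⟩
        exact nu_inf (Or.inr rfl) k1 k2
    exact hle hmem
  have h2 := ((mem_TU_iff _).1 hT).2.1 0
  rw [map_mul, hX] at h2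
  have h3 : (com 2 : MvPolynomial ℕ ℤ) = C 2 := by rw [h22]; simp
  rw [h3, coeff_C_mul, coeff_X] at h2
  norm_num at h2

end AD
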