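import Pool.Agent.AD.Shir

namespace AD

theorem shir2_foldl (B : ℕ) (w : List ℕ) : ∀ s : ℕ,
    w.foldl (fun s a => B * s + (a + 1)) s = s * B ^ w.length + val B w := by
  induction w with
  | nil => intro s; simp [val]
  | cons a w ih =>
    intro s
    have h0 : val B (a :: w) = (B * 0 + (a + 1)) * B ^ w.length + val B w := by
      unfold val
      rw [List.foldl_cons, ih]
      rfl
    rw [List.foldl_cons, ih, h0, List.length_cons, pow_succ]
    ring

theorem shir2_append (B : ℕ) (v w : List ℕ) :
    val B (v ++ w) = val B v * B ^ w.length + val B w := by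
  conv_lhs => unfold val
  rw [List.foldl_append, shir2_foldl]
  rfl

theorem shir2_lt_pow (n : ℕ) (w : List ℕ) (h : ∀ a ∈ w, a < n) :
    val (n + 1) w < (n + 1) ^ w.length := by
  induction w with
  | nil => simp [val]
  | cons a w ih =>
    have h1 := ih (fun b hb => h b (List.mem_cons_of_mem _ hb))
    have h2 : a < n := h a List.mem_cons_self
    have h3 : val (n + 1) (a :: w) = (a + 1) * (n + 1) ^ w.length + val (n + 1) w := by
      have := shir2_append (n + 1) [a] w
      simpa [val] using this
    rw [h3, List.length_cons, pow_succ]
    have h4 : (a + 1) * (n + 1) ^ w.length ≤ n * (n + 1) ^ w.length :=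
      Nat.mul_le_mul_right _ h2
    calc (a + 1) * (n + 1) ^ w.length + val (n + 1) w
        < n * (n + 1) ^ w.length + (n + 1) ^ w.length := Nat.add_lt_add_of_le_of_lt h4 h1
      _ = (n + 1) ^ w.length * (n + 1) := by ring

theorem shir2_lists (n l : ℕ) : ∀ L L' : List (List ℕ), L'.Perm L → L' ≠ L →
    (∀ u ∈ L, l ≤ u.length) → (∀ u ∈ L, ∀ a ∈ u, a < n) →
    L.Pairwise (fun u v => val (n + 1) (v.take l) < val (n + 1) (u.take l)) →
    val (n + 1) L'.flatten < val (n + 1) L.flatten := by
  intro L
  induction L with
  | nil =>
    intro L' hp hne _ _ _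
    exact absurd (List.Perm.eq_nil hp) hne
  | cons u L ih =>
    intro L' hp hne hl ha hw
    cases L' with
    | nil => exact absurd hp.symm (by intro h; exact absurd (List.Perm.eq_nil h) (by simp))
    | cons u' L' =>
      have hlen : (u' :: L').flatten.length = (u :: L).flatten.length :=
        (hp.flatten).length_eq
      by_cases huu : u' = u
      · subst huu
        have hp' : L'.Perm L := (List.perm_cons u').1 hp
        have hne' : L' ≠ L := fun h => hne (by rw [h])
        have h1 := ih L' hp' hne' (fun v hv => hl v (List.mem_cons_of_mem _ hv))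
          (fun v hv => ha v (List.mem_cons_of_mem _ hv)) (List.pairwise_cons.1 hw).2
        have hlen' : L'.flatten.length = L.flatten.length := (hp'.flatten).length_eq
        rw [List.flatten_cons, List.flatten_cons, shir2_append, shir2_append, hlen']
        omega
      · have hmem : u' ∈ L := by
          have := hp.subset (List.mem_cons_self (a := u') (l := L'))
          rcases List.mem_cons.1 this with h | h
          · exact absurd h huu
          · exact h
        have hlt := (List.pairwise_cons.1 hw).1 u' hmem
        have hlu : l ≤ u.length := hl u List.mem_cons_self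
        have hlu' : l ≤ u'.length := hl u' (List.mem_cons_of_mem _ hmem)
        have e1 : (u' :: L').flatten = u'.take l ++ (u'.drop l ++ L'.flatten) := by
          rw [List.flatten_cons, ← List.append_assoc, List.take_append_drop]
        have e2 : (u :: L).flatten = u.take l ++ (u.drop l ++ L.flatten) := by
          rw [List.flatten_cons, ← List.append_assoc, List.take_append_drop]
        have hs : (u'.drop l ++ L'.flatten).length = (u.drop l ++ L.flatten).length := by
          rw [e1, e2, List.length_append (as := u'.take l), List.length_append (as := u.take l),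
            List.length_take, List.length_take, min_eq_left hlu, min_eq_left hlu'] at hlen
          omega
        have hb : val (n + 1) (u'.drop l ++ L'.flatten) <
            (n + 1) ^ (u'.drop l ++ L'.flatten).length := by
          apply shir2_lt_pow
          intro a haa
          have haL : ∀ v ∈ u' :: L', ∀ a ∈ v, a < n := fun v hv => ha v (hp.subset hv)
          rcases List.mem_append.1 haa with h | h
          · exact haL u' List.mem_cons_self a (List.mem_of_mem_drop h)
          · obtain ⟨v, hv, hav⟩ := List.mem_flatten.1 h
            exact haL v (List.mem_cons_of_mem _ hv) a hav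
        rw [e1, e2, shir2_append (n + 1) (u'.take l), shir2_append (n + 1) (u.take l), hs]
        rw [hs] at hb
        have h5 : (val (n + 1) (u'.take l) + 1) * (n + 1) ^ (u.drop l ++ L.flatten).length ≤
            val (n + 1) (u.take l) * (n + 1) ^ (u.drop l ++ L.flatten).length :=
          Nat.mul_le_mul_right _ hlt
        rw [add_mul, one_mul] at h5
        omega

/-- AD-14: rearranging the blocks gives a smaller word. -/
theorem perm_val_lt (n d : ℕ) (w₁ w₂ : List ℕ) (us : Fin d → List ℕ) (l : ℕ)
    (h1 : ∀ a ∈ w₁, a < n) (h2 : ∀ a ∈ w₂, a < n) (h3 : ∀ i, ∀ a ∈ us i, a < n)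
    (hl : ∀ i, l ≤ (us i).length)
    (hlt : ∀ i j : Fin d, i < j → val (n + 1) ((us j).take l) < val (n + 1) ((us i).take l))
    (σ : Equiv.Perm (Fin d)) (hσ : σ ≠ 1) :
    val (n + 1) (w₁ ++ (List.ofFn (us ∘ σ)).flatten ++ w₂) <
      val (n + 1) (w₁ ++ (List.ofFn us).flatten ++ w₂) := by
  have hinj : Function.Injective us := by
    intro i j hij
    by_contra hne
    rcases lt_or_gt_of_ne hne with h | h
    · have := hlt i j h
      rw [hij] at this
      exact lt_irrefl _ this
    · have := hlt j i h
      rw [hij] at this
      exact lt_irrefl _ this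
  have hp : (List.ofFn (us ∘ σ)).Perm (List.ofFn us) := Equiv.Perm.ofFn_comp_perm σ us
  have hne : List.ofFn (us ∘ σ) ≠ List.ofFn us := by
    intro h
    apply hσ
    have h' := List.ofFn_injective h
    ext i
    have h6 : us (σ i) = us i := congrFun h' i
    have h7 := hinj h6
    rw [h7]
    rfl
  have hlists := shir2_lists n l (List.ofFn us) (List.ofFn (us ∘ σ)) hp hne
    (by
      intro u hu
      obtain ⟨i, rfl⟩ := (List.mem_ofFn' us u).1 hu
      exact hl i)
    (by
      intro u hu
      obtain ⟨i, rfl⟩ := (List.mem_ofFn' us u).1 hu
      exact h3 i)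
    (by
      rw [List.pairwise_ofFn]
      intro i j hij
      exact hlt i j hij)
  have hlen : (List.ofFn (us ∘ σ)).flatten.length = (List.ofFn us).flatten.length :=
    hp.flatten.length_eq
  rw [shir2_append, shir2_append, shir2_append, shir2_append, hlen]
  have hpos : 0 < (n + 1) ^ w₂.length := by positivity
  have h8 : (val (n + 1) w₁ * (n + 1) ^ (List.ofFn us).flatten.length +
      val (n + 1) (List.ofFn (us ∘ σ)).flatten) <
      (val (n + 1) w₁ * (n + 1) ^ (List.ofFn us).flatten.length +
      val (n + 1) (List.ofFn us).flatten) := by omega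
  have h9 := Nat.mul_lt_mul_of_pos_right h8 hpos
  omega

end AD
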