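import Pool.Agent.AD.Lin2
import Pool.Agent.AD.Shir2
import Pool.Agent.AD.Words

namespace AD

theorem red_mem_Pp {f : P} : f ∈ Pp ↔ aug f = 0 := Iff.rfl

theorem red_absorb {I : Submodule ℤ P} (hI : IsT I) (p : ℕ) {f : P}
    (hf : f ∈ I ⊔ mulI p Pp) (g h : P) : g * f * h ∈ I ⊔ mulI p Pp := by
  obtain ⟨i, hi, m, hm, rfl⟩ := Submodule.mem_sup.1 hf
  obtain ⟨r, hr, rfl⟩ := hm
  have hr' : aug r = 0 := hr
  have h1 : g * i * h ∈ I := hI.mul_right _ (hI.mul_left _ hi g) h
  have h2 : g * ((LinearMap.lsmul ℤ P (p : ℤ)) r) * h ∈ mulI (p : ℤ) Pp := by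
    refine ⟨g * r * h, ?_, ?_⟩
    · change aug (g * r * h) = 0
      rw [map_mul, map_mul, hr']
      simp
    · rw [LinearMap.lsmul_apply, LinearMap.lsmul_apply, mul_smul_comm, smul_mul_assoc]
  have h3 : g * (i + (LinearMap.lsmul ℤ P (p : ℤ)) r) * h =
      g * i * h + g * ((LinearMap.lsmul ℤ P (p : ℤ)) r) * h := by
    rw [mul_add, add_mul]
  rw [h3]
  exact Submodule.add_mem_sup h1 h2

theorem red_mon_append (u v : List ℕ) : mon (u ++ v) = mon u * mon v := by
  simp [mon]

theorem red_mon_flatten (L : List (List ℕ)) : mon L.flatten = (L.map mon).prod := by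
  induction L with
  | nil => simp [mon]
  | cons a L ih => rw [List.flatten_cons, red_mon_append, ih, List.map_cons, List.prod_cons]

theorem red_mon_mem_Pp {u : List ℕ} (hu : u ≠ []) : mon u ∈ Pp := by
  cases u with
  | nil => exact absurd rfl hu
  | cons a u =>
    change aug (mon (a :: u)) = 0
    have : mon (a :: u) = X a * mon u := by simp [mon]
    rw [this, map_mul]
    have h0 : aug (X a) = 0 := by simp [aug, X]
    rw [h0, zero_mul]

/-- AD-17: long words are combinations of short words modulo `I + pP⁺`. -/
theorem reduce {I : Submodule ℤ P} (hI : IsT I) (p : ℕ) [Fact p.Prime] (D : ℕ) (b : ℕ → ℤ)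
    (hD : 1 ≤ D)
    (h1 : ∀ u ∈ Pp, u ^ D + ∑ m ∈ Finset.Ico 1 D, b m • u ^ m ∈ I ⊔ mulI p Pp)
    (h2 : ∀ u : Fin D → P, (∀ i, u i ∈ Pp) →
        ∑ σ : Equiv.Perm (Fin D), (List.ofFn (fun i => u (σ i))).prod ∈ I ⊔ mulI p Pp) (n : ℕ) :
    ∃ N : ℕ, Pn n ≤ I ⊔ mulI p Pp ⊔ Pnl n N := by
  rcases Nat.lt_or_ge 1 D with hD2 | hD1
  swap
  · -- D = 1
    have hD' : D = 1 := le_antisymm hD1 hD
    subst hD'
    refine ⟨0, ?_⟩
    intro f hf
    have hf' : f ∈ Pp := Pn_le_Pp n hf
    have := h1 f hf'
    simp only [Finset.Ico_self, Finset.sum_empty, add_zero, pow_one] at this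
    exact Submodule.mem_sup_left this
  obtain ⟨N, hN⟩ := shir_core n D D
  refine ⟨N, ?_⟩
  set M := I ⊔ mulI (p : ℤ) Pp with hM
  have key : ∀ V : ℕ, ∀ w : List ℕ, w ≠ [] → (∀ a ∈ w, a < n) → val (n + 1) w = V →
      mon w ∈ M ⊔ Pnl n N := by
    intro V
    induction V using Nat.strong_induction_on with
    | _ V ih =>
      intro w hw hwn hV
      rcases Nat.lt_or_ge w.length N with hlen | hlen
      · exact Submodule.mem_sup_right (Submodule.subset_span ⟨w, hw, hwn, hlen, rfl⟩)
      rcases hN w hwn hlen with hpow | hdiv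
      · obtain ⟨w₁, u, w₂, hu, rfl⟩ := hpow
        have hmu : mon u ∈ Pp := red_mon_mem_Pp hu
        have hrep : ∀ m : ℕ, mon (w₁ ++ (List.replicate m u).flatten ++ w₂) =
            mon w₁ * (mon u) ^ m * mon w₂ := by
          intro m
          rw [red_mon_append, red_mon_append, red_mon_flatten, List.map_replicate,
            List.prod_replicate]
        have hA := red_absorb hI p (h1 (mon u) hmu) (mon w₁) (mon w₂)
        have hexp : mon w₁ * (mon u ^ D + ∑ m ∈ Finset.Ico 1 D, b m • mon u ^ m) * mon w₂ =
            mon (w₁ ++ (List.replicate D u).flatten ++ w₂) +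
            ∑ m ∈ Finset.Ico 1 D, b m • mon (w₁ ++ (List.replicate m u).flatten ++ w₂) := by
          rw [mul_add, add_mul, ← hrep D, Finset.mul_sum, Finset.sum_mul]
          congr 1
          refine Finset.sum_congr rfl fun m _ => ?_
          rw [hrep m, mul_smul_comm, smul_mul_assoc]
        rw [hexp] at hA
        have hS : ∑ m ∈ Finset.Ico 1 D, b m • mon (w₁ ++ (List.replicate m u).flatten ++ w₂) ∈
            M ⊔ Pnl n N := by
          refine Submodule.sum_mem _ fun m hm => Submodule.smul_mem _ _ ?_
          rw [Finset.mem_Ico] at hm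
          have hupos : 0 < u.length := List.length_pos_iff.2 hu
          have hlet : ∀ a ∈ w₁ ++ (List.replicate m u).flatten ++ w₂, a < n := by
            intro a ha
            apply hwn
            simp only [List.mem_append, List.mem_flatten, List.mem_replicate] at ha ⊢
            rcases ha with (ha | ⟨l, ⟨_, rfl⟩, ha⟩) | ha
            · exact Or.inl (Or.inl ha)
            · exact Or.inl (Or.inr ⟨l, ⟨by omega, rfl⟩, ha⟩)
            · exact Or.inr ha
          have hlt : (w₁ ++ (List.replicate m u).flatten ++ w₂).length <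
              (w₁ ++ (List.replicate D u).flatten ++ w₂).length := by
            simp only [List.length_append, List.length_flatten, List.map_replicate,
              List.sum_replicate, smul_eq_mul]
            have : m * u.length < D * u.length := Nat.mul_lt_mul_of_pos_right hm.2 hupos
            omega
          have hne : w₁ ++ (List.replicate m u).flatten ++ w₂ ≠ [] := by
            intro h0
            have := congrArg List.length h0
            simp only [List.length_append, List.length_flatten, List.map_replicate,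
              List.sum_replicate, smul_eq_mul, List.length_nil] at this
            have h3 : 1 * 1 ≤ m * u.length := Nat.mul_le_mul hm.1 hupos
            omega
          exact ih _ (hV ▸ val_lt_of_length hlet hwn hlt) _ hne hlet rfl
        have : mon (w₁ ++ (List.replicate D u).flatten ++ w₂) =
            (mon (w₁ ++ (List.replicate D u).flatten ++ w₂) +
            ∑ m ∈ Finset.Ico 1 D, b m • mon (w₁ ++ (List.replicate m u).flatten ++ w₂)) -
            ∑ m ∈ Finset.Ico 1 D, b m • mon (w₁ ++ (List.replicate m u).flatten ++ w₂) := by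
          rw [add_sub_cancel_right]
        rw [this]
        exact Submodule.sub_mem _ (Submodule.mem_sup_left hA) hS
      · obtain ⟨w₁, w₂, us, l, rfl, hl, hlt⟩ := hdiv
        have hne : ∀ i, us i ≠ [] := by
          intro i hi
          have h0 : l = 0 := by
            have := hl i
            rw [hi] at this
            simpa using this
          have := hlt ⟨0, by omega⟩ ⟨1, hD2⟩ (by simp [Fin.lt_def])
          rw [h0] at this
          simp at this
        have hmu : ∀ i, mon (us i) ∈ Pp := fun i => red_mon_mem_Pp (hne i)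
        have hrep : ∀ σ : Equiv.Perm (Fin D),
            mon (w₁ ++ (List.ofFn (us ∘ σ)).flatten ++ w₂) =
            mon w₁ * (List.ofFn (fun i => mon (us (σ i)))).prod * mon w₂ := by
          intro σ
          rw [red_mon_append, red_mon_append, red_mon_flatten, List.map_ofFn]
          rfl
        have hA := red_absorb hI p (h2 (fun i => mon (us i)) hmu) (mon w₁) (mon w₂)
        have hexp : mon w₁ * (∑ σ : Equiv.Perm (Fin D),
            (List.ofFn (fun i => mon (us (σ i)))).prod) * mon w₂ =
            mon (w₁ ++ (List.ofFn us).flatten ++ w₂) +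
            ∑ σ ∈ (Finset.univ : Finset (Equiv.Perm (Fin D))).erase 1,
              mon (w₁ ++ (List.ofFn (us ∘ σ)).flatten ++ w₂) := by
          have hone : mon (w₁ ++ (List.ofFn us).flatten ++ w₂) =
              mon (w₁ ++ (List.ofFn (us ∘ (1 : Equiv.Perm (Fin D)))).flatten ++ w₂) := by
            rfl
          rw [hone, Finset.add_sum_erase Finset.univ
            (fun σ : Equiv.Perm (Fin D) => mon (w₁ ++ (List.ofFn (us ∘ σ)).flatten ++ w₂))
            (Finset.mem_univ 1), Finset.mul_sum, Finset.sum_mul]
          exact Finset.sum_congr rfl fun σ _ => (hrep σ).symm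
        rw [hexp] at hA
        have hus : ∀ i, ∀ a ∈ us i, a < n := by
          intro i a ha
          apply hwn
          simp only [List.mem_append, List.mem_flatten, List.mem_ofFn]
          exact Or.inl (Or.inr ⟨us i, ⟨i, rfl⟩, ha⟩)
        have hw1 : ∀ a ∈ w₁, a < n := fun a ha => hwn a (by simp [ha])
        have hw2 : ∀ a ∈ w₂, a < n := fun a ha => hwn a (by simp [ha])
        have hS : ∑ σ ∈ (Finset.univ : Finset (Equiv.Perm (Fin D))).erase 1,
              mon (w₁ ++ (List.ofFn (us ∘ σ)).flatten ++ w₂) ∈ M ⊔ Pnl n N := by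
          refine Submodule.sum_mem _ fun σ hσ => ?_
          have hσ1 : σ ≠ 1 := Finset.ne_of_mem_erase hσ
          have hlet : ∀ a ∈ w₁ ++ (List.ofFn (us ∘ σ)).flatten ++ w₂, a < n := by
            intro a ha
            simp only [List.mem_append, List.mem_flatten, List.mem_ofFn] at ha
            rcases ha with (ha | ⟨l, ⟨i, rfl⟩, ha⟩) | ha
            · exact hw1 a ha
            · exact hus _ a ha
            · exact hw2 a ha
          have hne' : w₁ ++ (List.ofFn (us ∘ σ)).flatten ++ w₂ ≠ [] := by
            intro h0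
            have hmem : (us (σ ⟨0, by omega⟩)) ∈ List.ofFn (us ∘ σ) := by
              rw [List.mem_ofFn]
              exact ⟨⟨0, by omega⟩, rfl⟩
            obtain ⟨a, ha⟩ := List.exists_mem_of_ne_nil _ (hne (σ ⟨0, by omega⟩))
            have : a ∈ w₁ ++ (List.ofFn (us ∘ σ)).flatten ++ w₂ := by
              simp only [List.mem_append, List.mem_flatten]
              exact Or.inl (Or.inr ⟨_, hmem, ha⟩)
            rw [h0] at this
            simp at this
          exact ih _ (hV ▸ perm_val_lt n D w₁ w₂ us l hw1 hw2 hus hl hlt σ hσ1) _ hne' hlet rfl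
        have : mon (w₁ ++ (List.ofFn us).flatten ++ w₂) =
            (mon (w₁ ++ (List.ofFn us).flatten ++ w₂) +
            ∑ σ ∈ (Finset.univ : Finset (Equiv.Perm (Fin D))).erase 1,
              mon (w₁ ++ (List.ofFn (us ∘ σ)).flatten ++ w₂)) -
            ∑ σ ∈ (Finset.univ : Finset (Equiv.Perm (Fin D))).erase 1,
              mon (w₁ ++ (List.ofFn (us ∘ σ)).flatten ++ w₂) := by
          rw [add_sub_cancel_right]
        rw [this]
        exact Submodule.sub_mem _ (Submodule.mem_sup_left hA) hS
  refine Submodule.span_le.2 ?_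
  rintro f ⟨w, hw, hwn, rfl⟩
  exact key _ w hw hwn rfl

end AD
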