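import Pool.Agent.AD.Defs

namespace AD

theorem shA_hasPow_append {k : ℕ} {u v : List ℕ} (h : HasPow k u) : HasPow k (u ++ v) := by
  obtain ⟨w₁, s, w₂, hs, rfl⟩ := h
  exact ⟨w₁, s, w₂ ++ v, hs, by simp [List.append_assoc]⟩

theorem shA_hasDiv_append {n d : ℕ} {u v : List ℕ} (h : HasDiv n d u) : HasDiv n d (u ++ v) := by
  obtain ⟨w₁, w₂, us, l, rfl, h1, h2⟩ := h
  exact ⟨w₁, w₂ ++ v, us, l, by simp [List.append_assoc], h1, h2⟩

theorem shA_pre_eq_take (x : ℕ → ℕ) (m : ℕ) (w : List ℕ) (hm : m ≤ w.length)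
    (h : ∀ i < m, w.getD i 0 = x i) : pre x m = w.take m := by
  apply List.ext_getElem
  · simp [pre, hm]
  · intro i h1 h2
    have hi : i < m := by simpa [pre] using h1
    have := h i hi
    rw [List.getD_eq_getElem _ _ (lt_of_lt_of_le hi hm)] at this
    simp [pre, this]

/-- AD-13a: compactness. -/
theorem exists_infinite (n d k : ℕ) (h : ∀ N : ℕ, ∃ w : List ℕ, (∀ a ∈ w, a < n) ∧ N ≤ w.length ∧
    ¬ HasPow k w ∧ ¬ HasDiv n d w) :
    ∃ x : ℕ → ℕ, (∀ i, x i < n) ∧ ∀ m, ¬ HasPow k (pre x m) ∧ ¬ HasDiv n d (pre x m) := by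
  choose w hw hlen hpow hdiv using h
  let U : Ultrafilter ℕ := Filter.hyperfilter ℕ
  have hge : ∀ m : ℕ, ∀ᶠ N in (U : Filter ℕ), m ≤ N := by
    intro m
    have : ∀ᶠ N in Filter.cofinite, m ≤ N := by
      rw [Nat.cofinite_eq_atTop]
      exact Filter.eventually_ge_atTop m
    exact Filter.hyperfilter_le_cofinite this
  have hex : ∀ i : ℕ, ∃ a : ℕ, a < n ∧ ∀ᶠ N in (U : Filter ℕ), (w N).getD i 0 = a := by
    intro i
    have hfin : (Set.Iio n).Finite := Set.finite_Iio n
    have hmem : Set.Iio n ∈ (U.map (fun N => (w N).getD i 0)) := by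
      rw [Ultrafilter.mem_map]
      filter_upwards [hge (i + 1)] with N hN
      have hi : i < (w N).length := lt_of_lt_of_le (Nat.lt_of_succ_le hN) (hlen N)
      show (w N).getD i 0 < n
      rw [List.getD_eq_getElem _ _ hi]
      exact hw N _ (List.getElem_mem hi)
    obtain ⟨a, ha, hU⟩ := Ultrafilter.eq_pure_of_finite_mem hfin hmem
    refine ⟨a, ha, ?_⟩
    have : ({a} : Set ℕ) ∈ (U.map (fun N => (w N).getD i 0)) := by
      rw [hU]; exact Set.mem_singleton a
    rw [Ultrafilter.mem_map] at this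
    exact this
  choose x hx hxe using hex
  refine ⟨x, hx, ?_⟩
  intro m
  have hall : ∀ᶠ N in (U : Filter ℕ), ∀ i ∈ Finset.range m, (w N).getD i 0 = x i := by
    rw [Filter.eventually_all_finset]
    intro i _
    exact hxe i
  obtain ⟨N, hN1, hN2⟩ := (hall.and (hge m)).exists
  have hpre : pre x m = (w N).take m :=
    shA_pre_eq_take x m (w N) (le_trans hN2 (hlen N)) (fun i hi => hN1 i (Finset.mem_range.mpr hi))
  rw [hpre]
  constructor
  · intro hp
    apply hpow N
    have := shA_hasPow_append (v := (w N).drop m) hp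
    rwa [List.take_append_drop] at this
  · intro hp
    apply hdiv N
    have := shA_hasDiv_append (v := (w N).drop m) hp
    rwa [List.take_append_drop] at this

end AD
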