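import Pool.Agent.AD.Defs

namespace AD

/-- the factor of length `L` of an infinite word which begins at the position `i` -/
def fac (x : ℕ → ℕ) (i L : ℕ) : List ℕ := (List.range L).map fun t => x (i + t)

theorem fac_length (x : ℕ → ℕ) (i L : ℕ) : (fac x i L).length = L := by simp [fac]

theorem pre_eq (x : ℕ → ℕ) (m : ℕ) : pre x m = fac x 0 m := by simp [pre, fac]

theorem fac_add (x : ℕ → ℕ) (i a b : ℕ) : fac x i (a + b) = fac x i a ++ fac x (i + a) b := by
  unfold fac
  rw [List.range_add, List.map_append, List.map_map]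
  congr 1
  refine List.map_congr_left (fun t _ => ?_)
  simp [add_assoc]

theorem fac_zero (x : ℕ → ℕ) (i : ℕ) : fac x i 0 = [] := by simp [fac]

theorem fac_succ (x : ℕ → ℕ) (i L : ℕ) : fac x i (L + 1) = fac x i L ++ [x (i + L)] := by
  rw [fac_add]
  simp [fac]

theorem mem_fac {x : ℕ → ℕ} {n : ℕ} (hx : ∀ i, x i < n) {i L a : ℕ} (ha : a ∈ fac x i L) : a < n := by
  unfold fac at ha
  rw [List.mem_map] at ha
  obtain ⟨t, -, rfl⟩ := ha
  exact hx _

theorem fac_take (x : ℕ → ℕ) {i L M : ℕ} (h : L ≤ M) : (fac x i M).take L = fac x i L := by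
  obtain ⟨b, rfl⟩ := Nat.exists_eq_add_of_le h
  rw [fac_add, List.take_append_of_le_length (by rw [fac_length]), List.take_of_length_le (by rw [fac_length])]

theorem val_concat (B : ℕ) (w : List ℕ) (a : ℕ) : val B (w ++ [a]) = B * val B w + (a + 1) := by
  simp [val]

theorem val_inj {n : ℕ} : ∀ (L : ℕ) (v w : List ℕ), v.length = L → w.length = L →
    (∀ a ∈ v, a < n) → (∀ a ∈ w, a < n) → val (n + 1) v = val (n + 1) w → v = w := by
  intro L
  induction L with
  | zero =>
    intro v w hv hw _ _ _
    rw [List.length_eq_zero_iff] at hv hw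
    rw [hv, hw]
  | succ L ih =>
    intro v w hv hw hvn hwn h
    rcases List.eq_nil_or_concat v with rfl | ⟨v', a, rfl⟩
    · simp at hv
    rcases List.eq_nil_or_concat w with rfl | ⟨w', b, rfl⟩
    · simp at hw
    simp only [List.concat_eq_append] at hv hw hvn hwn h ⊢
    rw [val_concat, val_concat] at h
    have ha : a < n := hvn a (by simp)
    have hb : b < n := hwn b (by simp)
    have h1 : val (n + 1) v' = val (n + 1) w' := by
      have e1 : ((n + 1) * val (n + 1) v' + (a + 1)) / (n + 1) =
          ((n + 1) * val (n + 1) w' + (b + 1)) / (n + 1) := by rw [h]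
      rw [Nat.mul_add_div (by omega), Nat.mul_add_div (by omega), Nat.div_eq_of_lt (by omega),
        Nat.div_eq_of_lt (by omega)] at e1
      simpa using e1
    have h2 : a = b := by
      rw [h1] at h
      omega
    rw [ih v' w' (by simpa using hv) (by simpa using hw) (fun c hc => hvn c (by simp [hc]))
      (fun c hc => hwn c (by simp [hc])) h1, h2]

/-- recurrent factors -/
def Rc (x : ℕ → ℕ) (L : ℕ) : Set (List ℕ) := {v | {i | fac x i L = v}.Infinite}

theorem Rc_mem {x : ℕ → ℕ} {L : ℕ} {v : List ℕ} (h : v ∈ Rc x L) : ∃ i, fac x i L = v :=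
  Set.Infinite.nonempty h

/-- all factors of a given length -/
theorem finite_fac {x : ℕ → ℕ} {n : ℕ} (hx : ∀ i, x i < n) (L : ℕ) :
    (Set.range fun i => fac x i L).Finite := by
  induction L with
  | zero =>
    refine (Set.finite_singleton ([] : List ℕ)).subset ?_
    rintro _ ⟨i, rfl⟩
    simp [fac]
  | succ L ih =>
    refine (Set.Finite.image2 (fun v (a : ℕ) => v ++ [a]) ih (Set.finite_Iio n)).subset ?_
    rintro _ ⟨i, rfl⟩
    exact ⟨fac x i L, ⟨i, rfl⟩, x (i + L), hx _, (fac_succ x i L).symm⟩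

theorem Rc_finite {x : ℕ → ℕ} {n : ℕ} (hx : ∀ i, x i < n) (L : ℕ) : (Rc x L).Finite :=
  (finite_fac hx L).subset fun _ hv => Rc_mem hv

/-- recurrent factors have recurrent extensions -/
theorem Rc_ext {x : ℕ → ℕ} {n : ℕ} (hx : ∀ i, x i < n) {L : ℕ} {v : List ℕ} (hv : v ∈ Rc x L) :
    ∃ a, v ++ [a] ∈ Rc x (L + 1) := by
  by_contra hcon
  push Not at hcon
  have h1 : ∀ a, {i | fac x i (L + 1) = v ++ [a]}.Finite := fun a => by
    have := hcon a
    unfold Rc at this
    simpa [Set.not_infinite] using this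
  refine hv (((Set.finite_Iio n).biUnion (fun a _ => h1 a)).subset ?_)
  intro i hi
  have hi' : fac x i L = v := hi
  rw [Set.mem_iUnion₂]
  exact ⟨x (i + L), hx _, by show fac x i (L + 1) = _; rw [fac_succ, hi']⟩

theorem Rc_take {x : ℕ → ℕ} {L : ℕ} {v : List ℕ} (hv : v ∈ Rc x (L + 1)) : v.take L ∈ Rc x L := by
  refine Set.Infinite.mono ?_ hv
  intro i hi
  have hi' : fac x i (L + 1) = v := hi
  show fac x i L = v.take L
  rw [← hi', fac_take x (Nat.le_succ L)]

theorem Rc_length {x : ℕ → ℕ} {L : ℕ} {v : List ℕ} (hv : v ∈ Rc x L) : v.length = L := by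
  obtain ⟨i, rfl⟩ := Rc_mem hv
  exact fac_length x i L

theorem Rc_surj {x : ℕ → ℕ} {n : ℕ} (hx : ∀ i, x i < n) (L : ℕ) :
    (fun v => v.take L) '' Rc x (L + 1) = Rc x L := by
  ext v
  constructor
  · rintro ⟨w, hw, rfl⟩
    exact Rc_take hw
  · intro hv
    obtain ⟨a, ha⟩ := Rc_ext hx hv
    refine ⟨v ++ [a], ha, ?_⟩
    have := Rc_length hv
    show (v ++ [a]).take L = v
    rw [← this]
    simp

/-- the case of few recurrent factors -/
theorem few {n d k : ℕ} {x : ℕ → ℕ} (hx : ∀ i, x i < n) (h : ∀ L, (Rc x L).ncard < d) :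
    ∃ m, HasPow k (pre x m) := by
  have hmono : ∀ L, (Rc x L).ncard ≤ (Rc x (L + 1)).ncard := by
    intro L
    rw [← Rc_surj hx L]
    exact Set.ncard_image_le (Rc_finite hx _)
  obtain ⟨L, hL⟩ : ∃ L, (Rc x (L + 1)).ncard = (Rc x L).ncard := by
    by_contra hcon
    push Not at hcon
    have h1 : ∀ L, L ≤ (Rc x L).ncard := by
      intro L
      induction L with
      | zero => exact Nat.zero_le _
      | succ L ih =>
        have h2 := hmono L
        have h3 := hcon L
        omega
    exact absurd (h1 d) (not_le.2 (h d))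
  have hinj : Set.InjOn (fun v : List ℕ => v.take L) (Rc x (L + 1)) := by
    refine (Set.ncard_image_iff (Rc_finite hx _)).1 ?_
    rw [Rc_surj hx L, hL]
  -- eventually all factors are recurrent
  obtain ⟨T, hT⟩ : ∃ T, ∀ i ≥ T, fac x i (L + 1) ∈ Rc x (L + 1) := by
    have h1 : {i | fac x i (L + 1) ∉ Rc x (L + 1)}.Finite := by
      have h2 : ((Set.range fun i => fac x i (L + 1)) \ Rc x (L + 1)).Finite :=
        (finite_fac hx _).subset Set.sdiff_subset
      refine (h2.biUnion (t := fun v => {i | fac x i (L + 1) = v}) (fun v hv => ?_)).subset ?_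
      · have h3 : v ∉ Rc x (L + 1) := hv.2
        unfold Rc at h3
        simpa [Set.not_infinite] using h3
      · intro i hi
        rw [Set.mem_iUnion₂]
        exact ⟨fac x i (L + 1), ⟨⟨i, rfl⟩, hi⟩, rfl⟩
    obtain ⟨T, hT⟩ := h1.bddAbove
    refine ⟨T + 1, fun i hi => ?_⟩
    by_contra hcon
    have := hT hcon
    omega
  have hdet : ∀ i ≥ T, ∀ j ≥ T, fac x i L = fac x j L → x (i + L) = x (j + L) := by
    intro i hi j hj hij
    have h1 := hinj (hT i hi) (hT j hj) (by
      show (fac x i (L + 1)).take L = (fac x j (L + 1)).take L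
      rw [fac_take x (Nat.le_succ L), fac_take x (Nat.le_succ L), hij])
    rw [fac_succ, fac_succ, hij] at h1
    simpa using h1
  -- pigeonhole
  obtain ⟨i, j, hi, hij, hfac⟩ : ∃ i j, T ≤ i ∧ i < j ∧ fac x i L = fac x j L := by
    have h1 : ¬ Set.InjOn (fun i => fac x i L) (Set.Ici T) := by
      intro hI
      have h2 := Set.infinite_of_injOn_mapsTo hI (t := Set.range fun i => fac x i L)
        (fun i _ => ⟨i, rfl⟩) (Set.Ici_infinite T)
      exact h2 (finite_fac hx L)
    unfold Set.InjOn at h1
    push Not at h1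
    obtain ⟨a, ha, b, hb, hab, hne⟩ := h1
    rcases Nat.lt_or_gt_of_ne hne with h2 | h2
    · exact ⟨a, b, ha, h2, hab⟩
    · exact ⟨b, a, hb, h2, hab.symm⟩
  have hper : ∀ t, fac x (i + t) L = fac x (j + t) L := by
    intro t
    induction t with
    | zero => exact hfac
    | succ t ih =>
      have h1 := hdet (i + t) (by omega) (j + t) (by omega) ih
      have h2 : fac x (i + t) (L + 1) = fac x (j + t) (L + 1) := by
        rw [fac_succ, fac_succ, ih, h1]
      have h3 : ∀ a, fac x a (L + 1) = [x a] ++ fac x (a + 1) L := by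
        intro a
        rw [add_comm L 1, fac_add]
        simp [fac]
      rw [h3, h3] at h2
      have h4 := (List.append_inj h2 (by simp)).2
      rw [← add_assoc, ← add_assoc]
      exact h4
  have hx2 : ∀ t, x (i + L + t) = x (i + L + (j - i) + t) := by
    intro t
    have h1 := hdet (i + t) (by omega) (j + t) (by omega) (hper t)
    rw [show i + L + t = i + t + L by ring, h1]
    congr 1
    omega
  have hsh : ∀ m, fac x (i + L + (j - i)) m = fac x (i + L) m := by
    intro m
    unfold fac
    exact List.map_congr_left (fun t _ => (hx2 t).symm)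
  have hrep : ∀ k, fac x (i + L) (k * (j - i)) =
      (List.replicate k (fac x (i + L) (j - i))).flatten := by
    intro k
    induction k with
    | zero => simp [fac]
    | succ k ih =>
      rw [Nat.succ_mul, add_comm (k * (j - i)), fac_add, hsh, ih, List.replicate_succ,
        List.flatten_cons]
  refine ⟨i + L + k * (j - i), fac x 0 (i + L), fac x (i + L) (j - i), [], ?_, ?_⟩
  · intro h0
    have := fac_length x (i + L) (j - i)
    rw [h0] at this
    simp at this
    omega
  · rw [pre_eq, fac_add, zero_add, hrep, List.append_nil]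

/-- the case of many recurrent factors -/
theorem many {n d L : ℕ} {x : ℕ → ℕ} (hx : ∀ i, x i < n) (h : d ≤ (Rc x L).ncard) :
    ∃ m, HasDiv n d (pre x m) := by
  classical
  rcases Nat.eq_zero_or_pos d with rfl | hd
  · exact ⟨0, [], [], fun i => i.elim0, 0, by simp [pre], fun i => i.elim0, fun i => i.elim0⟩
  -- values
  have hvinj : Set.InjOn (val (n + 1)) (Rc x L) := by
    intro v hv w hw hvw
    refine val_inj L v w (Rc_length hv) (Rc_length hw) ?_ ?_ hvw
    · obtain ⟨i, rfl⟩ := Rc_mem hv
      exact fun a ha => mem_fac hx ha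
    · obtain ⟨i, rfl⟩ := Rc_mem hw
      exact fun a ha => mem_fac hx ha
  let S : Finset ℕ := ((Rc_finite hx L).image (val (n + 1))).toFinset
  have hS : d ≤ S.card := by
    rw [← Set.ncard_eq_toFinset_card _ ((Rc_finite hx L).image (val (n + 1))),
      hvinj.ncard_image]
    exact h
  obtain ⟨S', hS'S, hS'⟩ := Finset.exists_subset_card_eq hS
  have hw : ∀ i : ℕ, ∃ v ∈ Rc x L, (∀ hi : i < d,
      val (n + 1) v = S'.orderEmbOfFin hS' (Fin.rev ⟨i, hi⟩)) := by
    intro i
    by_cases hi : i < d
    · have h1 := hS'S (S'.orderEmbOfFin_mem hS' (Fin.rev ⟨i, hi⟩))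
      rw [Set.Finite.mem_toFinset] at h1
      obtain ⟨v, hv, hv2⟩ := h1
      exact ⟨v, hv, fun _ => hv2⟩
    · have h1 : (Rc x L).Nonempty := by
        rw [← Set.ncard_pos (Rc_finite hx L)]
        omega
      obtain ⟨v, hv⟩ := h1
      exact ⟨v, hv, fun hi' => absurd hi' hi⟩
  choose v hvR hvv using hw
  have hnext : ∀ (i a : ℕ), ∃ b, a ≤ b ∧ fac x b L = v i := by
    intro i a
    obtain ⟨b, hb, hab⟩ := Set.Infinite.exists_gt (hvR i) a
    exact ⟨b, hab.le, hb⟩
  choose nx hnx1 hnx2 using hnext
  let p : ℕ → ℕ := fun i => Nat.rec (nx 0 0) (fun i a => nx (i + 1) (a + L)) i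
  have hp1 : ∀ i, fac x (p i) L = v i := by
    intro i
    cases i with
    | zero => exact hnx2 0 0
    | succ i => exact hnx2 (i + 1) (p i + L)
  have hp2 : ∀ i, p i + L ≤ p (i + 1) := fun i => hnx1 (i + 1) (p i + L)
  have hconc : ∀ e, (List.ofFn fun i : Fin e => fac x (p i) (p (i + 1) - p i)).flatten =
      fac x (p 0) (p e - p 0) := by
    intro e
    induction e with
    | zero => simp [fac]
    | succ e ih =>
      have hm : ∀ e, p 0 ≤ p e := by
        intro e
        induction e with
        | zero => exact le_rfl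
        | succ e ih => exact ih.trans ((Nat.le_add_right _ _).trans (hp2 e))
      have h1 := hm e
      have h2 := hp2 e
      rw [List.ofFn_succ', List.concat_eq_append, List.flatten_append]
      have h3 : (List.ofFn fun i : Fin e => fac x (p (Fin.castSucc i))
          (p ((Fin.castSucc i : Fin (e + 1)) + 1) - p (Fin.castSucc i))).flatten =
          fac x (p 0) (p e - p 0) := by
        simpa using ih
      rw [h3]
      simp only [Fin.val_last, List.flatten_cons, List.flatten_nil, List.append_nil]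
      rw [show p (e + 1) - p 0 = (p e - p 0) + (p (e + 1) - p e) by omega, fac_add,
        show p 0 + (p e - p 0) = p e by omega]
  refine ⟨p d, fac x 0 (p 0), [], fun i => fac x (p i) (p (i + 1) - p i), L, ?_, ?_, ?_⟩
  · rw [hconc d, List.append_nil, pre_eq]
    have hm : ∀ e, p 0 ≤ p e := by
      intro e
      induction e with
      | zero => exact le_rfl
      | succ e ih => exact ih.trans ((Nat.le_add_right _ _).trans (hp2 e))
    have := hm d
    rw [show p d = p 0 + (p d - p 0) by omega, fac_add, zero_add]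
    congr 2
    omega
  · intro i
    rw [fac_length]
    have := hp2 i
    omega
  · intro i j hij
    have hLi : L ≤ p (i + 1) - p i := by have := hp2 i; omega
    have hLj : L ≤ p (j + 1) - p j := by have := hp2 j; omega
    rw [fac_take x hLi, fac_take x hLj, hp1, hp1, hvv i i.2, hvv j j.2]
    refine (S'.orderEmbOfFin hS').strictMono ?_
    rw [Fin.rev_lt_rev]
    exact hij

/-- AD-13b: infinite words. -/
theorem infinite_dich (n d k : ℕ) (x : ℕ → ℕ) (hx : ∀ i, x i < n) :
    ∃ m, HasPow k (pre x m) ∨ HasDiv n d (pre x m) := by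
  by_cases h : ∃ L, d ≤ (Rc x L).ncard
  · obtain ⟨L, hL⟩ := h
    obtain ⟨m, hm⟩ := many hx hL
    exact ⟨m, Or.inr hm⟩
  · push Not at h
    obtain ⟨m, hm⟩ := few (k := k) hx h
    exact ⟨m, Or.inl hm⟩

end AD
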