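import Pool.Agent.AD.ShA
import Pool.Agent.AD.ShB

namespace AD

/-- AD-13: Shirshov's lemma, combinatorial core. -/
theorem shir_core (n d k : ℕ) : ∃ N : ℕ, ∀ w : List ℕ, (∀ a ∈ w, a < n) → N ≤ w.length →
    HasPow k w ∨ HasDiv n d w := by
  by_contra hcon
  push Not at hcon
  obtain ⟨x, hx, h⟩ := exists_infinite n d k hcon
  obtain ⟨m, hm⟩ := infinite_dich n d k x hx
  rcases hm with hm | hm
  · exact (h m).1 hm
  · exact (h m).2 hm

end AD
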