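import Pool.Agent.AD.Tlat
import Pool.Agent.AD.Model

namespace AD

/-- nonunital rings -/
abbrev RingObj := Σ R : Type, NonUnitalRing R

/-- the rings satisfying all identities in `S` -/
def Mod (S : Set P) : Set RingObj := {R | ∀ f ∈ S, @Sat R.1 R.2 f}

/-- the identities of a class of rings -/
def Th (K : Set RingObj) : Set P := {f | f ∈ Pp ∧ ∀ R ∈ K, @Sat R.1 R.2 f}

/-- varieties of rings -/
def IsVariety (K : Set RingObj) : Prop := ∃ S : Set P, S ⊆ Pp ∧ K = Mod S

/-- the smallest variety containing both -/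
def join (K K' : Set RingObj) : Set RingObj := Mod (Th (K ∪ K'))

/-- the lattice of subvarieties of `V` is distributive -/
def Distributive (V : Set RingObj) : Prop :=
  ∀ A B C : Set RingObj, IsVariety A → IsVariety B → IsVariety C → A ⊆ V → B ⊆ V → C ⊆ V →
    A ∩ join B C = join (A ∩ B) (A ∩ C)

/-- almost distributive varieties -/
def AlmostDistributive (V : Set RingObj) : Prop :=
  IsVariety V ∧ ¬ Distributive V ∧ ∀ W, IsVariety W → W ⊂ V → Distributive W

theorem trans_fst {R : Type} [NonUnitalRing R] (a : ℕ → R) (f : P) :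
    (FreeAlgebra.lift ℤ (fun i => ((a i : R) : Unitization ℤ R)) f).fst = aug f := by
  have h : (Unitization.fstHom ℤ R).comp (FreeAlgebra.lift ℤ (fun i => ((a i : R) : Unitization ℤ R)))
      = aug := by
    apply FreeAlgebra.hom_ext
    funext i
    simp [aug, FreeAlgebra.lift_ι_apply]
  rw [← h]
  rfl

theorem trans_subst {R : Type} [NonUnitalRing R] {φ : P →ₐ[ℤ] P} (hφ : IsSubst φ) {f : P}
    (hf : Sat R f) : Sat R (φ f) := by
  intro a
  have h : (FreeAlgebra.lift ℤ (fun i => ((a i : R) : Unitization ℤ R))).comp φ =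
      FreeAlgebra.lift ℤ (fun i => (((FreeAlgebra.lift ℤ
        (fun i => ((a i : R) : Unitization ℤ R)) (φ (X i))).snd : R) : Unitization ℤ R)) := by
    apply FreeAlgebra.hom_ext
    funext i
    simp only [Function.comp_apply, AlgHom.comp_apply, FreeAlgebra.lift_ι_apply]
    ext
    · rw [trans_fst, hφ i]
      simp
    · simp
  have h2 : FreeAlgebra.lift ℤ (fun i => ((a i : R) : Unitization ℤ R)) (φ f) =
      ((FreeAlgebra.lift ℤ (fun i => ((a i : R) : Unitization ℤ R))).comp φ) f := rfl
  rw [h2, h]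
  exact hf _

theorem trans_zero (R : Type) [NonUnitalRing R] : Sat R 0 := fun a => by rw [map_zero]

theorem trans_add {R : Type} [NonUnitalRing R] {f g : P} (hf : Sat R f) (hg : Sat R g) :
    Sat R (f + g) := fun a => by rw [map_add, hf a, hg a, add_zero]

theorem trans_smul {R : Type} [NonUnitalRing R] {f : P} (hf : Sat R f) (c : ℤ) :
    Sat R (c • f) := fun a => by rw [map_smul, hf a, smul_zero]

theorem trans_mul_right {R : Type} [NonUnitalRing R] {f : P} (hf : Sat R f) (g : P) :
    Sat R (f * g) := fun a => by rw [map_mul, hf a, zero_mul]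

theorem trans_mul_left {R : Type} [NonUnitalRing R] {f : P} (hf : Sat R f) (g : P) :
    Sat R (g * f) := fun a => by rw [map_mul, hf a, mul_zero]

theorem trans_aug_Pp (f : P) : f ∈ Pp ↔ aug f = 0 := by
  unfold Pp
  rw [LinearMap.mem_ker]
  rfl

/-- AD-22 (a): the identities of a class of rings form a T-ideal. -/
theorem exists_Th (K : Set RingObj) : ∃ I : Submodule ℤ P, IsT I ∧ (I : Set P) = Th K := by
  let I : Submodule ℤ P :=
    { carrier := Th K
      zero_mem' := ⟨Submodule.zero_mem _, fun R _ => @trans_zero R.1 R.2⟩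
      add_mem' := by
        rintro f g ⟨h1, h2⟩ ⟨h3, h4⟩
        exact ⟨Submodule.add_mem _ h1 h3, fun R hR =>
          @trans_add R.1 R.2 f g (h2 R hR) (h4 R hR)⟩
      smul_mem' := by
        rintro c f ⟨h1, h2⟩
        exact ⟨Submodule.smul_mem _ _ h1, fun R hR => @trans_smul R.1 R.2 f (h2 R hR) c⟩ }
  refine ⟨I, ?_, rfl⟩
  constructor
  · intro f hf
    exact hf.1
  · rintro f ⟨h1, h2⟩ g
    refine ⟨?_, fun R hR => @trans_mul_right R.1 R.2 f (h2 R hR) g⟩
    rw [trans_aug_Pp, map_mul, (trans_aug_Pp f).1 h1, zero_mul]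
  · rintro f ⟨h1, h2⟩ g
    refine ⟨?_, fun R hR => @trans_mul_left R.1 R.2 f (h2 R hR) g⟩
    rw [trans_aug_Pp, map_mul, (trans_aug_Pp f).1 h1, mul_zero]
  · rintro φ hφ f ⟨h1, h2⟩
    refine ⟨?_, fun R hR => ?_⟩
    · rw [trans_aug_Pp]
      have h3 : aug.comp φ = aug := by
        apply FreeAlgebra.hom_ext
        funext i
        have := hφ i
        simp [aug, FreeAlgebra.lift_ι_apply] at this ⊢
        exact this
      have : aug (φ f) = (aug.comp φ) f := rfl
      rw [this, h3]
      exact (trans_aug_Pp f).1 h1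
    · exact @trans_subst R.1 R.2 φ hφ f (h2 R hR)

/-- AD-22 (b). -/
theorem Th_Mod {I : Submodule ℤ P} (hI : IsT I) : Th (Mod (I : Set P)) = (I : Set P) := by
  ext f
  constructor
  · rintro ⟨h1, h2⟩
    obtain ⟨R, iR, π, _, _, h⟩ := model hI Pp le_rfl (by
      intro a ha b hb
      rw [trans_aug_Pp, map_mul, (trans_aug_Pp a).1 ha, zero_mul])
    have hR : (⟨R, iR⟩ : RingObj) ∈ Mod (I : Set P) := by
      intro g hg
      refine (h g (hI.le hg)).2 ?_
      intro φ hφ
      exact hI.subst φ (fun i => (trans_aug_Pp _).1 (hφ i)) g hg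
    have h3 := (h f h1).1 (h2 _ hR) (AlgHom.id ℤ P) (by
      intro i
      rw [trans_aug_Pp]
      simp [aug, FreeAlgebra.lift_ι_apply])
    simpa using h3
  · intro hf
    exact ⟨hI.le hf, fun R hR => hR f hf⟩

end AD
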